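import Mathlib

set_option autoImplicit false

/-!
Two facts on modular lattices: the diamond in a nondistributive modular lattice, and the bound
for the length of chains given by one maximal chain.
-/

namespace Pool.Agent.H35

section Diamond

variable {L : Type*} [Lattice L] [IsModularLattice L]

lemma median_aux (a b c : L) :
    (b ⊓ (a ⊔ c)) ⊔ (c ⊓ (a ⊔ b)) = (b ⊔ c) ⊓ (a ⊔ c) ⊓ (a ⊔ b) := by
  have h1 : (b ⊓ (a ⊔ c)) ⊔ (c ⊓ (a ⊔ b)) = ((b ⊓ (a ⊔ c)) ⊔ c) ⊓ (a ⊔ b) := by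
    rw [sup_inf_assoc_of_le c (inf_le_left.trans le_sup_right)]
  have h2 : (b ⊓ (a ⊔ c)) ⊔ c = (b ⊔ c) ⊓ (a ⊔ c) := by
    rw [inf_comm b, inf_sup_assoc_of_le b (le_sup_right : c ≤ a ⊔ c), inf_comm]
  rw [h1, h2]

lemma median_aux' (a b c : L) :
    (b ⊔ (a ⊓ c)) ⊓ (c ⊔ (a ⊓ b)) = (b ⊓ c) ⊔ (a ⊓ c) ⊔ (a ⊓ b) :=
  median_aux (L := Lᵒᵈ) a b c

/-- Failure of distributivity in a modular lattice gives a diamond. -/
theorem exists_diamond (a b c : L) (h : ¬ a ⊓ (b ⊔ c) ≤ (a ⊓ b) ⊔ (a ⊓ c)) :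
    ∃ d e x y z : L, d < x ∧ x ⊓ y = d ∧ y ⊓ z = d ∧ x ⊓ z = d ∧
      x ⊔ y = e ∧ y ⊔ z = e ∧ x ⊔ z = e ∧ e ≤ a ⊔ b := by
  let d : L := (b ⊓ c) ⊔ (a ⊓ c) ⊔ (a ⊓ b)
  let e : L := (b ⊔ c) ⊓ (a ⊔ c) ⊓ (a ⊔ b)
  have hde : d ≤ e := by
    refine le_inf (le_inf ?_ ?_) ?_
    · exact sup_le (sup_le (inf_le_left.trans le_sup_left) (inf_le_right.trans le_sup_right))
        (inf_le_right.trans le_sup_left)
    · exact sup_le (sup_le (inf_le_right.trans le_sup_right) (inf_le_left.trans le_sup_left))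
        (inf_le_left.trans le_sup_left)
    · exact sup_le (sup_le (inf_le_left.trans le_sup_right) (inf_le_left.trans le_sup_left))
        (inf_le_left.trans le_sup_left)
  -- the three middle elements
  let x : L := (a ⊔ (b ⊓ c)) ⊓ e
  let y : L := (b ⊔ (a ⊓ c)) ⊓ e
  let z : L := (c ⊔ (a ⊓ b)) ⊓ e
  have hxy' : (a ⊔ (b ⊓ c)) ⊓ (b ⊔ (a ⊓ c)) = d := by
    have := median_aux' c a b
    rw [inf_comm c b, inf_comm c a] at this
    rw [this]
    show a ⊓ b ⊔ b ⊓ c ⊔ a ⊓ c = b ⊓ c ⊔ a ⊓ c ⊔ a ⊓ b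
    ac_rfl
  have hyz' : (b ⊔ (a ⊓ c)) ⊓ (c ⊔ (a ⊓ b)) = d := median_aux' a b c
  have hxz' : (a ⊔ (b ⊓ c)) ⊓ (c ⊔ (a ⊓ b)) = d := by
    have := median_aux' b a c
    rw [inf_comm b a] at this
    rw [this]
    show a ⊓ c ⊔ b ⊓ c ⊔ a ⊓ b = b ⊓ c ⊔ a ⊓ c ⊔ a ⊓ b
    ac_rfl
  have meet : ∀ u v : L, u ⊓ v = d → (u ⊓ e) ⊓ (v ⊓ e) = d := by
    intro u v huv
    have : (u ⊓ e) ⊓ (v ⊓ e) = (u ⊓ v) ⊓ e := by
      rw [inf_inf_inf_comm, inf_idem]
    rw [this, huv, inf_eq_left.mpr hde]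
  have ex : x = d ⊔ (a ⊓ (b ⊔ c)) := by
    have h1 : a ⊔ (b ⊓ c) = d ⊔ a := by
      apply le_antisymm
      · exact sup_le le_sup_right ((le_sup_left.trans le_sup_left).trans le_sup_left)
      · refine sup_le (sup_le (sup_le le_sup_right ?_) ?_) le_sup_left
        · exact inf_le_left.trans le_sup_left
        · exact inf_le_left.trans le_sup_left
    show (a ⊔ (b ⊓ c)) ⊓ e = _
    rw [h1, sup_inf_assoc_of_le a hde]
    congr 1
    show a ⊓ ((b ⊔ c) ⊓ (a ⊔ c) ⊓ (a ⊔ b)) = a ⊓ (b ⊔ c)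
    apply le_antisymm
    · exact le_inf inf_le_left (inf_le_right.trans (inf_le_left.trans inf_le_left))
    · exact le_inf inf_le_left (le_inf (le_inf inf_le_right (inf_le_left.trans le_sup_left))
        (inf_le_left.trans le_sup_left))
  have ey : y = d ⊔ (b ⊓ (a ⊔ c)) := by
    have h1 : b ⊔ (a ⊓ c) = d ⊔ b := by
      apply le_antisymm
      · exact sup_le le_sup_right ((le_sup_right.trans le_sup_left).trans le_sup_left)
      · refine sup_le (sup_le (sup_le ?_ le_sup_right) ?_) le_sup_left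
        · exact inf_le_left.trans le_sup_left
        · exact inf_le_right.trans le_sup_left
    show (b ⊔ (a ⊓ c)) ⊓ e = _
    rw [h1, sup_inf_assoc_of_le b hde]
    congr 1
    show b ⊓ ((b ⊔ c) ⊓ (a ⊔ c) ⊓ (a ⊔ b)) = b ⊓ (a ⊔ c)
    apply le_antisymm
    · exact le_inf inf_le_left (inf_le_right.trans (inf_le_left.trans inf_le_right))
    · exact le_inf inf_le_left (le_inf (le_inf (inf_le_left.trans le_sup_left) inf_le_right)
        (inf_le_left.trans le_sup_right))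
  have ez : z = d ⊔ (c ⊓ (a ⊔ b)) := by
    have h1 : c ⊔ (a ⊓ b) = d ⊔ c := by
      apply le_antisymm
      · exact sup_le le_sup_right (le_sup_right.trans le_sup_left)
      · refine sup_le (sup_le (sup_le ?_ ?_) le_sup_right) le_sup_left
        · exact inf_le_right.trans le_sup_left
        · exact inf_le_right.trans le_sup_left
    show (c ⊔ (a ⊓ b)) ⊓ e = _
    rw [h1, sup_inf_assoc_of_le c hde]
    congr 1
    show c ⊓ ((b ⊔ c) ⊓ (a ⊔ c) ⊓ (a ⊔ b)) = c ⊓ (a ⊔ b)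
    apply le_antisymm
    · exact le_inf inf_le_left (inf_le_right.trans inf_le_right)
    · exact le_inf inf_le_left (le_inf (le_inf (inf_le_left.trans le_sup_right)
        (inf_le_left.trans le_sup_right)) inf_le_right)
  have join : ∀ u v : L, u ⊔ v = e → (d ⊔ u) ⊔ (d ⊔ v) = e := by
    intro u v huv
    rw [sup_sup_sup_comm, sup_idem, huv, sup_eq_right.mpr hde]
  refine ⟨d, e, x, y, z, ?_, meet _ _ hxy', meet _ _ hyz', meet _ _ hxz', ?_, ?_, ?_,
    inf_le_right⟩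
  · refine lt_of_le_of_ne (by rw [ex]; exact le_sup_left) ?_
    intro hdx
    apply h
    have h1 : a ⊓ (b ⊔ c) ≤ d := by
      rw [hdx, ex]; exact le_sup_right
    have h2 : a ⊓ (b ⊔ c) ≤ a ⊓ d := le_inf inf_le_left h1
    have h3 : a ⊓ d = (a ⊓ b) ⊔ (a ⊓ c) := by
      have h4 : d = ((a ⊓ b) ⊔ (a ⊓ c)) ⊔ (b ⊓ c) := by
        show b ⊓ c ⊔ a ⊓ c ⊔ a ⊓ b = _
        ac_rfl
      have h5 : (a ⊓ b) ⊔ (a ⊓ c) ≤ a := sup_le inf_le_left inf_le_left
      rw [h4, inf_comm, sup_inf_assoc_of_le _ h5]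
      apply sup_eq_left.mpr
      exact le_sup_of_le_left (le_inf inf_le_right (inf_le_left.trans inf_le_left))
    rw [h3] at h2
    exact h2
  · rw [ex, ey]
    apply join
    have := median_aux c a b
    rw [sup_comm c b, sup_comm c a] at this
    rw [this]
    show (a ⊔ b) ⊓ (b ⊔ c) ⊓ (a ⊔ c) = (b ⊔ c) ⊓ (a ⊔ c) ⊓ (a ⊔ b)
    ac_rfl
  · rw [ey, ez]
    exact join _ _ (median_aux a b c)
  · rw [ex, ez]
    apply join
    have := median_aux b a c
    rw [sup_comm b a] at this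
    rw [this]
    show (a ⊔ c) ⊓ (b ⊔ c) ⊓ (a ⊔ b) = (b ⊔ c) ⊓ (a ⊔ c) ⊓ (a ⊔ b)
    ac_rfl

end Diamond

section Chain

variable {L : Type*} [Lattice L] [IsModularLattice L]

/-- `m` is reached from `b` by `t` covering steps. -/
inductive Reach (b : L) : L → ℕ → Prop
  | refl : Reach b b 0
  | step {n m : L} {t : ℕ} : Reach b n t → n ⋖ m → Reach b m (t + 1)

/-- There is a strict chain of length `s` above `b` ending in `y`. -/
def HasChain (b : L) : ℕ → L → Prop
  | 0, y => b ≤ y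
  | (s + 1), y => ∃ y', y' < y ∧ HasChain b s y'

lemma Reach.le {b m : L} {t : ℕ} (h : Reach b m t) : b ≤ m := by
  induction h with
  | refl => exact le_rfl
  | step _ hc ih => exact ih.trans hc.le

lemma HasChain.mono {b : L} {s : ℕ} {y y' : L} (h : HasChain b s y) (hy : y ≤ y') :
    HasChain b s y' := by
  cases s with
  | zero => exact le_trans h hy
  | succ s =>
    obtain ⟨x, hx, h⟩ := h
    exact ⟨x, hx.trans_le hy, h⟩

lemma chain_inf {b n m : L} (hb : b ≤ n) (hc : n ⋖ m) :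
    ∀ (s : ℕ) (y : L), y ≤ m → HasChain b (s + 1) y → HasChain b s (y ⊓ n) := by
  intro s
  induction s with
  | zero =>
    intro y _ ⟨y', hy', h⟩
    exact le_inf (le_trans h hy'.le) hb
  | succ s ih =>
    intro y hy ⟨y', hy', h⟩
    by_cases hn : y' ≤ n
    · exact HasChain.mono h (le_inf hy'.le hn)
    · have h1 := ih y' (hy'.le.trans hy) h
      refine ⟨y' ⊓ n, ?_, h1⟩
      have e1 : y' ⊔ n = m := by
        rcases hc.eq_or_eq (le_sup_right : n ≤ y' ⊔ n) (sup_le (hy'.le.trans hy) hc.le) with h | h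
        · exact absurd (sup_eq_right.mp h) hn
        · exact h
      have e2 : y ⊔ n ≤ y' ⊔ n := by
        rw [e1]
        exact sup_le hy hc.le
      refine lt_of_le_of_ne (inf_le_inf_right _ hy'.le) ?_
      intro heq
      have := eq_of_le_of_inf_le_of_sup_le hy'.le heq.ge e2
      exact hy'.ne this

/-- Strict chains below `m` are not longer than a maximal one. -/
theorem chain_le {b m : L} {t : ℕ} (h : Reach b m t) :
    ∀ (s : ℕ) (y : L), y ≤ m → HasChain b s y → s ≤ t := by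
  induction h with
  | refl =>
    intro s y hy hs
    cases s with
    | zero => exact le_rfl
    | succ s =>
      exfalso
      have hb : ∀ (s : ℕ) (y : L), HasChain b s y → b ≤ y := by
        intro s
        induction s with
        | zero => intro y h; exact h
        | succ s ih =>
          rintro y ⟨y', hy', h⟩
          exact (ih _ h).trans hy'.le
      obtain ⟨y', hy', h⟩ := hs
      exact absurd (hb s y' h) (not_le_of_gt (hy'.trans_le hy))
  | step hr hc ih =>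
    intro s y hy hs
    cases s with
    | zero => exact Nat.zero_le _
    | succ s =>
      exact Nat.succ_le_succ (ih s _ inf_le_right (chain_inf hr.le hc s y hy hs))

end Chain

end Pool.Agent.H35
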