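import Pool.Agent.H35.FmMain
import Pool.Agent.H35.ModLat

set_option autoImplicit false

namespace Pool.Agent.H35

/-- The empty formation. -/
def botFm : Fm := ⟨fun _ _ => False, ⟨fun _ _ h => h.elim, fun _ _ _ _ _ _ h => h.elim,
  fun _ _ _ _ _ _ _ h _ => h.elim⟩⟩

/-- The formation of trivial groups. -/
def trivFm : Fm := ⟨fun G _ => Subsingleton G, by
  refine ⟨fun G _ h => Finite.of_subsingleton, ?_, ?_⟩
  · intro G H _ _ f hf h
    exact hf.subsingleton
  · intro G _ N₁ N₂ _ _ hN h₁ h₂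
    have key : ∀ g : G, g = 1 := by
      intro g
      have : g ∈ N₁ ⊓ N₂ := ⟨(QuotientGroup.eq_one_iff g).mp (Subsingleton.elim _ _),
        (QuotientGroup.eq_one_iff g).mp (Subsingleton.elim _ _)⟩
      rwa [hN, Subgroup.mem_bot] at this
    exact ⟨fun a b => by rw [key a, key b]⟩⟩

lemma trivFm_le {d : Fm} (hd : d.Ne) : trivFm ≤ d := by
  intro G _ hG
  have : Subsingleton G := hG
  exact d.2.quo PUnit G 1 (fun g => ⟨1, Subsingleton.elim _ _⟩) hd

/-- A diamond cannot sit in a lattice of soluble formations of length at most four. -/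
theorem no_diamond (F : Fm) (hsol : ∀ (G : Type) [Group G], F.1 G → Group.IsSolvable G)
    {t : ℕ} (ht : t ≤ 4) (hreach : Reach botFm F t) (d e x y z : Fm) (hdx : d < x)
    (hxy : x ⊓ y = d) (hyz : y ⊓ z = d) (hxz : x ⊓ z = d)
    (exy : x ⊔ y = e) (eyz : y ⊔ z = e) (exz : x ⊔ z = e) (heF : e ≤ F) : False := by
  have hdx' := hdx.le
  have hdy' : d ≤ y := by rw [← hxy]; exact inf_le_right
  have hdz' : d ≤ z := by rw [← hxz]; exact inf_le_right
  have hxe : x ≤ e := by rw [← exy]; exact le_sup_left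
  have hye : y ≤ e := by rw [← exy]; exact le_sup_right
  have hze : z ≤ e := by rw [← exz]; exact le_sup_right
  have hdy : d < y := by
    refine lt_of_le_of_ne hdy' ?_
    intro h
    have h1 : e = x := by rw [← exy, ← h]; exact sup_eq_left.mpr hdx'
    have h2 : z ≤ x := by rw [← h1]; exact hze
    have h3 : z = d := by rw [← hxz]; exact (inf_eq_right.mpr h2).symm
    have h4 : e = d := by rw [← eyz, ← h, h3, sup_idem]
    rw [h4] at hxe
    exact absurd hxe (not_le_of_gt hdx)
  have hdz : d < z := by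
    refine lt_of_le_of_ne hdz' ?_
    intro h
    have h1 : e = x := by rw [← exz, ← h]; exact sup_eq_left.mpr hdx'
    have h2 : y ≤ x := by rw [← h1]; exact hye
    have h3 : y = d := by rw [← hxy]; exact (inf_eq_right.mpr h2).symm
    exact hdy.ne h3.symm
  have hne_of_lt : ∀ {u v : Fm}, u < v → v.Ne := by
    intro u v huv
    by_contra hcon
    apply not_le_of_gt huv
    intro G _ hG
    exact absurd (Fm.ne_of_mem hG) hcon
  have nx := hne_of_lt hdx
  have ny := hne_of_lt hdy
  have nz := hne_of_lt hdz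
  have nd : d.Ne := by rw [← hxy]; exact ⟨nx, ny⟩
  have hyx : y ⊓ x = d := by rw [inf_comm]; exact hxy
  have hzx : z ⊓ x = d := by rw [inf_comm]; exact hxz
  have hzy : z ⊓ y = d := by rw [inf_comm]; exact hyz
  have lx : x ≤ y ⊔ z := by rw [eyz]; exact hxe
  have ly : y ≤ x ⊔ z := by rw [exz]; exact hye
  have lz : z ≤ x ⊔ y := by rw [exy]; exact hze
  obtain ⟨Gx, _, hGx, hdGx, hqx, Tx, _, hTx, hBx⟩ := extract d x y z hdx hxy hxz ny nz lx
  obtain ⟨Gy, _, hGy, hdGy, hqy, Ty, _, hTy, hBy⟩ := extract d y x z hdy hyx hyz nx nz ly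
  obtain ⟨Gz, _, hGz, hdGz, hqz, Tz, _, hTz, hBz⟩ := extract d z x y hdz hzx hzy nx ny lz
  -- a prime
  have hdF : d ≤ F := hdx'.trans (hxe.trans heF)
  have hBnt : Nontrivial (BK Tx) := by
    have : Nontrivial Tx := (Subgroup.nontrivial_iff_ne_bot Tx).mpr hTx
    exact (SemidirectProduct.inl_injective (φ := (ActRange Tx).subtype)).nontrivial
  obtain ⟨p, hp, C, _, hdC, hCnt, hCp⟩ := exists_prime_group d
    (fun G _ hG => hsol G (hdF G hG)) hBx hBnt
  -- the chain
  have hdp : d ≤ Ep p := by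
    by_contra hcon
    have h1 : HasChain botFm 0 botFm := le_rfl
    have l1 : botFm < trivFm := by
      refine lt_of_le_of_ne (fun G _ h => h.elim) ?_
      intro h
      have h2 : botFm.1 PUnit := by
        rw [h]
        exact (inferInstance : Subsingleton PUnit)
      exact h2
    have l2 : trivFm < d ⊓ Ep p := by
      refine lt_of_le_of_ne (le_inf (trivFm_le nd) ?_) ?_
      · apply trivFm_le
        exact ⟨inferInstance, fun _ _ => rfl, fun _ => rfl⟩
      · intro h
        have h2 : trivFm.1 C := by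
          rw [h]; exact ⟨hdC, hCp⟩
        exact not_subsingleton C h2
    have l3 : d ⊓ Ep p < d := by
      refine lt_of_le_of_ne inf_le_left ?_
      intro h
      exact hcon (inf_eq_left.mp h)
    have l4 : x < e := by
      refine lt_of_le_of_ne hxe ?_
      intro h
      have h2 : y ≤ x := by rw [h]; exact hye
      have h3 : y = d := by rw [← hxy]; exact (inf_eq_right.mpr h2).symm
      exact hdy.ne h3.symm
    have h5 : HasChain botFm 5 e := ⟨x, l4, d, hdx, d ⊓ Ep p, l3, trivFm, l2, botFm, l1, h1⟩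
    have := chain_le hreach 5 e heF h5
    omega
  -- the pigeonhole argument
  have ax := cyc_or_heis d x hp hdp hGx hdGx hqx Tx hTx hBx
  have ay := cyc_or_heis d y hp hdp hGy hdGy hqy Ty hTy hBy
  have az := cyc_or_heis d z hp hdp hGz hdGz hqz Tz hTz hBz
  have pc : ∀ (u v : Fm), u ⊓ v = d → ∀ (G H : Type) [Group G] [Group H], u.1 G → ¬ d.1 G →
      v.1 H → (IsCyclic G ∧ Nat.card G = p ^ 2) → (IsCyclic H ∧ Nat.card H = p ^ 2) → False := by
    rintro u v huv G H _ _ hG hdG hH ⟨c1, n1⟩ ⟨c2, n2⟩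
    apply hdG
    rw [← huv]
    exact ⟨hG, v.2.iso (mulEquivOfCyclicCardEq (n2.trans n1.symm)) hH⟩
  have ph : ∀ (u v : Fm), u ⊓ v = d → (∃ (Q : Type) (_ : Group Q), u.1 Q ∧ IsHeis p Q) →
      (∃ (Q : Type) (_ : Group Q), v.1 Q ∧ IsHeis p Q) → False := by
    rintro u v huv ⟨Q, _, hQ, hQH⟩ ⟨Q', _, hQ', hQH'⟩
    obtain ⟨eqv⟩ := IsHeis.nonempty_equiv hp hQH' hQH
    have h1 : d.1 Q := by
      rw [← huv]
      exact ⟨hQ, v.2.iso eqv hQ'⟩
    obtain ⟨_, hc, _⟩ := hdp Q h1
    obtain ⟨a, b, z, -, -, -, hz1, -, -, hba, -⟩ := hQH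
    apply hz1
    have h2 : 1 * (a * b) = z * (a * b) := by
      rw [one_mul, ← mul_assoc, ← hba, hc]
    exact (mul_right_cancel h2).symm
  rcases ax with ax | ax <;> rcases ay with ay | ay <;> rcases az with az | az
  · exact pc x y hxy Gx Gy hGx hdGx hGy ax ay
  · exact pc x y hxy Gx Gy hGx hdGx hGy ax ay
  · exact pc x z hxz Gx Gz hGx hdGx hGz ax az
  · exact ph y z hyz ay az
  · exact pc y z hyz Gy Gz hGy hdGy hGz ay az
  · exact ph x z hxz ax az
  · exact ph x y hxy ax ay
  · exact ph x y hxy ax ay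

/-- Distributivity for soluble formations of length at most four. -/
theorem distrib_of_length (F : Fm) (hsol : ∀ (G : Type) [Group G], F.1 G → Group.IsSolvable G)
    {t : ℕ} (ht : t ≤ 4) (hreach : Reach botFm F t) (A B C : Fm) (hA : A ≤ F) (hB : B ≤ F) :
    A ⊓ (B ⊔ C) ≤ (A ⊓ B) ⊔ (A ⊓ C) := by
  by_contra hcon
  obtain ⟨d, e, x, y, z, hdx, hxy, hyz, hxz, exy, eyz, exz, he⟩ := exists_diamond A B C hcon
  exact no_diamond F hsol ht hreach d e x y z hdx hxy hyz hxz exy eyz exz
    (he.trans (sup_le hA hB))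

end Pool.Agent.H35
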