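import Pool.Agent.H35.Formations

set_option autoImplicit false

/-!
Group theory for formations: the semidirect products `T ⋊ (G / C_G(T))`, and the structure of
minimal groups over a class of elementary abelian groups in a diamond.
-/

namespace Pool.Agent.H35

open SemidirectProduct

/-- The image of `G` in the automorphism group of the normal subgroup `T`. -/
abbrev ActRange {G : Type} [Group G] (T : Subgroup G) [T.Normal] : Subgroup (MulAut T) :=
  (MulAut.conjNormal : G →* MulAut T).range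

/-- The semidirect product of the normal subgroup `T` of `G` with `G / C_G(T)`. -/
abbrev BK {G : Type} [Group G] (T : Subgroup G) [T.Normal] : Type :=
  T ⋊[(ActRange T).subtype] (ActRange T)

lemma bk_mem {X : Cls} (hX : IsFm X) {W G H : Type} [Group W] [Group G] [Group H]
    (f : W →* G) (hf : Function.Surjective f) (g : W →* H) (hg : Function.Surjective g)
    (T : Subgroup G) [T.Normal] (M : Subgroup W) [M.Normal]
    (hM : ∀ t ∈ T, ∃ m ∈ M, f m = t) (hM' : ∀ m ∈ M, f m ∈ T)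
    (hk : ∀ m ∈ M, g m = 1 → f m = 1)
    (hc : ∀ n : W, g n = 1 → ∀ t ∈ T, f n * t = t * f n) (hH : X H) : X (BK T) := by
  let Y : Type := M ⋊[(MulAut.conjNormal : W →* MulAut M)] W
  let F₁ : Y →* H := SemidirectProduct.lift (g.comp M.subtype) g (by
    intro w
    ext m
    simp [MulAut.conjNormal_apply])
  let F₂ : Y →* H := g.comp SemidirectProduct.rightHom
  let α : M →* T := (f.comp M.subtype).codRestrict T (fun m => hM' m m.2)
  let β : W →* ActRange T := ((MulAut.conjNormal : G →* MulAut T).comp f).codRestrict (ActRange T)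
    (fun w => ⟨f w, rfl⟩)
  let F₃ : Y →* BK T := SemidirectProduct.map α β (by
    intro w
    ext m
    show f (w * m * w⁻¹) = f w * f m * (f w)⁻¹
    simp)
  refine hX.resq F₁ F₂ F₃ ?_ ?_ ?_ ?_ hH hH
  · intro h
    obtain ⟨w, rfl⟩ := hg h
    exact ⟨inr w, SemidirectProduct.lift_inr _ _ _ _⟩
  · intro h
    obtain ⟨w, rfl⟩ := hg h
    exact ⟨inr w, rfl⟩
  · rintro ⟨⟨t, ht⟩, ⟨γ, x, rfl⟩⟩
    obtain ⟨m, hm, rfl⟩ := hM t ht
    obtain ⟨w, rfl⟩ := hf x
    exact ⟨⟨⟨m, hm⟩, w⟩, rfl⟩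
  · rintro ⟨⟨m, hm⟩, w⟩ ⟨h1, h2⟩
    have h1' : g m * g w = 1 := h1
    have h2' : g w = 1 := h2
    have h3 : g m = 1 := by rwa [h2', mul_one] at h1'
    have h4 : f m = 1 := hk m hm h3
    show F₃ ⟨⟨m, hm⟩, w⟩ = 1
    apply SemidirectProduct.ext
    · exact Subtype.ext h4
    · apply Subtype.ext
      show MulAut.conjNormal (f w) = 1
      ext t
      show f w * t * (f w)⁻¹ = t
      rw [hc w h2' t t.2]
      group

/-- The extraction of a minimal group from the side `x` of a diamond `d, x, y, z`. -/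
lemma extract (d x y z : Fm) (hdx : d < x) (hxy : x ⊓ y = d) (hxz : x ⊓ z = d)
    (hy : y.Ne) (hz : z.Ne) (hle : x ≤ y ⊔ z) :
    ∃ (G : Type) (_ : Group G), x.1 G ∧ ¬ d.1 G ∧
      (∀ (N : Subgroup G) [N.Normal], N ≠ ⊥ → d.1 (G ⧸ N)) ∧
      ∃ (T : Subgroup G) (_ : T.Normal), T ≠ ⊥ ∧ d.1 (BK T) := by
  classical
  have hex : ∃ n : ℕ, ∃ (G : Type) (_ : Group G), x.1 G ∧ ¬ d.1 G ∧ Nat.card G = n := by
    by_contra hcon
    push Not at hcon
    apply not_le_of_gt hdx
    intro G _ hG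
    by_contra hd
    exact hcon _ G inferInstance hG hd rfl
  obtain ⟨G, _, hxG, hdG, hcard⟩ := Nat.find_spec hex
  have hfin : Finite G := x.2.fin G hxG
  have hquo : ∀ (N : Subgroup G) [N.Normal], N ≠ ⊥ → d.1 (G ⧸ N) := by
    intro N _ hN
    by_contra hd
    have hxq : x.1 (G ⧸ N) := x.2.quo G _ (QuotientGroup.mk' N) (QuotientGroup.mk'_surjective N) hxG
    have hlt : Nat.card (G ⧸ N) < Nat.find hex := by
      rw [← hcard, Subgroup.card_eq_card_quotient_mul_card_subgroup N]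
      have h1 : 1 < Nat.card N := by
        rw [Finite.one_lt_card_iff_nontrivial]
        exact (Subgroup.nontrivial_iff_ne_bot N).mpr hN
      have h2 : 0 < Nat.card (G ⧸ N) := Nat.card_pos
      nlinarith
    exact Nat.find_min hex hlt ⟨G ⧸ N, inferInstance, hxq, hd, rfl⟩
  refine ⟨G, inferInstance, hxG, hdG, hquo, ?_⟩
  have hj := hle G hxG
  rw [Fm.sup_iff_join hy hz] at hj
  obtain ⟨W, G₁, G₂, _, _, _, f₁, f₂, f, h₁, h₂, h, x₁, x₂, hk⟩ := hj
  let M₁ : Subgroup G := f₁.ker.map f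
  let M₂ : Subgroup G := f₂.ker.map f
  have hM₁ : M₁.Normal := Subgroup.Normal.map inferInstance f h
  have hM₂ : M₂.Normal := Subgroup.Normal.map inferInstance f h
  have q₁ : d.1 (G ⧸ M₁) := by
    rw [← hxy]
    refine ⟨x.2.quo G _ _ (QuotientGroup.mk'_surjective M₁) hxG, ?_⟩
    refine y.2.resq f₁ f₁ ((QuotientGroup.mk' M₁).comp f) h₁ h₁
      ((QuotientGroup.mk'_surjective M₁).comp h) ?_ x₁ x₁
    rw [inf_idem]
    intro w hw
    rw [MonoidHom.mem_ker, MonoidHom.comp_apply, QuotientGroup.mk'_apply,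
      QuotientGroup.eq_one_iff]
    exact ⟨w, hw, rfl⟩
  have q₂ : d.1 (G ⧸ M₂) := by
    rw [← hxz]
    refine ⟨x.2.quo G _ _ (QuotientGroup.mk'_surjective M₂) hxG, ?_⟩
    refine z.2.resq f₂ f₂ ((QuotientGroup.mk' M₂).comp f) h₂ h₂
      ((QuotientGroup.mk'_surjective M₂).comp h) ?_ x₂ x₂
    rw [inf_idem]
    intro w hw
    rw [MonoidHom.mem_ker, MonoidHom.comp_apply, QuotientGroup.mk'_apply,
      QuotientGroup.eq_one_iff]
    exact ⟨w, hw, rfl⟩
  let T : Subgroup G := M₁ ⊓ M₂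
  have hT : T.Normal := Subgroup.normal_inf_normal _ _
  refine ⟨T, hT, ?_, ?_⟩
  · intro hbot
    exact hdG (d.2.res G M₁ M₂ hbot q₁ q₂)
  · rw [← hxy]
    refine ⟨?_, ?_⟩
    · -- in `x`: directly from `G`
      refine bk_mem x.2 (MonoidHom.id G) Function.surjective_id (MonoidHom.id G)
        Function.surjective_id T T (fun t ht => ⟨t, ht, rfl⟩) (fun m hm => hm)
        (fun m _ hm => hm) ?_ hxG
      intro n hn t _
      have : n = 1 := hn
      subst this
      simp
    · -- in `y`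
      have hMn : (f₂.ker ⊓ T.comap f).Normal := Subgroup.normal_inf_normal _ _
      refine bk_mem y.2 f h f₁ h₁ T (f₂.ker ⊓ T.comap f) ?_ (fun m hm => hm.2) ?_ ?_ x₁
      · intro t ht
        obtain ⟨m, hm, rfl⟩ := ht.2
        exact ⟨m, ⟨hm, ht⟩, rfl⟩
      · intro m hm hg
        exact hk ⟨hg, hm.1⟩
      · intro n hn t ht
        obtain ⟨m, hm, rfl⟩ := ht.2
        have hn1 : n ∈ f₁.ker := hn
        have h3 : n * m * n⁻¹ * m⁻¹ ∈ f₁.ker ⊓ f₂.ker := by
          constructor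
          · have : n * (m * n⁻¹ * m⁻¹) ∈ f₁.ker :=
              f₁.ker.mul_mem hn1 ((inferInstance : f₁.ker.Normal).conj_mem _
                (f₁.ker.inv_mem hn1) m)
            simpa [mul_assoc] using this
          · exact f₂.ker.mul_mem ((inferInstance : f₂.ker.Normal).conj_mem _ hm n)
              (f₂.ker.inv_mem hm)
        have h4 : f (n * m * n⁻¹ * m⁻¹) = 1 := hk h3
        rw [map_mul, map_mul, map_mul, map_inv, map_inv, mul_inv_eq_one,
          mul_inv_eq_iff_eq_mul] at h4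
        exact h4

/-- The formation of elementary abelian `p`-groups. -/
def Ep (p : ℕ) : Fm := ⟨fun G _ => Finite G ∧ (∀ a b : G, a * b = b * a) ∧ ∀ a : G, a ^ p = 1, by
  refine ⟨fun G _ h => h.1, ?_, ?_⟩
  · rintro G H _ _ f hf ⟨h1, h2, h3⟩
    refine ⟨Finite.of_surjective f hf, ?_, ?_⟩
    · intro a b
      obtain ⟨a, rfl⟩ := hf a
      obtain ⟨b, rfl⟩ := hf b
      rw [← map_mul, h2, map_mul]
    · intro a
      obtain ⟨a, rfl⟩ := hf a
      rw [← map_pow, h3, map_one]
  · rintro G _ N₁ N₂ _ _ hN ⟨h1, h2, h3⟩ ⟨h1', h2', h3'⟩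
    have key : ∀ g : G, (g : G ⧸ N₁) = 1 → (g : G ⧸ N₂) = 1 → g = 1 := by
      intro g hg1 hg2
      have : g ∈ N₁ ⊓ N₂ := ⟨(QuotientGroup.eq_one_iff g).mp hg1, (QuotientGroup.eq_one_iff g).mp hg2⟩
      rwa [hN, Subgroup.mem_bot] at this
    refine ⟨allFm.2.res G N₁ N₂ hN h1 h1', ?_, ?_⟩
    · intro a b
      have : a * b * a⁻¹ * b⁻¹ = 1 := by
        apply key
        · have := h2 (a : G ⧸ N₁) (b : G ⧸ N₁)
          show (a : G ⧸ N₁) * (b : G ⧸ N₁) * (a : G ⧸ N₁)⁻¹ * (b : G ⧸ N₁)⁻¹ = 1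
          rw [this]; group
        · have := h2' (a : G ⧸ N₂) (b : G ⧸ N₂)
          show (a : G ⧸ N₂) * (b : G ⧸ N₂) * (a : G ⧸ N₂)⁻¹ * (b : G ⧸ N₂)⁻¹ = 1
          rw [this]; group
      rwa [mul_inv_eq_one, mul_inv_eq_iff_eq_mul] at this
    · intro a
      exact key _ (h3 a) (h3' a)⟩

/-- A formation of soluble groups with a nontrivial group contains a nontrivial elementary abelian
group. -/
lemma exists_prime_group (d : Fm) (hsol : ∀ (G : Type) [Group G], d.1 G → Group.IsSolvable G)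
    {H : Type} [Group H] (hH : d.1 H) (hnt : Nontrivial H) :
    ∃ p : ℕ, p.Prime ∧ ∃ (C : Type) (_ : Group C), d.1 C ∧ Nontrivial C ∧ (Ep p).1 C := by
  classical
  have hex : ∃ n : ℕ, ∃ (G : Type) (_ : Group G), d.1 G ∧ Nontrivial G ∧ Nat.card G = n :=
    ⟨_, H, inferInstance, hH, hnt, rfl⟩
  obtain ⟨G, _, hdG, hntG, hcard⟩ := Nat.find_spec hex
  have hfin : Finite G := d.2.fin G hdG
  have hsimple : IsSimpleGroup G := by
    refine ⟨fun N hN => ?_⟩
    by_contra hcon
    push Not at hcon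
    obtain ⟨hb, ht⟩ := hcon
    have hlt : Nat.card (G ⧸ N) < Nat.find hex := by
      rw [← hcard, Subgroup.card_eq_card_quotient_mul_card_subgroup N]
      have h1 : 1 < Nat.card N := by
        rw [Finite.one_lt_card_iff_nontrivial]
        exact (Subgroup.nontrivial_iff_ne_bot N).mpr hb
      have h2 : 0 < Nat.card (G ⧸ N) := Nat.card_pos
      nlinarith
    refine Nat.find_min hex hlt ⟨G ⧸ N, inferInstance,
      d.2.quo G _ (QuotientGroup.mk' N) (QuotientGroup.mk'_surjective N) hdG, ?_, rfl⟩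
    by_contra hn
    rw [not_nontrivial_iff_subsingleton] at hn
    apply ht
    rw [eq_top_iff]
    intro g _
    rw [← QuotientGroup.eq_one_iff]
    exact Subsingleton.elim _ _
  have hs : Group.IsSolvable G := hsol G hdG
  have hcomm : ∀ a b : G, a * b = b * a := IsSimpleGroup.comm_iff_isSolvable.mpr hs
  let _ : CommGroup G := { (inferInstance : Group G) with mul_comm := hcomm }
  have hp : (Nat.card G).Prime := IsSimpleGroup.prime_card
  exact ⟨Nat.card G, hp, G, inferInstance, hdG, hntG, hfin, hcomm, fun a => pow_card_eq_one'⟩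

end Pool.Agent.H35
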