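import Pool.Agent.H35.FmGroups

set_option autoImplicit false

/-!
The small groups over a formation of elementary abelian `p`-groups.
-/

namespace Pool.Agent.H35

open SemidirectProduct

lemma mem_zpowers_of_prime {G : Type*} [Group G] {p : ℕ} (hp : p.Prime) {s u : G}
    (hs : s ^ p = 1) (hu : u ∈ Subgroup.zpowers s) (hu1 : u ≠ 1) : s ∈ Subgroup.zpowers u := by
  obtain ⟨k, rfl⟩ := Subgroup.mem_zpowers_iff.mp hu
  have hnd : ¬ (p : ℤ) ∣ k := by
    rintro ⟨m, rfl⟩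
    apply hu1
    rw [zpow_mul, zpow_natCast, hs, one_zpow]
  have hpp : Prime (p : ℤ) := Nat.prime_iff_prime_int.mp hp
  have hcop : IsCoprime (p : ℤ) k := (hpp.coprime_iff_not_dvd).mpr hnd
  obtain ⟨a, b, hab⟩ := hcop
  rw [Subgroup.mem_zpowers_iff]
  refine ⟨b, ?_⟩
  have h0 : s ^ (a * p) = 1 := by rw [mul_comm, zpow_mul, zpow_natCast, hs, one_zpow]
  calc (s ^ k) ^ b = s ^ (b * k) := by rw [← zpow_mul, mul_comm]
    _ = s ^ (a * p + b * k) := by rw [zpow_add, h0, one_mul]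
    _ = s := by rw [hab, zpow_one]

/-- `Q` is the group of order `p ^ 3` generated by `a`, `b` of order `p` with central commutator. -/
def IsHeis (p : ℕ) (Q : Type) [Group Q] : Prop :=
  ∃ a b z : Q, a ^ p = 1 ∧ b ^ p = 1 ∧ z ^ p = 1 ∧ z ≠ 1 ∧ z * a = a * z ∧ z * b = b * z ∧
    b * a = z * a * b ∧ Subgroup.closure {a, b, z} = ⊤

section Heis

variable {Q : Type*} [Group Q] {a b z : Q}

lemma heis_comm (hza : z * a = a * z) (hzb : z * b = b * z) (hba : b * a = z * a * b) (i j : ℤ) :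
    b ^ j * a ^ i = z ^ (i * j) * a ^ i * b ^ j := by
  have hza' : Commute z a := hza
  have hzb' : Commute z b := hzb
  -- conjugation by `b`
  have h1 : b * a * b⁻¹ = z * a := by rw [hba]; group
  have h2 : ∀ i : ℤ, b * a ^ i * b⁻¹ = z ^ i * a ^ i := by
    intro i
    rw [← conj_zpow, h1, hza'.mul_zpow]
  have h3 : ∀ (i : ℤ) (n : ℕ), b ^ n * a ^ i = z ^ (i * n) * a ^ i * b ^ n := by
    intro i n
    induction n with
    | zero => simp
    | succ n ih =>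
      have h4 : b * a ^ i = z ^ i * a ^ i * b := by rw [← h2]; group
      have h5 : b ^ n * z ^ i = z ^ i * b ^ n := ((hzb'.symm.pow_left n).zpow_right i).eq
      calc b ^ (n + 1) * a ^ i = b ^ n * (b * a ^ i) := by rw [pow_succ]; group
        _ = b ^ n * z ^ i * (a ^ i * b) := by rw [h4]; group
        _ = z ^ i * (b ^ n * a ^ i) * b := by rw [h5]; group
        _ = z ^ i * z ^ (i * n) * a ^ i * (b ^ n * b) := by rw [ih]; group
        _ = z ^ (i * ((n + 1 : ℕ) : ℤ)) * a ^ i * b ^ (n + 1) := by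
            rw [← zpow_add, ← pow_succ]; push_cast; ring_nf
  obtain ⟨n, rfl | rfl⟩ := j.eq_nat_or_neg
  · have := h3 i n
    rw [zpow_natCast]
    exact this
  · have h4 := h3 i n
    have h5 : Commute (z ^ (i * (n : ℤ))) (b ^ n) := (hzb'.pow_right n).zpow_left _
    rw [zpow_neg, zpow_natCast]
    have h6 : a ^ i = (b ^ n)⁻¹ * (z ^ (i * (n : ℤ)) * a ^ i * b ^ n) := by rw [← h4]; group
    have h7 : (b ^ n)⁻¹ * z ^ (i * (n : ℤ)) = z ^ (i * (n : ℤ)) * (b ^ n)⁻¹ :=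
      (h5.inv_right.eq).symm
    have h8 : a ^ i = z ^ (i * (n : ℤ)) * ((b ^ n)⁻¹ * a ^ i) * b ^ n := by
      calc a ^ i = (b ^ n)⁻¹ * (z ^ (i * (n : ℤ)) * a ^ i * b ^ n) := h6
        _ = ((b ^ n)⁻¹ * z ^ (i * (n : ℤ))) * a ^ i * b ^ n := by group
        _ = _ := by rw [h7]; group
    have h9 : (z ^ (i * (n : ℤ)))⁻¹ = z ^ (i * -(n : ℤ)) := by
      rw [← zpow_neg]; ring_nf
    calc (b ^ n)⁻¹ * a ^ i = (z ^ (i * (n : ℤ)))⁻¹ *
          (z ^ (i * (n : ℤ)) * ((b ^ n)⁻¹ * a ^ i) * b ^ n) * (b ^ n)⁻¹ := by group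
      _ = z ^ (i * -(n : ℤ)) * a ^ i * (b ^ n)⁻¹ := by rw [← h8, h9]

lemma heis_mul (hza : z * a = a * z) (hzb : z * b = b * z) (hba : b * a = z * a * b)
    (i j k i' j' k' : ℤ) :
    (z ^ k * a ^ i * b ^ j) * (z ^ k' * a ^ i' * b ^ j') =
      z ^ (k + k' + i' * j) * a ^ (i + i') * b ^ (j + j') := by
  have hza' : Commute z a := hza
  have hzb' : Commute z b := hzb
  have h1 := heis_comm hza hzb hba i' j
  have h2 : b ^ j * z ^ k' = z ^ k' * b ^ j := ((hzb'.symm.zpow_left j).zpow_right k').eq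
  have h3 : a ^ i * z ^ k' = z ^ k' * a ^ i := ((hza'.symm.zpow_left i).zpow_right k').eq
  have h4 : a ^ i * z ^ (i' * j) = z ^ (i' * j) * a ^ i :=
    ((hza'.symm.zpow_left i).zpow_right _).eq
  calc (z ^ k * a ^ i * b ^ j) * (z ^ k' * a ^ i' * b ^ j') =
        z ^ k * a ^ i * (b ^ j * z ^ k') * a ^ i' * b ^ j' := by group
    _ = z ^ k * (a ^ i * z ^ k') * (b ^ j * a ^ i') * b ^ j' := by rw [h2]; group
    _ = z ^ k * z ^ k' * (a ^ i * z ^ (i' * j)) * a ^ i' * b ^ j * b ^ j' := by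
        rw [h3, h1]; group
    _ = z ^ k * z ^ k' * z ^ (i' * j) * a ^ i * a ^ i' * b ^ j * b ^ j' := by rw [h4]; group
    _ = z ^ (k + k' + i' * j) * a ^ (i + i') * b ^ (j + j') := by
        rw [zpow_add, zpow_add, zpow_add, zpow_add]; group

lemma heis_normal_form (hza : z * a = a * z) (hzb : z * b = b * z) (hba : b * a = z * a * b)
    {x : Q} (hx : x ∈ Subgroup.closure ({a, b, z} : Set Q)) :
    ∃ i j k : ℤ, x = z ^ k * a ^ i * b ^ j := by
  induction hx using Subgroup.closure_induction with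
  | mem y hy =>
    rcases hy with rfl | rfl | rfl
    · exact ⟨1, 0, 0, by simp⟩
    · exact ⟨0, 1, 0, by simp⟩
    · exact ⟨0, 0, 1, by simp⟩
  | one => exact ⟨0, 0, 0, by simp⟩
  | mul y y' _ _ hy hy' =>
    obtain ⟨i, j, k, rfl⟩ := hy
    obtain ⟨i', j', k', rfl⟩ := hy'
    exact ⟨_, _, _, heis_mul hza hzb hba i j k i' j' k'⟩
  | inv y _ hy =>
    obtain ⟨i, j, k, rfl⟩ := hy
    refine ⟨-i, -j, -k + i * j, ?_⟩
    rw [inv_eq_iff_mul_eq_one, heis_mul hza hzb hba]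
    have h1 : k + (-k + i * j) + -i * j = 0 := by ring
    rw [h1, add_neg_cancel, add_neg_cancel]
    simp

lemma dvd_of_zpow_eq_one {p : ℕ} (hp : p.Prime) (hz : z ^ p = 1) (hz1 : z ≠ 1) {k : ℤ}
    (h : z ^ k = 1) : (p : ℤ) ∣ k := by
  have hfact : Fact p.Prime := ⟨hp⟩
  have ho : orderOf z = p := orderOf_eq_prime hz hz1
  rw [← ho]
  exact orderOf_dvd_iff_zpow_eq_one.mpr h

lemma heis_indep {p : ℕ} (hp : p.Prime) (hz : z ^ p = 1) (hz1 : z ≠ 1)
    (hza : z * a = a * z) (hzb : z * b = b * z) (hba : b * a = z * a * b)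
    (ha : a ^ p = 1) (hb : b ^ p = 1) {i j k : ℤ} (h : z ^ k * a ^ i * b ^ j = 1) :
    (p : ℤ) ∣ i ∧ (p : ℤ) ∣ j ∧ (p : ℤ) ∣ k := by
  have hi : (p : ℤ) ∣ i := by
    have h1 := heis_mul hza hzb hba 0 1 0 i j k
    have h2 := heis_mul hza hzb hba i j k 0 1 0
    rw [h] at h1 h2
    have h3 : z ^ (0 + k + i * 1) * a ^ (0 + i) * b ^ (1 + j) =
        z ^ (k + 0 + 0 * j) * a ^ (i + 0) * b ^ (j + 1) := by
      rw [← h1, ← h2]; simp
    have h4 : z ^ (k + i) * a ^ i * b ^ (j + 1) = z ^ k * a ^ i * b ^ (j + 1) := by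
      have e1 : (0 : ℤ) + k + i * 1 = k + i := by ring
      have e2 : (1 : ℤ) + j = j + 1 := by ring
      have e3 : k + 0 + 0 * j = k := by ring
      rwa [e1, e2, e3, zero_add, add_zero] at h3
    have h5 := mul_right_cancel (mul_right_cancel h4)
    rw [zpow_add] at h5
    exact dvd_of_zpow_eq_one hp hz hz1 (mul_eq_left.mp h5)
  have hj : (p : ℤ) ∣ j := by
    have h1 := heis_mul hza hzb hba 1 0 0 i j k
    have h2 := heis_mul hza hzb hba i j k 1 0 0
    rw [h] at h1 h2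
    have h3 : z ^ (0 + k + i * 0) * a ^ (1 + i) * b ^ (0 + j) =
        z ^ (k + 0 + 1 * j) * a ^ (i + 1) * b ^ (j + 0) := by
      rw [← h1, ← h2]; simp
    have h4 : z ^ k * a ^ (i + 1) * b ^ j = z ^ (k + j) * a ^ (i + 1) * b ^ j := by
      have e1 : (0 : ℤ) + k + i * 0 = k := by ring
      have e2 : (1 : ℤ) + i = i + 1 := by ring
      have e3 : k + 0 + 1 * j = k + j := by ring
      rwa [e1, e2, e3, zero_add, add_zero] at h3
    have h5 := mul_right_cancel (mul_right_cancel h4)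
    rw [zpow_add] at h5
    exact dvd_of_zpow_eq_one hp hz hz1 (mul_eq_left.mp h5.symm)
  refine ⟨hi, hj, ?_⟩
  have h1 : ∀ x : Q, x ^ p = 1 → ∀ m : ℤ, (p : ℤ) ∣ m → x ^ m = 1 := by
    rintro x hx m ⟨n, rfl⟩
    rw [zpow_mul, zpow_natCast, hx, one_zpow]
  rw [h1 a ha i hi, h1 b hb j hj, mul_one, mul_one] at h
  exact dvd_of_zpow_eq_one hp hz hz1 h

end Heis

lemma IsHeis.proj_bij {p : ℕ} (hp : p.Prime) {Q Q' : Type} [Group Q] [Group Q']
    {a b z : Q} {a' b' z' : Q'}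
    (ha : a ^ p = 1) (hb : b ^ p = 1) (hz : z ^ p = 1) (hz1 : z ≠ 1)
    (hza : z * a = a * z) (hzb : z * b = b * z) (hba : b * a = z * a * b)
    (hcl : Subgroup.closure ({a, b, z} : Set Q) = ⊤)
    (ha' : a' ^ p = 1) (hb' : b' ^ p = 1) (hz' : z' ^ p = 1)
    (hza' : z' * a' = a' * z') (hzb' : z' * b' = b' * z') (hba' : b' * a' = z' * a' * b') :
    Function.Bijective ((MonoidHom.fst Q Q').comp
      (Subgroup.closure ({(a, a'), (b, b'), (z, z')} : Set (Q × Q'))).subtype) := by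
  constructor
  · rw [← MonoidHom.ker_eq_bot_iff, eq_bot_iff]
    rintro ⟨r, hr⟩ hk
    have hk' : r.1 = 1 := hk
    obtain ⟨i, j, k, rfl⟩ := heis_normal_form (Q := Q × Q') (a := (a, a')) (b := (b, b'))
      (z := (z, z')) (Prod.ext hza hza') (Prod.ext hzb hzb') (Prod.ext hba hba') hr
    have h1 : z ^ k * a ^ i * b ^ j = 1 := hk'
    obtain ⟨hi, hj, hk2⟩ := heis_indep hp hz hz1 hza hzb hba ha hb h1
    have h2 : ∀ x : Q', x ^ p = 1 → ∀ m : ℤ, (p : ℤ) ∣ m → x ^ m = 1 := by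
      rintro x hx m ⟨n, rfl⟩
      rw [zpow_mul, zpow_natCast, hx, one_zpow]
    rw [Subgroup.mem_bot]
    apply Subtype.ext
    apply Prod.ext
    · exact h1
    · show z' ^ k * a' ^ i * b' ^ j = 1
      rw [h2 _ hz' k hk2, h2 _ ha' i hi, h2 _ hb' j hj]
      simp
  · rw [← MonoidHom.range_eq_top, eq_top_iff, ← hcl, Subgroup.closure_le]
    rintro x (rfl | rfl | rfl)
    · exact ⟨⟨(x, a'), Subgroup.subset_closure (by simp)⟩, rfl⟩
    · exact ⟨⟨(x, b'), Subgroup.subset_closure (by simp)⟩, rfl⟩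
    · exact ⟨⟨(x, z'), Subgroup.subset_closure (by simp)⟩, rfl⟩

lemma IsHeis.nonempty_equiv {p : ℕ} (hp : p.Prime) {Q Q' : Type} [Group Q] [Group Q']
    (h : IsHeis p Q) (h' : IsHeis p Q') : Nonempty (Q ≃* Q') := by
  obtain ⟨a, b, z, ha, hb, hz, hz1, hza, hzb, hba, hcl⟩ := h
  obtain ⟨a', b', z', ha', hb', hz', hz1', hza', hzb', hba', hcl'⟩ := h'
  have h1 := IsHeis.proj_bij hp ha hb hz hz1 hza hzb hba hcl ha' hb' hz' hza' hzb' hba'
  have h2 := IsHeis.proj_bij hp ha' hb' hz' hz1' hza' hzb' hba' hcl' ha hb hz hza hzb hba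
  let R := Subgroup.closure ({(a, a'), (b, b'), (z, z')} : Set (Q × Q'))
  let R' := Subgroup.closure ({(a', a), (b', b), (z', z)} : Set (Q' × Q))
  have e : R.map (MulEquiv.prodComm : Q × Q' ≃* Q' × Q).toMonoidHom = R' := by
    rw [MonoidHom.map_closure]
    congr 1
    simp [Set.image_insert_eq]
  let e1 : R ≃* Q := MulEquiv.ofBijective _ h1
  let e2 : R' ≃* Q' := MulEquiv.ofBijective _ h2
  let e3 : R ≃* R.map (MulEquiv.prodComm : Q × Q' ≃* Q' × Q).toMonoidHom :=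
    R.equivMapOfInjective _ (MulEquiv.prodComm : Q × Q' ≃* Q' × Q).injective
  let e4 : R.map (MulEquiv.prodComm : Q × Q' ≃* Q' × Q).toMonoidHom ≃* R' :=
    MulEquiv.subgroupCongr e
  exact ⟨e1.symm.trans (e3.trans (e4.trans e2))⟩

end Pool.Agent.H35
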