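import Pool.Agent.H35.FmHeis

set_option autoImplicit false

namespace Pool.Agent.H35

open SemidirectProduct

lemma class_two_pow {Q : Type*} [Group Q] {a b z : Q} (hza : z * a = a * z) (hzb : z * b = b * z)
    (hba : b * a = z * a * b) (n : ℕ) :
    (a * b) ^ n = z ^ (n.choose 2) * a ^ n * b ^ n := by
  induction n with
  | zero => simp
  | succ n ih =>
    have h1 := heis_comm hza hzb hba 1 n
    rw [zpow_natCast, zpow_one, one_mul, zpow_natCast] at h1
    have hza' : Commute z a := hza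
    have h2 : a ^ n * z ^ n = z ^ n * a ^ n := ((hza'.symm.pow_left n).pow_right n).eq
    calc (a * b) ^ (n + 1) = z ^ (n.choose 2) * a ^ n * b ^ n * (a * b) := by rw [pow_succ, ih]
      _ = z ^ (n.choose 2) * a ^ n * (b ^ n * a) * b := by group
      _ = z ^ (n.choose 2) * (a ^ n * z ^ n) * a * b ^ n * b := by rw [h1]; group
      _ = z ^ (n.choose 2) * z ^ n * (a ^ n * a) * (b ^ n * b) := by rw [h2]; group
      _ = z ^ ((n + 1).choose 2) * a ^ (n + 1) * b ^ (n + 1) := by
          rw [← pow_add, ← pow_succ, ← pow_succ]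
          congr 3
          rw [Nat.choose_succ_succ' n 1, Nat.choose_one_right, add_comm]

lemma class_two_pow_prime {Q : Type*} [Group Q] {a b z : Q} {p : ℕ} (hp : p.Prime) (hp2 : p ≠ 2)
    (hza : z * a = a * z) (hzb : z * b = b * z)
    (hba : b * a = z * a * b) (hz : z ^ p = 1) :
    (a * b) ^ p = a ^ p * b ^ p := by
  rw [class_two_pow hza hzb hba]
  have h1 : p ∣ p.choose 2 := hp.dvd_choose_self (by norm_num)
    (lt_of_le_of_ne hp.two_le (Ne.symm hp2))
  obtain ⟨m, hm⟩ := h1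
  rw [hm, pow_mul, hz, one_pow, one_mul]

theorem cyc_or_heis (d x : Fm) {p : ℕ} (hp : p.Prime) (hdp : d ≤ Ep p) {G : Type} [Group G]
    (hxG : x.1 G) (hdG : ¬ d.1 G)
    (hquo : ∀ (N : Subgroup G) [N.Normal], N ≠ ⊥ → d.1 (G ⧸ N)) (T : Subgroup G) [hTn : T.Normal]
    (hT : T ≠ ⊥) (hBK : d.1 (BK T)) :
    (IsCyclic G ∧ Nat.card G = p ^ 2) ∨ (∃ (Q : Type) (_ : Group Q), x.1 Q ∧ IsHeis p Q) := by
  have hmono : ∀ (N₁ N₂ : Subgroup G) [N₁.Normal] [N₂.Normal], N₁ ≠ ⊥ → N₂ ≠ ⊥ → N₁ ⊓ N₂ ≠ ⊥ :=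
    fun N₁ N₂ _ _ h1 h2 h => hdG (d.2.res G N₁ N₂ h (hquo N₁ h1) (hquo N₂ h2))
  obtain ⟨_, hBc, hBp⟩ := hdp _ hBK
  have hTcen : ∀ g : G, ∀ t ∈ T, g * t * g⁻¹ = t := by
    intro g t ht
    have h1 := hBc (inr ⟨MulAut.conjNormal g, ⟨g, rfl⟩⟩) (inl ⟨t, ht⟩)
    have h2 := congrArg (fun y : BK T => ((y.left : T) : G)) h1
    simpa using h2
  have hTcen' : ∀ g : G, ∀ t ∈ T, t * g = g * t := by
    intro g t ht
    have := hTcen g t ht
    rw [mul_inv_eq_iff_eq_mul] at this
    exact this.symm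
  have hTp : ∀ t ∈ T, t ^ p = 1 := by
    intro t ht
    have h1 := hBp (inl ⟨t, ht⟩)
    rw [← map_pow] at h1
    have h2 := inl_injective (h1.trans (map_one inl).symm)
    exact congrArg Subtype.val h2
  have hznorm : ∀ c : G, (∀ g : G, g * c * g⁻¹ = c) → (Subgroup.zpowers c).Normal := by
    intro c hc
    constructor
    intro n hn g
    obtain ⟨k, rfl⟩ := Subgroup.mem_zpowers_iff.mp hn
    rw [← conj_zpow, hc]
    exact hn
  have hTz : ∀ t ∈ T, t ≠ 1 → ∀ u ∈ T, u ∈ Subgroup.zpowers t := by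
    intro t ht ht1 u hu
    by_cases hu1 : u = 1
    · rw [hu1]; exact Subgroup.one_mem _
    have n1 := hznorm t (fun g => hTcen g t ht)
    have n2 := hznorm u (fun g => hTcen g u hu)
    have h1 : Subgroup.zpowers t ≠ ⊥ := by simpa using ht1
    have h2 : Subgroup.zpowers u ≠ ⊥ := by simpa using hu1
    obtain ⟨⟨w, hw⟩, hw1⟩ := (Subgroup.ne_bot_iff_exists_ne_one).mp (hmono _ _ h1 h2)
    have hw1' : w ≠ 1 := fun h => hw1 (Subtype.ext h)
    have h3 := mem_zpowers_of_prime hp (hTp u hu) hw.2 hw1'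
    exact (Subgroup.zpowers_le.mpr hw.1) h3
  obtain ⟨⟨s, hs⟩, hs1⟩ := (Subgroup.ne_bot_iff_exists_ne_one).mp hT
  have hs1' : s ≠ 1 := fun h => hs1 (Subtype.ext h)
  obtain ⟨_, hQc, hQp⟩ := hdp _ (hquo T hT)
  have hcomT : ∀ a b : G, a * b * a⁻¹ * b⁻¹ ∈ T := by
    intro a b
    rw [← QuotientGroup.eq_one_iff]
    have := hQc (a : G ⧸ T) (b : G ⧸ T)
    show (a : G ⧸ T) * (b : G ⧸ T) * (a : G ⧸ T)⁻¹ * (b : G ⧸ T)⁻¹ = 1
    rw [this]; group
  have hpowT : ∀ a : G, a ^ p ∈ T := by
    intro a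
    rw [← QuotientGroup.eq_one_iff]
    exact hQp (a : G ⧸ T)
  by_cases hG : ∀ a b : G, a * b = b * a
  · -- the commutative case
    left
    have hcen : ∀ c g : G, g * c * g⁻¹ = c := by
      intro c g
      rw [hG g c]; group
    have hin : ∀ u : G, u ^ p = 1 → u ∈ Subgroup.zpowers s := by
      intro u hup
      by_cases hu1 : u = 1
      · rw [hu1]; exact Subgroup.one_mem _
      have n1 := hznorm s (hcen s)
      have n2 := hznorm u (hcen u)
      have h1 : Subgroup.zpowers s ≠ ⊥ := by simpa using hs1'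
      have h2 : Subgroup.zpowers u ≠ ⊥ := by simpa using hu1
      obtain ⟨⟨w, hw⟩, hw1⟩ := (Subgroup.ne_bot_iff_exists_ne_one).mp (hmono _ _ h1 h2)
      have hw1' : w ≠ 1 := fun h => hw1 (Subtype.ext h)
      have h3 := mem_zpowers_of_prime hp hup hw.2 hw1'
      exact (Subgroup.zpowers_le.mpr hw.1) h3
    have hzT : Subgroup.zpowers s ≤ T := Subgroup.zpowers_le.mpr hs
    have hex : ∃ g : G, g ^ p ≠ 1 := by
      by_contra hcon
      push Not at hcon
      have htop : ∀ g : G, g ∈ T := fun g => hzT (hin g (hcon g))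
      apply hdG
      refine d.2.quo (BK T) G (SemidirectProduct.lift T.subtype 1 ?_) ?_ hBK
      · rintro ⟨γ, g, rfl⟩
        ext t
        show ((MulAut.conjNormal g t : T) : G) = _
        rw [MulAut.conjNormal_apply, hTcen g t t.2]
        simp
      · intro g
        exact ⟨inl ⟨g, htop g⟩, SemidirectProduct.lift_inl _ _ _ _⟩
    obtain ⟨g, hg⟩ := hex
    have hgen : ∀ h : G, h ∈ Subgroup.zpowers g := by
      intro h
      have h1 : h ^ p ∈ Subgroup.zpowers (g ^ p) := hTz _ (hpowT g) hg _ (hpowT h)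
      obtain ⟨k, hk⟩ := Subgroup.mem_zpowers_iff.mp h1
      have h2 : (h * (g ^ k)⁻¹) ^ p = 1 := by
        have hc : Commute h (g ^ k)⁻¹ := hG _ _
        rw [hc.mul_pow, ← hk, inv_pow, ← zpow_natCast (g ^ k), ← zpow_mul, ← zpow_natCast g,
          ← zpow_mul, mul_comm k, mul_inv_cancel]
      have h3 := hin _ h2
      have h4 : s ∈ Subgroup.zpowers (g ^ p) := hTz _ (hpowT g) hg _ hs
      have h5 : Subgroup.zpowers s ≤ Subgroup.zpowers g :=
        Subgroup.zpowers_le.mpr ((Subgroup.zpowers_le.mpr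
          (Subgroup.pow_mem _ (Subgroup.mem_zpowers g) p)) h4)
      have h6 := (Subgroup.zpowers g).mul_mem (h5 h3)
        (Subgroup.zpow_mem _ (Subgroup.mem_zpowers g) k)
      rwa [inv_mul_cancel_right] at h6
    have hfact : Fact p.Prime := ⟨hp⟩
    have hord : orderOf g = p ^ 2 := by
      apply orderOf_eq_prime_pow (n := 1)
      · rwa [pow_one]
      · rw [show p ^ (1 + 1) = p * p by ring, pow_mul]
        exact hTp _ (hpowT g)
    exact ⟨⟨g, hgen⟩, by rw [← hord, orderOf_eq_card_of_forall_mem_zpowers hgen]⟩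
  · right
    push Not at hG
    -- choose `a`, `b`
    obtain ⟨a, b, hab, hap⟩ : ∃ a b : G, b * a ≠ a * b ∧ (a ^ p = 1 ∨ p = 2) := by
      obtain ⟨b₀, a₀, hne⟩ := hG
      by_cases hp2 : p = 2
      · exact ⟨a₀, b₀, hne, Or.inr hp2⟩
      by_cases ha₀ : a₀ ^ p = 1
      · exact ⟨a₀, b₀, hne, Or.inl ha₀⟩
      have h1 : b₀ ^ p ∈ Subgroup.zpowers (a₀ ^ p) := hTz _ (hpowT a₀) ha₀ _ (hpowT b₀)
      obtain ⟨k, hk⟩ := Subgroup.mem_zpowers_iff.mp h1
      refine ⟨b₀ * (a₀ ^ k)⁻¹, a₀, ?_, Or.inl ?_⟩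
      · intro h
        apply hne
        have h2 : a₀ * b₀ * (a₀ ^ k)⁻¹ = b₀ * a₀ * (a₀ ^ k)⁻¹ := by
          calc a₀ * b₀ * (a₀ ^ k)⁻¹ = a₀ * (b₀ * (a₀ ^ k)⁻¹) := by group
            _ = b₀ * (a₀ ^ k)⁻¹ * a₀ := h
            _ = b₀ * a₀ * (a₀ ^ k)⁻¹ := by group
        exact (mul_right_cancel h2).symm
      · set c : G := (a₀ ^ k)⁻¹ with hc
        have hzT : c * b₀ * c⁻¹ * b₀⁻¹ ∈ T := hcomT _ _
        have h3 := class_two_pow_prime (a := b₀) (b := c) (z := c * b₀ * c⁻¹ * b₀⁻¹) hp hp2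
          (hTcen' _ _ hzT) (hTcen' _ _ hzT) (by group) (hTp _ hzT)
        rw [h3, hc, ← hk, inv_pow, ← zpow_natCast (a₀ ^ k), ← zpow_mul, ← zpow_natCast a₀,
          ← zpow_mul, mul_comm k, mul_inv_cancel]
    let z : G := b * a * b⁻¹ * a⁻¹
    have hz : z ∈ T := hcomT b a
    have hz1 : z ≠ 1 := by
      intro h
      apply hab
      have h' : b * a * b⁻¹ * a⁻¹ = 1 := h
      rwa [mul_inv_eq_one, mul_inv_eq_iff_eq_mul] at h'
    have hza : z * a = a * z := hTcen' _ _ hz
    have hzb : z * b = b * z := hTcen' _ _ hz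
    have hba : b * a = z * a * b := by
      show b * a = b * a * b⁻¹ * a⁻¹ * a * b
      group
    let A : Subgroup G := Subgroup.zpowers a ⊔ T
    have hTA : T ≤ A := le_sup_right
    have haA : a ∈ A := (le_sup_left : Subgroup.zpowers a ≤ A) (Subgroup.mem_zpowers a)
    have hzA : z ∈ A := hTA hz
    have hAn : A.Normal := by
      constructor
      intro n hn g
      have h1 := A.mul_mem (hTA (hcomT g n)) hn
      rwa [inv_mul_cancel_right] at h1
    have hAmem : ∀ m ∈ A, ∃ i k : ℤ, m = a ^ i * z ^ k := by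
      intro m hm
      obtain ⟨u, hu, t, ht, rfl⟩ := Subgroup.mem_sup_of_normal_right.mp hm
      obtain ⟨i, rfl⟩ := Subgroup.mem_zpowers_iff.mp hu
      obtain ⟨k, rfl⟩ := Subgroup.mem_zpowers_iff.mp (hTz z hz hz1 t ht)
      exact ⟨i, k, rfl⟩
    let β : ActRange A := ⟨MulAut.conjNormal b, ⟨b, rfl⟩⟩
    have hconj : ∀ (g : G) (k : ℤ), g * a * g⁻¹ = z ^ k * a →
        (MulAut.conjNormal g : MulAut A) = (MulAut.conjNormal b : MulAut A) ^ k := by
      intro g k hk
      rw [← map_zpow]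
      ext m
      rw [MulAut.conjNormal_apply, MulAut.conjNormal_apply]
      obtain ⟨i, l, hm⟩ := hAmem m m.2
      rw [hm]
      have e1 : ∀ g : G, g * (a ^ i * z ^ l) * g⁻¹ = (g * a * g⁻¹) ^ i * z ^ l := by
        intro g
        have h1 : g * z ^ l * g⁻¹ = z ^ l := hTcen g _ (T.zpow_mem hz l)
        calc g * (a ^ i * z ^ l) * g⁻¹ = (g * a ^ i * g⁻¹) * (g * z ^ l * g⁻¹) := by group
          _ = (g * a * g⁻¹) ^ i * z ^ l := by rw [h1, conj_zpow]
      have e2 : b ^ k * a * (b ^ k)⁻¹ = z ^ k * a := by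
        have := heis_comm hza hzb hba 1 k
        rw [zpow_one, one_mul] at this
        rw [this]; group
      rw [e1, e1, hk, e2]
    have hγ : ∀ γ : ActRange A, ∃ k : ℤ, γ = β ^ k := by
      rintro ⟨γ, g, rfl⟩
      obtain ⟨k, hk⟩ := Subgroup.mem_zpowers_iff.mp (hTz z hz hz1 _ (hcomT g a))
      refine ⟨k, ?_⟩
      apply Subtype.ext
      show MulAut.conjNormal g = _
      rw [hconj g k (by rw [hk]; group)]
      rfl
    have hβp : β ^ p = 1 := by
      apply Subtype.ext
      show (MulAut.conjNormal b : MulAut A) ^ p = 1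
      rw [← map_pow]
      ext m
      rw [MulAut.conjNormal_apply]
      have := hTcen' (m : G) _ (hpowT b)
      rw [this]
      simp
    let a' : BK A := inl ⟨a, haA⟩
    let z' : BK A := inl ⟨z, hzA⟩
    let b' : BK A := inr β
    have hxB : x.1 (BK A) := by
      refine bk_mem x.2 (MonoidHom.id G) Function.surjective_id (MonoidHom.id G)
        Function.surjective_id A A (fun t ht => ⟨t, ht, rfl⟩) (fun m hm => hm)
        (fun m _ hm => hm) ?_ hxG
      intro n hn t _
      have : n = 1 := hn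
      subst this
      simp
    have hz'p : z' ^ p = 1 := by
      show (inl ⟨z, hzA⟩ : BK A) ^ p = 1
      rw [← map_pow]
      have : (⟨z, hzA⟩ : A) ^ p = 1 := Subtype.ext (hTp z hz)
      rw [this, map_one]
    have hz'1 : z' ≠ 1 := by
      intro h
      have h1 := inl_injective (h.trans (map_one inl).symm)
      exact hz1 (congrArg Subtype.val h1)
    have hz'a : z' * a' = a' * z' := by
      show (inl ⟨z, hzA⟩ : BK A) * inl ⟨a, haA⟩ = inl ⟨a, haA⟩ * inl ⟨z, hzA⟩
      rw [← map_mul, ← map_mul]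
      congr 1
      exact Subtype.ext hza
    have haut : ∀ m : A, b' * inl m = inl ((MulAut.conjNormal b : MulAut A) m) * b' := by
      intro m
      have := inl_aut (φ := (ActRange A).subtype) β m
      have h2 : (inl ((MulAut.conjNormal b : MulAut A) m) : BK A) = inr β * inl m * inr β⁻¹ := this
      rw [h2, map_inv]
      show inr β * inl m = inr β * inl m * (inr β)⁻¹ * inr β
      group
    have hz'b : z' * b' = b' * z' := by
      rw [haut]
      have : (MulAut.conjNormal b : MulAut A) ⟨z, hzA⟩ = ⟨z, hzA⟩ :=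
        Subtype.ext (hTcen b z hz)
      rw [this]
    have hb'a : b' * a' = z' * a' * b' := by
      rw [haut]
      congr 1
      show _ = (inl ⟨z, hzA⟩ : BK A) * inl ⟨a, haA⟩
      rw [← map_mul]
      congr 1
      apply Subtype.ext
      show b * a * b⁻¹ = z * a
      rw [hba]; group
    have hb'p : b' ^ p = 1 := by
      show (inr β : BK A) ^ p = 1
      rw [← map_pow, hβp, map_one]
    have hcl : Subgroup.closure ({a', b', z'} : Set (BK A)) = ⊤ := by
      rw [eq_top_iff]
      intro y _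
      have hm1 : a' ∈ Subgroup.closure ({a', b', z'} : Set (BK A)) :=
        Subgroup.subset_closure (by simp)
      have hm2 : b' ∈ Subgroup.closure ({a', b', z'} : Set (BK A)) :=
        Subgroup.subset_closure (by simp)
      have hm3 : z' ∈ Subgroup.closure ({a', b', z'} : Set (BK A)) :=
        Subgroup.subset_closure (by simp)
      rw [← inl_left_mul_inr_right y]
      refine Subgroup.mul_mem _ ?_ ?_
      · obtain ⟨i, k, hik⟩ := hAmem y.left y.left.2
        have : y.left = (⟨a, haA⟩ : A) ^ i * (⟨z, hzA⟩ : A) ^ k := Subtype.ext (by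
          rw [hik]; rfl)
        rw [this, map_mul, map_zpow, map_zpow]
        exact Subgroup.mul_mem _ (Subgroup.zpow_mem _ hm1 i) (Subgroup.zpow_mem _ hm3 k)
      · obtain ⟨k, hk⟩ := hγ y.right
        rw [hk, map_zpow]
        exact Subgroup.zpow_mem _ hm2 k
    refine ⟨BK A, inferInstance, hxB, ?_⟩
    by_cases hap1 : a ^ p = 1
    · refine ⟨a', b', z', ?_, hb'p, hz'p, hz'1, hz'a, hz'b, hb'a, hcl⟩
      show (inl ⟨a, haA⟩ : BK A) ^ p = 1
      rw [← map_pow]
      have : (⟨a, haA⟩ : A) ^ p = 1 := Subtype.ext hap1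
      rw [this, map_one]
    · have hp2 : p = 2 := hap.resolve_left hap1
      subst hp2
      have haz : a ^ 2 = z := by
        obtain ⟨k, hk⟩ := Subgroup.mem_zpowers_iff.mp (hTz z hz hz1 _ (hpowT a))
        have hz2 := hTp z hz
        rcases Int.even_or_odd' k with ⟨m, rfl | rfl⟩
        · exfalso
          apply hap1
          rw [← hk, zpow_mul]
          rw [show z ^ (2 : ℤ) = 1 from by exact_mod_cast hz2, one_zpow]
        · rw [← hk, zpow_add, zpow_mul, zpow_one,
            show z ^ (2 : ℤ) = 1 from by exact_mod_cast hz2, one_zpow, one_mul]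
      have ha'z : a' ^ 2 = z' := by
        show (inl ⟨a, haA⟩ : BK A) ^ 2 = inl ⟨z, hzA⟩
        rw [← map_pow]
        congr 1
        exact Subtype.ext haz
      refine ⟨a' * b', b', z', ?_, hb'p, hz'p, hz'1, ?_, hz'b, ?_, ?_⟩
      · rw [class_two_pow hz'a hz'b hb'a, ha'z, hb'p]
        simpa [pow_two] using hz'p
      · calc z' * (a' * b') = (z' * a') * b' := by group
          _ = a' * (z' * b') := by rw [hz'a]; group
          _ = a' * b' * z' := by rw [hz'b]; group
      · calc b' * (a' * b') = (b' * a') * b' := by group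
          _ = z' * (a' * b') * b' := by rw [hb'a]; group
      · rw [eq_top_iff, ← hcl, Subgroup.closure_le]
        have hm1 : a' * b' ∈ Subgroup.closure ({a' * b', b', z'} : Set (BK A)) :=
          Subgroup.subset_closure (by simp)
        have hm2 : b' ∈ Subgroup.closure ({a' * b', b', z'} : Set (BK A)) :=
          Subgroup.subset_closure (by simp)
        have hm3 : z' ∈ Subgroup.closure ({a' * b', b', z'} : Set (BK A)) :=
          Subgroup.subset_closure (by simp)
        rintro y (rfl | rfl | rfl)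
        · have := Subgroup.mul_mem _ hm1 (Subgroup.inv_mem _ hm2)
          rwa [mul_inv_cancel_right] at this
        · exact hm2
        · exact hm3

end Pool.Agent.H35
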