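import Mathlib

set_option autoImplicit false

/-!
Formations of finite groups: the lattice of formations is modular.
-/

namespace Pool.Agent.H35

/-- Classes of groups. -/
abbrev Cls : Type 1 := ∀ (G : Type) [Group G], Prop

/-- Formations of finite groups. -/
structure IsFm (X : Cls) : Prop where
  fin : ∀ (G : Type) [Group G], X G → Finite G
  quo : ∀ (G H : Type) [Group G] [Group H] (f : G →* H), Function.Surjective f → X G → X H
  res : ∀ (G : Type) [Group G] (N₁ N₂ : Subgroup G) [N₁.Normal] [N₂.Normal],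
    N₁ ⊓ N₂ = ⊥ → X (G ⧸ N₁) → X (G ⧸ N₂) → X G

lemma IsFm.iso {X : Cls} (hX : IsFm X) {G H : Type} [Group G] [Group H] (e : G ≃* H)
    (h : X G) : X H := hX.quo G H e.toMonoidHom e.surjective h

/-- The working form of closure under subdirect products and quotients. -/
lemma IsFm.resq {X : Cls} (hX : IsFm X) {Y G₁ G₂ G₃ : Type} [Group Y] [Group G₁] [Group G₂]
    [Group G₃] (f₁ : Y →* G₁) (f₂ : Y →* G₂) (f₃ : Y →* G₃) (h₁ : Function.Surjective f₁)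
    (h₂ : Function.Surjective f₂) (h₃ : Function.Surjective f₃)
    (hk : f₁.ker ⊓ f₂.ker ≤ f₃.ker) (x₁ : X G₁) (x₂ : X G₂) : X G₃ := by
  let K : Subgroup Y := f₁.ker ⊓ f₂.ker
  have hK : K.Normal := Subgroup.normal_inf_normal _ _
  have k₁ : K ≤ f₁.ker := inf_le_left
  have k₂ : K ≤ f₂.ker := inf_le_right
  let g₁ : Y ⧸ K →* G₁ := QuotientGroup.lift K f₁ k₁
  let g₂ : Y ⧸ K →* G₂ := QuotientGroup.lift K f₂ k₂
  let g₃ : Y ⧸ K →* G₃ := QuotientGroup.lift K f₃ hk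
  have s₁ : Function.Surjective g₁ := fun x => by
    obtain ⟨y, rfl⟩ := h₁ x
    exact ⟨QuotientGroup.mk y, rfl⟩
  have s₂ : Function.Surjective g₂ := fun x => by
    obtain ⟨y, rfl⟩ := h₂ x
    exact ⟨QuotientGroup.mk y, rfl⟩
  have s₃ : Function.Surjective g₃ := fun x => by
    obtain ⟨y, rfl⟩ := h₃ x
    exact ⟨QuotientGroup.mk y, rfl⟩
  have hQ : X (Y ⧸ K) := by
    refine hX.res (Y ⧸ K) g₁.ker g₂.ker ?_ ?_ ?_
    · rw [eq_bot_iff]
      intro q hq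
      obtain ⟨y, rfl⟩ := QuotientGroup.mk'_surjective K q
      have h1 : f₁ y = 1 := hq.1
      have h2 : f₂ y = 1 := hq.2
      rw [Subgroup.mem_bot, QuotientGroup.mk'_apply, QuotientGroup.eq_one_iff]
      exact ⟨h1, h2⟩
    · exact hX.iso (QuotientGroup.quotientKerEquivOfSurjective g₁ s₁).symm x₁
    · exact hX.iso (QuotientGroup.quotientKerEquivOfSurjective g₂ s₂).symm x₂
  exact hX.quo _ _ g₃ s₃ hQ

lemma IsFm.triv {X : Cls} (hX : IsFm X) {G : Type} [Group G] (h : X G) : X PUnit :=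
  hX.quo G PUnit 1 (fun _ => ⟨1, rfl⟩) h

/-- The type of formations. -/
def Fm : Type 1 := {X : Cls // IsFm X}

instance : PartialOrder Fm where
  le X Y := ∀ (G : Type) [Group G], X.1 G → Y.1 G
  le_refl X G _ h := h
  le_trans X Y Z h₁ h₂ G _ h := h₂ G (h₁ G h)
  le_antisymm X Y h₁ h₂ := Subtype.ext (by
    funext G inst
    exact propext ⟨h₁ G, h₂ G⟩)

lemma Fm.le_def {X Y : Fm} : X ≤ Y ↔ ∀ (G : Type) [Group G], X.1 G → Y.1 G := Iff.rfl

/-- The formation of all finite groups. -/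
def allFm : Fm := ⟨fun G _ => Finite G, by
  refine ⟨fun G _ h => h, ?_, ?_⟩
  · intro G H _ _ f hf h
    exact Finite.of_surjective f hf
  · intro G _ N₁ N₂ _ _ h h₁ h₂
    have : Function.Injective (fun g : G => ((g : G ⧸ N₁), (g : G ⧸ N₂))) := by
      intro a b hab
      have h3 := congrArg Prod.fst hab
      have h4 := congrArg Prod.snd hab
      simp only at h3 h4
      rw [QuotientGroup.eq] at h3 h4
      have h5 : a⁻¹ * b ∈ N₁ ⊓ N₂ := ⟨h3, h4⟩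
      rw [h, Subgroup.mem_bot] at h5
      exact inv_mul_eq_one.mp h5
    exact Finite.of_injective _ this⟩

instance : Lattice Fm where
  inf X Y := ⟨fun G _ => X.1 G ∧ Y.1 G, by
    refine ⟨fun G _ h => X.2.fin G h.1, ?_, ?_⟩
    · intro G H _ _ f hf h
      exact ⟨X.2.quo G H f hf h.1, Y.2.quo G H f hf h.2⟩
    · intro G _ N₁ N₂ _ _ h h₁ h₂
      exact ⟨X.2.res G N₁ N₂ h h₁.1 h₂.1, Y.2.res G N₁ N₂ h h₁.2 h₂.2⟩⟩
  inf_le_left X Y G _ h := h.1
  inf_le_right X Y G _ h := h.2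
  le_inf X Y Z h₁ h₂ G _ h := ⟨h₁ G h, h₂ G h⟩
  sup X Y := ⟨fun G _ => ∀ K : Fm, X ≤ K → Y ≤ K → K.1 G, by
    refine ⟨fun G _ h => ?_, ?_, ?_⟩
    · exact h allFm (fun H _ hH => X.2.fin H hH) (fun H _ hH => Y.2.fin H hH)
    · intro G H _ _ f hf h K hX hY
      exact K.2.quo G H f hf (h K hX hY)
    · intro G _ N₁ N₂ _ _ h h₁ h₂ K hX hY
      exact K.2.res G N₁ N₂ h (h₁ K hX hY) (h₂ K hX hY)⟩
  le_sup_left X Y G _ h := fun K hX _ => hX G h
  le_sup_right X Y G _ h := fun K _ hY => hY G h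
  sup_le X Y Z h₁ h₂ G _ h := h Z h₁ h₂

lemma Fm.mem_inf {X Y : Fm} {G : Type} [Group G] : (X ⊓ Y).1 G ↔ X.1 G ∧ Y.1 G := Iff.rfl

lemma Fm.mem_sup {X Y : Fm} {G : Type} [Group G] :
    (X ⊔ Y).1 G ↔ ∀ K : Fm, X ≤ K → Y ≤ K → K.1 G := Iff.rfl

/-- The explicit join. -/
def joinCls (X Y : Cls) : Cls := fun G _ =>
  ∃ (W G₁ G₂ : Type) (_ : Group W) (_ : Group G₁) (_ : Group G₂)
    (f₁ : W →* G₁) (f₂ : W →* G₂) (f : W →* G),
    Function.Surjective f₁ ∧ Function.Surjective f₂ ∧ Function.Surjective f ∧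
    X G₁ ∧ Y G₂ ∧ f₁.ker ⊓ f₂.ker ≤ f.ker

/-- Subdirect subgroups of a product lie in the formation. -/
lemma IsFm.subdirect {X : Cls} (hX : IsFm X) {Y G₁ G₂ : Type} [Group Y] [Group G₁] [Group G₂]
    (f₁ : Y →* G₁) (f₂ : Y →* G₂) (h₁ : Function.Surjective f₁)
    (h₂ : Function.Surjective f₂) (x₁ : X G₁) (x₂ : X G₂) : X (f₁.prod f₂).range := by
  refine hX.resq f₁ f₂ (f₁.prod f₂).rangeRestrict h₁ h₂ (MonoidHom.rangeRestrict_surjective _)
    ?_ x₁ x₂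
  rw [MonoidHom.ker_rangeRestrict, MonoidHom.ker_prod]

lemma isFm_join {X Y : Cls} (hX : IsFm X) (hY : IsFm Y) : IsFm (joinCls X Y) := by
  refine ⟨?_, ?_, ?_⟩
  · rintro G _ ⟨W, G₁, G₂, _, _, _, f₁, f₂, f, h₁, h₂, h, x₁, x₂, hk⟩
    exact allFm.2.resq f₁ f₂ f h₁ h₂ h hk (hX.fin _ x₁) (hY.fin _ x₂)
  · rintro G H _ _ g hg ⟨W, G₁, G₂, _, _, _, f₁, f₂, f, h₁, h₂, h, x₁, x₂, hk⟩
    refine ⟨W, G₁, G₂, inferInstance, inferInstance, inferInstance, f₁, f₂, g.comp f, h₁, h₂,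
      hg.comp h, x₁, x₂, hk.trans ?_⟩
    intro w hw
    rw [MonoidHom.mem_ker] at hw ⊢
    rw [MonoidHom.comp_apply, hw, map_one]
  · rintro G _ N₁ N₂ _ _ hN ⟨W, G₁, G₂, _, _, _, f₁, f₂, f, h₁, h₂, h, x₁, x₂, hk⟩
      ⟨W', G₁', G₂', _, _, _, f₁', f₂', f', h₁', h₂', h', x₁', x₂', hk'⟩
    -- the pullback
    let F : (W × W') × G →* (G ⧸ N₁) × (G ⧸ N₂) :=
      (f.comp ((MonoidHom.fst W W').comp (MonoidHom.fst _ _))).prod
        (f'.comp ((MonoidHom.snd W W').comp (MonoidHom.fst _ _)))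
    let F' : (W × W') × G →* (G ⧸ N₁) × (G ⧸ N₂) :=
      ((QuotientGroup.mk' N₁).comp (MonoidHom.snd _ _)).prod
        ((QuotientGroup.mk' N₂).comp (MonoidHom.snd _ _))
    let Y : Subgroup ((W × W') × G) := F.eqLocus F'
    have memY : ∀ (w : W) (w' : W') (g : G), ((w, w'), g) ∈ Y ↔
        f w = QuotientGroup.mk' N₁ g ∧ f' w' = QuotientGroup.mk' N₂ g := by
      intro w w' g
      constructor
      · intro hy
        have h1 : F ((w, w'), g) = F' ((w, w'), g) := hy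
        exact ⟨congrArg Prod.fst h1, congrArg Prod.snd h1⟩
      · rintro ⟨h1, h2⟩
        exact Prod.ext h1 h2
    let p₁ : Y →* G₁ := f₁.comp ((MonoidHom.fst W W').comp ((MonoidHom.fst _ _).comp Y.subtype))
    let p₁' : Y →* G₁' :=
      f₁'.comp ((MonoidHom.snd W W').comp ((MonoidHom.fst _ _).comp Y.subtype))
    let p₂ : Y →* G₂ := f₂.comp ((MonoidHom.fst W W').comp ((MonoidHom.fst _ _).comp Y.subtype))
    let p₂' : Y →* G₂' :=
      f₂'.comp ((MonoidHom.snd W W').comp ((MonoidHom.fst _ _).comp Y.subtype))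
    let q : Y →* G := (MonoidHom.snd _ _).comp Y.subtype
    have sW : ∀ w : W, ∃ y : Y, y.1.1.1 = w := by
      intro w
      obtain ⟨g, hg⟩ := QuotientGroup.mk'_surjective N₁ (f w)
      obtain ⟨w', hw'⟩ := h' (QuotientGroup.mk' N₂ g)
      exact ⟨⟨((w, w'), g), (memY _ _ _).mpr ⟨hg.symm, hw'⟩⟩, rfl⟩
    have sW' : ∀ w' : W', ∃ y : Y, y.1.1.2 = w' := by
      intro w'
      obtain ⟨g, hg⟩ := QuotientGroup.mk'_surjective N₂ (f' w')
      obtain ⟨w, hw⟩ := h (QuotientGroup.mk' N₁ g)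
      exact ⟨⟨((w, w'), g), (memY _ _ _).mpr ⟨hw, hg.symm⟩⟩, rfl⟩
    have sG : Function.Surjective q := by
      intro g
      obtain ⟨w, hw⟩ := h (QuotientGroup.mk' N₁ g)
      obtain ⟨w', hw'⟩ := h' (QuotientGroup.mk' N₂ g)
      exact ⟨⟨((w, w'), g), (memY _ _ _).mpr ⟨hw, hw'⟩⟩, rfl⟩
    have s₁ : Function.Surjective p₁ := by
      intro x
      obtain ⟨w, rfl⟩ := h₁ x
      obtain ⟨y, rfl⟩ := sW w
      exact ⟨y, rfl⟩
    have s₂ : Function.Surjective p₂ := by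
      intro x
      obtain ⟨w, rfl⟩ := h₂ x
      obtain ⟨y, rfl⟩ := sW w
      exact ⟨y, rfl⟩
    have s₁' : Function.Surjective p₁' := by
      intro x
      obtain ⟨w, rfl⟩ := h₁' x
      obtain ⟨y, rfl⟩ := sW' w
      exact ⟨y, rfl⟩
    have s₂' : Function.Surjective p₂' := by
      intro x
      obtain ⟨w, rfl⟩ := h₂' x
      obtain ⟨y, rfl⟩ := sW' w
      exact ⟨y, rfl⟩
    refine ⟨Y, (p₁.prod p₁').range, (p₂.prod p₂').range, inferInstance, inferInstance,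
      inferInstance, (p₁.prod p₁').rangeRestrict, (p₂.prod p₂').rangeRestrict, q,
      MonoidHom.rangeRestrict_surjective _, MonoidHom.rangeRestrict_surjective _, sG,
      hX.subdirect p₁ p₁' s₁ s₁' x₁ x₁', hY.subdirect p₂ p₂' s₂ s₂' x₂ x₂', ?_⟩
    rw [MonoidHom.ker_rangeRestrict, MonoidHom.ker_rangeRestrict, MonoidHom.ker_prod,
      MonoidHom.ker_prod]
    rintro ⟨⟨⟨w, w'⟩, g⟩, hy⟩ ⟨⟨a1, a2⟩, ⟨a3, a4⟩⟩
    have b1 : f₁ w = 1 := a1
    have b2 : f₁' w' = 1 := a2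
    have b3 : f₂ w = 1 := a3
    have b4 : f₂' w' = 1 := a4
    have c1 : f w = 1 := hk ⟨b1, b3⟩
    have c2 : f' w' = 1 := hk' ⟨b2, b4⟩
    obtain ⟨d1, d2⟩ := (memY _ _ _).mp hy
    rw [c1] at d1
    rw [c2] at d2
    have e1 : g ∈ N₁ := (QuotientGroup.eq_one_iff g).mp d1.symm
    have e2 : g ∈ N₂ := (QuotientGroup.eq_one_iff g).mp d2.symm
    have e3 : g ∈ N₁ ⊓ N₂ := ⟨e1, e2⟩
    rw [hN, Subgroup.mem_bot] at e3
    exact e3

/-- Nonempty formations contain the trivial group. -/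
def Fm.Ne (X : Fm) : Prop := X.1 PUnit

lemma Fm.ne_of_mem {X : Fm} {G : Type} [Group G] (h : X.1 G) : X.Ne := X.2.triv h

lemma Fm.sup_iff_join {X Y : Fm} (hX : X.Ne) (hY : Y.Ne) {G : Type} [Group G] :
    (X ⊔ Y).1 G ↔ joinCls X.1 Y.1 G := by
  constructor
  · intro h
    refine h ⟨joinCls X.1 Y.1, isFm_join X.2 Y.2⟩ ?_ ?_
    · intro H _ hH
      refine ⟨H, H, PUnit, inferInstance, inferInstance, inferInstance, MonoidHom.id H, 1,
        MonoidHom.id H, Function.surjective_id, fun _ => ⟨1, rfl⟩, Function.surjective_id, hH, hY,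
        inf_le_left⟩
    · intro H _ hH
      refine ⟨H, PUnit, H, inferInstance, inferInstance, inferInstance, 1, MonoidHom.id H,
        MonoidHom.id H, fun _ => ⟨1, rfl⟩, Function.surjective_id, Function.surjective_id, hX, hH,
        inf_le_right⟩
  · rintro ⟨W, G₁, G₂, _, _, _, f₁, f₂, f, h₁, h₂, h, x₁, x₂, hk⟩ K hXK hYK
    exact K.2.resq f₁ f₂ f h₁ h₂ h hk (hXK _ x₁) (hYK _ x₂)

instance : IsModularLattice Fm where
  sup_inf_le_assoc_of_le := by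
    intro x y z hxz G _ hG
    obtain ⟨h1, h2⟩ := hG
    by_cases hx : x.Ne
    swap
    · have hxy : x ≤ y := fun H _ hH => absurd (Fm.ne_of_mem hH) hx
      rw [sup_eq_right.mpr hxy] at h1
      exact (le_sup_right : y ⊓ z ≤ x ⊔ (y ⊓ z)) G ⟨h1, h2⟩
    by_cases hy : y.Ne
    swap
    · have hxy : y ≤ x := fun H _ hH => absurd (Fm.ne_of_mem hH) hy
      rw [sup_eq_left.mpr hxy] at h1
      exact (le_sup_left : x ≤ x ⊔ (y ⊓ z)) G h1
    have hyz : (y ⊓ z).Ne := ⟨hy, hxz _ hx⟩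
    rw [Fm.sup_iff_join hx hy] at h1
    rw [Fm.sup_iff_join hx hyz]
    obtain ⟨W, G₁, G₂, _, _, _, f₁, f₂, f, h₁, h₂, h, x₁, x₂, hk⟩ := h1
    let L : Subgroup W := f₂.ker ⊔ (f.ker ⊓ f₁.ker)
    have hL : L.Normal := Subgroup.sup_normal _ _
    refine ⟨W, G₁, W ⧸ L, inferInstance, inferInstance, inferInstance, f₁,
      QuotientGroup.mk' L, f, h₁, QuotientGroup.mk'_surjective L, h, x₁, ⟨?_, ?_⟩, ?_⟩
    · -- `W ⧸ L` is a quotient of `G₂`
      refine y.2.resq f₂ f₂ (QuotientGroup.mk' L) h₂ h₂ (QuotientGroup.mk'_surjective L) ?_ x₂ x₂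
      rw [QuotientGroup.ker_mk', inf_idem]
      exact le_sup_left
    · refine z.2.resq f f₁ (QuotientGroup.mk' L) h h₁ (QuotientGroup.mk'_surjective L) ?_ h2
        (hxz _ x₁)
      rw [QuotientGroup.ker_mk']
      exact le_sup_right
    · rw [QuotientGroup.ker_mk']
      rintro k ⟨hk1, hk2⟩
      obtain ⟨n, hn, m, hm, rfl⟩ := Subgroup.mem_sup_of_normal_right.mp hk2
      have hn1 : n ∈ f₁.ker := by
        have := f₁.ker.mul_mem hk1 (f₁.ker.inv_mem hm.2)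
        rwa [mul_inv_cancel_right] at this
      exact f.ker.mul_mem (hk ⟨hn1, hn⟩) hm.1

end Pool.Agent.H35
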