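import Pool.Agent.H35.RcBound

/-!
Branching programs as circuits (helper file for `MP_ba3460_lc`).
-/

namespace Pool.H35.Rc

open Finset

variable {E V A : Type} [DecidableEq E]

open Classical in
/-- the circuit of a branching program: a gate for every node and two gates for every arc. -/
noncomputable def BP.toCircuit [Fintype A] (B : BP E V A) : Circuit E (V ⊕ (A ⊕ A)) where
  kind g := match g with
    | .inl v => if v = B.sink then .leaf ∅ (fun _ => True)
        else .or ((univ.filter (fun a => B.src a = v)).image (fun a => Sum.inr (Sum.inl a)))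
    | .inr (.inl a) => .and (Sum.inr (Sum.inr a)) (Sum.inl (B.tgt a))
    | .inr (.inr a) => .leaf (B.vars a) (B.test a)
  out := .inl B.source

/-- the set of read counts of paths from `v`. -/
def BP.reads (B : BP E V A) (v : V) (e : E) : Set ℕ :=
  {j | ∃ w p, B.Path v w p ∧ j = p.countP (fun a => e ∈ B.vars a)}

/-- the degree function of the circuit. -/
noncomputable def BP.deg (B : BP E V A) : V ⊕ (A ⊕ A) → E → ℕ
  | .inl v, e => sSup (B.reads v e)
  | .inr (.inl a), e => (if e ∈ B.vars a then 1 else 0) + sSup (B.reads (B.tgt a) e)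
  | .inr (.inr a), e => if e ∈ B.vars a then 1 else 0

lemma BP.reads_nonempty (B : BP E V A) (v : V) (e : E) : (B.reads v e).Nonempty :=
  ⟨0, v, [], .nil v, by simp⟩

lemma BP.reads_le {B : BP E V A} {c : E → ℕ} (h : B.ReadBound c) (v : V) (e : E) :
    ∀ j ∈ B.reads v e, j ≤ c e := by
  rintro j ⟨w, p, hp, rfl⟩
  exact h v w p hp e

lemma BP.deg_cons {B : BP E V A} {c : E → ℕ} (h : B.ReadBound c) (a : A) (e : E) :
    (if e ∈ B.vars a then 1 else 0) + sSup (B.reads (B.tgt a) e) ≤ sSup (B.reads (B.src a) e) := by
  have hb : BddAbove (B.reads (B.src a) e) := ⟨c e, B.reads_le h _ _⟩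
  have hb' : BddAbove (B.reads (B.tgt a) e) := ⟨c e, B.reads_le h _ _⟩
  obtain ⟨w, p, hp, hj⟩ := Nat.sSup_mem (B.reads_nonempty (B.tgt a) e) hb'
  rw [hj]
  apply le_csSup hb
  refine ⟨w, a :: p, .cons a hp, ?_⟩
  rw [List.countP_cons]
  by_cases he : e ∈ B.vars a <;> simp [he, add_comm]

lemma BP.degBound [Fintype A] {B : BP E V A} {c : E → ℕ} (h : B.ReadBound c) :
    B.toCircuit.DegBound B.deg where
  leaf := by
    intro g F P hk e he
    rcases g with v | a | a
    · simp only [BP.toCircuit] at hk
      split_ifs at hk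
      cases hk
      exact absurd he (Finset.notMem_empty _)
    · simp only [BP.toCircuit] at hk
      cases hk
    · simp only [BP.toCircuit] at hk
      cases hk
      simp [BP.deg, he]
  and := by
    intro g a b hk e
    rcases g with v | a' | a'
    · simp only [BP.toCircuit] at hk
      split_ifs at hk
    · simp only [BP.toCircuit] at hk
      cases hk
      simp [BP.deg]
    · simp only [BP.toCircuit] at hk
      cases hk
  or := by
    classical
    intro g S hk c' hc' e
    rcases g with v | a' | a'
    · simp only [BP.toCircuit] at hk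
      split_ifs at hk
      cases hk
      simp only [mem_image, mem_filter, mem_univ, true_and] at hc'
      obtain ⟨a, rfl, rfl⟩ := hc'
      exact BP.deg_cons h a e
    · simp only [BP.toCircuit] at hk
      cases hk
    · simp only [BP.toCircuit] at hk
      cases hk

lemma BP.holds_of_path [Fintype A] (B : BP E V A) (x : Finset E) {v w : V} {p : List A}
    (hp : B.Path v w p) (hw : w = B.sink) (hx : ∀ a ∈ p, B.test a (x ∩ B.vars a)) :
    B.toCircuit.Holds x (.inl v) := by
  classical
  induction hp with
  | nil v =>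
    refine Circuit.Holds.leaf (F := ∅) (P := fun _ => True) ?_ trivial
    simp [BP.toCircuit, hw]
  | @cons a w p h ih =>
    have h1 := ih hw (fun a' ha' => hx a' (List.mem_cons_of_mem _ ha'))
    have h2 : B.toCircuit.Holds x (.inr (.inr a)) :=
      Circuit.Holds.leaf (F := B.vars a) (P := B.test a) (by simp [BP.toCircuit])
        (hx a (List.mem_cons_self))
    have h3 : B.toCircuit.Holds x (.inr (.inl a)) :=
      Circuit.Holds.and (by simp [BP.toCircuit]) h2 h1
    by_cases hs : B.src a = B.sink
    · refine Circuit.Holds.leaf (F := ∅) (P := fun _ => True) ?_ trivial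
      simp [BP.toCircuit, hs]
    · refine Circuit.Holds.or (S := (univ.filter (fun a' => B.src a' = B.src a)).image
        (fun a => Sum.inr (Sum.inl a))) (c := .inr (.inl a)) ?_ ?_ h3
      · simp [BP.toCircuit, hs]
      · exact mem_image_of_mem _ (mem_filter.2 ⟨mem_univ _, rfl⟩)

/-- what truth of a gate means. -/
def BP.Means (B : BP E V A) (x : Finset E) : V ⊕ (A ⊕ A) → Prop
  | .inl v => ∃ p, B.Path v B.sink p ∧ ∀ a ∈ p, B.test a (x ∩ B.vars a)
  | .inr (.inl a) => B.test a (x ∩ B.vars a) ∧
      ∃ p, B.Path (B.tgt a) B.sink p ∧ ∀ a ∈ p, B.test a (x ∩ B.vars a)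
  | .inr (.inr a) => B.test a (x ∩ B.vars a)

lemma BP.means_of_holds [Fintype A] (B : BP E V A) (x : Finset E) {g : V ⊕ (A ⊕ A)}
    (h : B.toCircuit.Holds x g) : B.Means x g := by
  classical
  induction h with
  | @leaf g F P hk hP =>
    rcases g with v | a | a
    · simp only [BP.toCircuit] at hk
      split_ifs at hk with hv
      exact ⟨[], hv ▸ .nil v, by simp⟩
    · simp only [BP.toCircuit] at hk
      cases hk
    · simp only [BP.toCircuit] at hk
      cases hk
      exact hP
  | @and g a' b' hk ha hb iha ihb =>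
    rcases g with v | a | a
    · simp only [BP.toCircuit] at hk
      split_ifs at hk
    · simp only [BP.toCircuit] at hk
      cases hk
      exact ⟨iha, ihb⟩
    · simp only [BP.toCircuit] at hk
      cases hk
  | @or g S c' hk hc hh ih =>
    rcases g with v | a | a
    · simp only [BP.toCircuit] at hk
      split_ifs at hk
      cases hk
      simp only [mem_image, mem_filter, mem_univ, true_and] at hc
      obtain ⟨a, rfl, rfl⟩ := hc
      obtain ⟨h1, p, hp, h2⟩ := ih
      refine ⟨a :: p, .cons a hp, ?_⟩
      intro a' ha'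
      rcases List.mem_cons.1 ha' with rfl | h3
      · exact h1
      · exact h2 a' h3
    · simp only [BP.toCircuit] at hk
      cases hk
    · simp only [BP.toCircuit] at hk
      cases hk

lemma BP.holds_iff [Fintype A] (B : BP E V A) (x : Finset E) :
    B.toCircuit.Holds x B.toCircuit.out ↔ B.Accepts x := by
  constructor
  · intro h
    exact BP.means_of_holds B x h
  · rintro ⟨p, hp, hx⟩
    exact BP.holds_of_path B x hp rfl hx

/-- the lower bound for branching programs. -/
theorem bp_bound {n : ℕ} {V A : Type} [Fintype V] [Fintype A] (B : BP (Edge n) V A)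
    (c : Edge n → ℕ) (hc : B.ReadBound c) (k l r t : ℕ) (hr : 1 ≤ r) (hl : 2 ≤ l)
    (hlk : l ≤ k) (hgap : 2 ^ (4 * r + 4) * (k - l) ≤ k - 1)
    (ht : t ≤ 1 ∨ t * (r * 2 ^ (8 * r + 9)) ≤ k) (hloc : B.Local t)
    (hdeg : ∑ e, c e ≤ r * n.choose 2)
    (hyes : ∀ x, HasClique k x → B.Accepts x)
    (hno : ∀ x, B.Accepts x → HasClique l x) :
    n ^ k ≤ ((k + 1) ^ k * (Fintype.card V + 2 * Fintype.card A)) ^ (2 ^ (14 * r + 20)) := by
  have hcard : Fintype.card (V ⊕ (A ⊕ A)) = Fintype.card V + 2 * Fintype.card A := by
    rw [Fintype.card_sum, Fintype.card_sum]; ring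
  rw [← hcard]
  refine circuit_bound B.toCircuit B.deg (BP.degBound hc) k l r t hr hl hlk hgap ht ?_ ?_ ?_ ?_
  · intro g F P hk
    rcases g with v | a | a
    · simp only [BP.toCircuit] at hk
      split_ifs at hk
      cases hk
      exact ⟨∅, by simp, by simp⟩
    · simp only [BP.toCircuit] at hk
      cases hk
    · simp only [BP.toCircuit] at hk
      cases hk
      exact hloc a
  · refine le_trans (Finset.sum_le_sum fun e _ => ?_) hdeg
    exact csSup_le (B.reads_nonempty B.source e) (BP.reads_le hc _ _)
  · intro x hx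
    rw [BP.holds_iff]
    exact hyes x hx
  · intro x hx
    rw [BP.holds_iff] at hx
    exact hno x hx

end Pool.H35.Rc
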