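import Pool.Agent.H35.RcFinal

/-!
The lower bound for circuits, numerical part and the case of small `k`
(helper file for `MP_ba3460_lc`).
-/

namespace Pool.H35.Rc

open Finset

lemma star_card {n k : ℕ} (F : Finset (Edge n)) (v : Fin n) (hF : ∀ e ∈ F, v ∈ e.1)
    (K : Finset (Fin n)) (hK : K.card = k) : (F ∩ inside K).card ≤ k := by
  have h1 : (F ∩ inside K).card ≤ (powersetCard 1 K).card := by
    refine Finset.card_le_card_of_injOn (fun e => e.1.erase v) ?_ ?_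
    · intro e he
      have he' := mem_inter.1 (by exact_mod_cast he)
      have h1 := hF e he'.1
      have h2 := mem_inside.1 he'.2
      rw [mem_coe, mem_powersetCard]
      refine ⟨(erase_subset _ _).trans h2, ?_⟩
      rw [card_erase_of_mem h1, e.2]
    · intro e he e' he' hee
      have h1 := hF e (mem_inter.1 (by exact_mod_cast he)).1
      have h2 := hF e' (mem_inter.1 (by exact_mod_cast he')).1
      apply Subtype.ext
      rw [← insert_erase h1, ← insert_erase h2]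
      simp only at hee
      rw [hee]
  rw [card_powersetCard, hK, Nat.choose_one_right] at h1
  exact h1

lemma local_card {n k t : ℕ} (F : Finset (Edge n)) (S : Finset (Fin n)) (hS : S.card ≤ t)
    (hF : ∀ e ∈ F, ∃ v ∈ S, v ∈ e.1) (K : Finset (Fin n)) (hK : K.card = k) :
    (F ∩ inside K).card ≤ t * k := by
  classical
  have h1 : F ∩ inside K ⊆ S.biUnion (fun v => (F.filter (fun e => v ∈ e.1)) ∩ inside K) := by
    intro e he
    rw [mem_inter] at he
    obtain ⟨v, hv, hve⟩ := hF e he.1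
    rw [mem_biUnion]
    exact ⟨v, hv, mem_inter.2 ⟨mem_filter.2 ⟨he.1, hve⟩, he.2⟩⟩
  calc (F ∩ inside K).card
      ≤ (S.biUnion (fun v => (F.filter (fun e => v ∈ e.1)) ∩ inside K)).card :=
        Finset.card_le_card h1
    _ ≤ S.card * k := by
        refine Finset.card_biUnion_le_card_mul _ _ _ fun v _ => ?_
        exact star_card _ v (fun e he => (mem_filter.1 he).2) K hK
    _ ≤ t * k := Nat.mul_le_mul_right _ hS

/-- the trivial lower bound. -/
lemma trivial_bound {n : ℕ} {G : Type} [Fintype G] (C : Circuit (Edge n) G) (k l : ℕ)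
    (hl : 2 ≤ l) (hlk : l ≤ k) (hloc : C.Local 1)
    (hyes : ∀ x, HasClique k x → C.Holds x C.out)
    (hno : ∀ x, C.Holds x C.out → HasClique l x) : n ≤ k * Fintype.card G := by
  classical
  set s := Fintype.card G with hs
  have hs1 : 1 ≤ s := Fintype.card_pos_iff.2 ⟨C.out⟩
  by_contra hcon
  push Not at hcon
  have hk1 : 1 ≤ k := by omega
  have hns : s + k ≤ n := by
    have : s + k ≤ k * s + 1 := by
      obtain ⟨a, ha⟩ := Nat.exists_eq_add_of_le hs1
      obtain ⟨b, hb⟩ := Nat.exists_eq_add_of_le hk1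
      rw [ha, hb]
      nlinarith [Nat.zero_le (a * b)]
    omega
  -- centres of the input gates
  have hcen : ∀ g : G, ∃ S : Finset (Fin n), S.card ≤ 1 ∧
      ∀ F P, C.kind g = .leaf F P → ∀ e ∈ F, ∃ v ∈ S, v ∈ e.1 := by
    intro g
    cases hk : C.kind g with
    | leaf F P =>
      obtain ⟨S, hS, hv⟩ := hloc g F P hk
      refine ⟨S, hS, fun F' P' h => ?_⟩
      cases h
      exact hv
    | and a b => exact ⟨∅, by simp, fun F P h => by cases h⟩
    | or S => exact ⟨∅, by simp, fun F P h => by cases h⟩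
  choose cen hcen1 hcen using hcen
  set U : Finset (Fin n) := univ.biUnion cen with hU
  have hUc : U.card ≤ s := by
    rw [hU, hs, ← Finset.card_univ, ← mul_one (univ : Finset G).card]
    exact Finset.card_biUnion_le_card_mul _ _ _ fun g _ => hcen1 g
  have hUcc : k ≤ (Uᶜ : Finset (Fin n)).card := by
    rw [card_compl, Fintype.card_fin]
    omega
  obtain ⟨K, hKU, hKc⟩ := Finset.exists_subset_card_eq hUcc
  have hkey : ∀ g, C.Holds (inside K) g → C.Holds ∅ g := by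
    intro g hg
    induction hg with
    | @leaf g F P h hP =>
      refine .leaf h ?_
      have : inside K ∩ F = ∅ ∩ F := by
        rw [Finset.empty_inter]
        rw [Finset.eq_empty_iff_forall_notMem]
        intro e he
        rw [mem_inter, mem_inside] at he
        obtain ⟨v, hv, h1⟩ := hcen g F P h e he.2
        have h2 : v ∈ Uᶜ := hKU (he.1 h1)
        rw [mem_compl] at h2
        exact h2 (mem_biUnion.2 ⟨g, mem_univ _, hv⟩)
      rw [← this]
      exact hP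
    | and h _ _ iha ihb => exact .and h iha ihb
    | or h hc _ ih => exact .or h hc ih
  have hout : C.Holds (inside K) C.out :=
    hyes _ ⟨K, hKc, fun e he => mem_inside.2 he⟩
  obtain ⟨K', hK'c, hK'⟩ := hno _ (hkey _ hout)
  obtain ⟨t, htK, htc⟩ := Finset.exists_subset_card_eq (show 2 ≤ K'.card by omega)
  exact absurd (hK' ⟨t, htc⟩ htK) (Finset.notMem_empty _)

lemma num_bound (r : ℕ) :
    (4 * (r ^ 2 * 2 ^ (8 * r + 10)) + 3) * (6 * 2 ^ (4 * r + 5)) ≤ 2 ^ (14 * r + 20) := by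
  have h1 : r ^ 2 ≤ 2 ^ (2 * r) := by
    rw [mul_comm, pow_mul]
    exact Nat.pow_le_pow_left (Nat.lt_two_pow_self).le 2
  have e1 : (2:ℕ) ^ (8 * r + 10) = 2 ^ (8 * r) * 1024 := by rw [pow_add]; norm_num
  have e2 : (2:ℕ) ^ (4 * r + 5) = 2 ^ (4 * r) * 32 := by rw [pow_add]; norm_num
  have e3 : (2:ℕ) ^ (14 * r + 20) = 2 ^ (8 * r) * 2 ^ (4 * r) * 2 ^ (2 * r) * 1048576 := by
    rw [← pow_add, ← pow_add, show 8 * r + 4 * r + 2 * r = 14 * r by ring, pow_add]
    norm_num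
  rw [e1, e2, e3]
  have hX : 1 ≤ 2 ^ (8 * r) := Nat.one_le_two_pow
  have hY : 1 ≤ 2 ^ (4 * r) := Nat.one_le_two_pow
  have hZ : 1 ≤ 2 ^ (2 * r) := Nat.one_le_two_pow
  set X := 2 ^ (8 * r)
  set Y := 2 ^ (4 * r)
  set Z := 2 ^ (2 * r)
  have h2 : X * Y * r ^ 2 ≤ X * Y * Z := Nat.mul_le_mul_left _ h1
  have h3 : 1 * Y * 1 ≤ X * Y * Z := Nat.mul_le_mul (Nat.mul_le_mul_right _ hX) hZ
  calc (4 * (r ^ 2 * (X * 1024)) + 3) * (6 * (Y * 32))
      = 786432 * (X * Y * r ^ 2) + 576 * (1 * Y * 1) := by ring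
    _ ≤ 786432 * (X * Y * Z) + 576 * (X * Y * Z) :=
        Nat.add_le_add (Nat.mul_le_mul_left _ h2) (Nat.mul_le_mul_left _ h3)
    _ ≤ _ := by nlinarith [Nat.zero_le (X * Y * Z)]

lemma card_cls (G : Type) [Fintype G] (m : ℕ) : Fintype.card (Cls G m)
    = ((Fintype.card G * (Fintype.card G + 1)) * 2 + 1) ^ m := by
  classical
  rw [Fintype.card_fun, Fintype.card_fin]
  congr 1
  rw [Fintype.card_option, Fintype.card_prod, Fintype.card_prod, Fintype.card_option,
    Fintype.card_bool]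

/-- from the real inequality to the integral one. -/
lemma final_arith (n k l s m r B : ℕ) (hn : 1 ≤ n) (hk : 9 ≤ (k + 1) ^ k) (hs1 : 1 ≤ s)
    (hB : B = (k + 1) ^ k * s) (hl2 : k ≤ 2 * l)
    (h : (n : ℝ) ^ ((1 / 2 ^ (4 * r + 5) : ℝ) * l / 3) ≤
      36 * ((((s * (s + 1)) * 2 + 1) ^ m : ℕ) : ℝ) ^ 2 * ((k : ℝ) + 1) ^ k) :
    n ^ k ≤ B ^ ((4 * m + 3) * (6 * 2 ^ (4 * r + 5))) := by
  have hn1 : (1:ℝ) ≤ n := by exact_mod_cast hn
  have hn0 : (0:ℝ) ≤ n := by linarith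
  have hB1 : 1 ≤ B := by
    rw [hB]
    calc 1 ≤ 9 * 1 := by norm_num
      _ ≤ (k + 1) ^ k * s := Nat.mul_le_mul hk hs1
  have hkB : (k + 1) ^ k ≤ B := by
    rw [hB]; exact Nat.le_mul_of_pos_right _ hs1
  obtain ⟨R, hR⟩ : ∃ R, R = 36 * (((s * (s + 1)) * 2 + 1) ^ m) ^ 2 * (k + 1) ^ k := ⟨_, rfl⟩
  have hcore2 : (n : ℝ) ^ ((1 / 2 ^ (4 * r + 5) : ℝ) * l / 3) ≤ (R : ℝ) := by
    refine le_trans h (le_of_eq ?_)
    rw [hR]
    push_cast
    ring
  generalize hU : (6 * 2 ^ (4 * r + 5) : ℕ) = U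
  have hUr : (1 / 2 ^ (4 * r + 5) : ℝ) * l / 3 * (U : ℝ) = ((2 * l : ℕ) : ℝ) := by
    rw [← hU]
    push_cast
    field_simp
    ring
  have hpow : (n : ℝ) ^ (2 * l) ≤ (R : ℝ) ^ U := by
    have h1 : ((n : ℝ) ^ ((1 / 2 ^ (4 * r + 5) : ℝ) * l / 3)) ^ U ≤ (R : ℝ) ^ U :=
      pow_le_pow_left₀ (Real.rpow_nonneg hn0 _) hcore2 _
    have h2 : ((n : ℝ) ^ ((1 / 2 ^ (4 * r + 5) : ℝ) * l / 3)) ^ U = (n : ℝ) ^ (2 * l) := by
      rw [← Real.rpow_natCast, ← Real.rpow_mul hn0, ← Real.rpow_natCast (n : ℝ) (2 * l), hUr]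
    rw [h2] at h1
    exact h1
  have hnat : n ^ (2 * l) ≤ R ^ U := by exact_mod_cast hpow
  have hRB : R ≤ B ^ (4 * m + 3) := by
    have h1 : (s * (s + 1)) * 2 + 1 ≤ B ^ 2 := by
      have h2 : (9 * s) ^ 2 ≤ B ^ 2 := Nat.pow_le_pow_left (by
        rw [hB]; exact Nat.mul_le_mul_right _ hk) 2
      have h3 : (s * (s + 1)) * 2 + 1 ≤ (9 * s) ^ 2 := by nlinarith
      exact le_trans h3 h2
    have h4 : 36 ≤ B ^ 2 := by
      calc 36 ≤ 9 ^ 2 := by norm_num
        _ ≤ B ^ 2 := Nat.pow_le_pow_left (le_trans hk hkB) 2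
    calc R = 36 * (((s * (s + 1)) * 2 + 1) ^ m) ^ 2 * (k + 1) ^ k := hR
      _ ≤ B ^ 2 * ((B ^ 2) ^ m) ^ 2 * B :=
          Nat.mul_le_mul (Nat.mul_le_mul h4
            (Nat.pow_le_pow_left (Nat.pow_le_pow_left h1 m) 2)) hkB
      _ = B ^ (4 * m + 3) := by
          rw [← pow_mul, ← pow_mul, ← pow_add, ← pow_succ]
          congr 1
          ring
  calc n ^ k ≤ n ^ (2 * l) := Nat.pow_le_pow_right (by omega) hl2
    _ ≤ R ^ U := hnat
    _ ≤ (B ^ (4 * m + 3)) ^ U := Nat.pow_le_pow_left hRB _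
    _ = B ^ ((4 * m + 3) * U) := by rw [← pow_mul]

/-- the lower bound for circuits. -/
theorem circuit_bound {n : ℕ} {G : Type} [Fintype G] (C : Circuit (Edge n) G)
    (d : G → Edge n → ℕ) (hd : C.DegBound d) (k l r t : ℕ) (hr : 1 ≤ r) (hl : 2 ≤ l)
    (hlk : l ≤ k) (hgap : 2 ^ (4 * r + 4) * (k - l) ≤ k - 1)
    (ht : t ≤ 1 ∨ t * (r * 2 ^ (8 * r + 9)) ≤ k) (hloc : C.Local t)
    (hdeg : ∑ e, d C.out e ≤ r * n.choose 2)
    (hyes : ∀ x, HasClique k x → C.Holds x C.out)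
    (hno : ∀ x, C.Holds x C.out → HasClique l x) :
    n ^ k ≤ ((k + 1) ^ k * Fintype.card G) ^ (2 ^ (14 * r + 20)) := by
  classical
  set s := Fintype.card G with hs
  have hs1 : 1 ≤ s := Fintype.card_pos_iff.2 ⟨C.out⟩
  have hk2 : 2 ≤ k := le_trans hl hlk
  set B := (k + 1) ^ k * s with hB
  have hkk : 9 ≤ (k + 1) ^ k := by
    calc 9 = 3 ^ 2 := by norm_num
      _ ≤ (k + 1) ^ 2 := Nat.pow_le_pow_left (by omega) 2
      _ ≤ (k + 1) ^ k := Nat.pow_le_pow_right (by omega) hk2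
  have hB1 : 1 ≤ B := by
    rw [hB]
    calc 1 ≤ 9 * 1 := by norm_num
      _ ≤ (k + 1) ^ k * s := Nat.mul_le_mul hkk hs1
  have hkB : (k + 1) ^ k ≤ B := by
    rw [hB]; exact Nat.le_mul_of_pos_right _ hs1
  have hr2 : r ≤ 2 ^ r := (Nat.lt_two_pow_self).le
  rcases lt_or_ge n k with hnk | hkn
  · -- `n < k`
    calc n ^ k ≤ (k + 1) ^ k := Nat.pow_le_pow_left (by omega) k
      _ ≤ B := hkB
      _ = B ^ 1 := (pow_one _).symm
      _ ≤ B ^ (2 ^ (14 * r + 20)) := Nat.pow_le_pow_right hB1 Nat.one_le_two_pow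
  rcases lt_or_ge k (r * 2 ^ (8 * r + 7) + 2) with hksmall | hkbig
  · -- small `k`
    have ht1 : t ≤ 1 := by
      rcases ht with h | h
      · exact h
      · by_contra hcon
        push Not at hcon
        have e1 : 2 * (r * 2 ^ (8 * r + 9)) ≤ t * (r * 2 ^ (8 * r + 9)) :=
          Nat.mul_le_mul_right _ hcon
        have e2 : 2 * (r * 2 ^ (8 * r + 9)) = 8 * (r * 2 ^ (8 * r + 7)) := by
          rw [show 8 * r + 9 = (8 * r + 7) + 2 by ring, pow_add]; ring
        have e3 : 1 ≤ r * 2 ^ (8 * r + 7) := Nat.mul_pos hr (by positivity)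
        omega
    have hloc1 : C.Local 1 := by
      intro g F P h
      obtain ⟨S, hS, hv⟩ := hloc g F P h
      exact ⟨S, le_trans hS ht1, hv⟩
    have h1 := trivial_bound C k l hl hlk hloc1 hyes hno
    have h2 : k * s ≤ B := by
      rw [hB]
      apply Nat.mul_le_mul_right
      calc k ≤ k + 1 := Nat.le_succ _
        _ = (k + 1) ^ 1 := (pow_one _).symm
        _ ≤ (k + 1) ^ k := Nat.pow_le_pow_right (by omega) (by omega)
    have h3 : k ≤ 2 ^ (14 * r + 20) := by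
      have e1 : r * 2 ^ (8 * r + 7) ≤ 2 ^ r * 2 ^ (8 * r + 7) := Nat.mul_le_mul_right _ hr2
      have e2 : 2 ^ r * 2 ^ (8 * r + 7) = 2 ^ (9 * r + 7) := by
        rw [← pow_add]; congr 1; ring
      have e3 : 2 ^ (9 * r + 7) + 2 ≤ 2 ^ (14 * r + 20) := by
        calc 2 ^ (9 * r + 7) + 2 ≤ 2 ^ (9 * r + 7) + 2 ^ (9 * r + 7) := by
              apply Nat.add_le_add_left
              calc 2 = 2 ^ 1 := rfl
                _ ≤ 2 ^ (9 * r + 7) := Nat.pow_le_pow_right (by norm_num) (by omega)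
          _ = 2 ^ (9 * r + 8) := by rw [← two_mul, ← pow_succ']
          _ ≤ _ := Nat.pow_le_pow_right (by norm_num) (by omega)
      omega
    calc n ^ k ≤ (k * s) ^ k := Nat.pow_le_pow_left h1 k
      _ ≤ B ^ k := Nat.pow_le_pow_left h2 k
      _ ≤ B ^ (2 ^ (14 * r + 20)) := Nat.pow_le_pow_right hB1 h3
  -- the main case
  set M := r * 2 ^ (8 * r + 6) with hM
  have hM1 : 1 ≤ M := Nat.mul_pos hr (by positivity)
  have hkM : 2 * M + 2 ≤ k := by
    have : r * 2 ^ (8 * r + 7) = 2 * M := by rw [hM, pow_succ]; ring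
    omega
  set N := k.choose 2 with hN
  have hN2 : 2 * N = k * (k - 1) := by
    rw [hN, Nat.choose_two_right]
    exact Nat.mul_div_cancel' (Nat.even_mul_pred_self k).two_dvd
  have hNM : k * M + 1 ≤ N := by
    have h1 : k * (2 * M + 1) ≤ k * (k - 1) := Nat.mul_le_mul_left _ (by omega)
    have h2 : k * (2 * M + 1) = 2 * (k * M) + k := by ring
    omega
  set τ := (N - 1) / M with hτ
  have hτk : k ≤ τ := by
    rw [hτ, Nat.le_div_iff_mul_le hM1]
    omega
  have htk : t * k ≤ τ := by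
    rcases ht with h | h
    · calc t * k ≤ 1 * k := Nat.mul_le_mul_right _ h
        _ ≤ τ := by rw [one_mul]; exact hτk
    · rw [hτ, Nat.le_div_iff_mul_le hM1]
      have e1 : t * (r * 2 ^ (8 * r + 9)) = 8 * (t * M) := by
        rw [hM, show 8 * r + 9 = (8 * r + 6) + 3 by ring, pow_add]; ring
      rw [e1] at h
      have e2 : k * (8 * (t * M)) ≤ k * k := Nat.mul_le_mul_left _ h
      have e3 : k * (8 * (t * M)) = 8 * (t * k * M) := by ring
      have e4 : k * k = k * (k - 1) + k := by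
        obtain ⟨a, ha⟩ := Nat.exists_eq_add_of_le (show 1 ≤ k by omega)
        rw [ha]
        simp only [Nat.add_sub_cancel_left]
        ring
      have e5 : k * 3 ≤ k * (k - 1) := Nat.mul_le_mul_left _ (by omega)
      omega
  have hτ1 : M * τ < N := by
    have : M * τ ≤ N - 1 := Nat.mul_div_le _ _
    omega
  have hτ2 : N ≤ M * (τ + 1) := by
    have := Nat.lt_mul_div_succ (N - 1) hM1
    rw [← hτ] at this
    omega
  have hτ3 : N ≤ 2 * (M * τ) := by
    have h1 : M * (τ + 1) = M * τ + M := by ring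
    have h2 : M * 1 ≤ M * τ := Nat.mul_le_mul_left _ (by omega)
    omega
  set m := r ^ 2 * 2 ^ (8 * r + 10) with hm
  have hm1 : 1 ≤ m := Nat.mul_pos (by positivity) (by positivity)
  have hmτ : 8 * r * N ≤ (m + 1) * τ := by
    have h1 : 8 * r * N ≤ 8 * r * (2 * (M * τ)) := Nat.mul_le_mul_left _ hτ3
    have h2 : 8 * r * (2 * (M * τ)) = m * τ := by
      rw [hM, hm, show (8 * r + 10) = (8 * r + 6) + 4 by ring, pow_add 2 (8 * r + 6) 4]
      ring
    have h3 : m * τ ≤ (m + 1) * τ := Nat.mul_le_mul_right _ (Nat.le_succ _)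
    omega
  have hcore := core C d hd k l r τ m hr hl hlk hkn hgap (by omega) hm1 hmτ
    (by rw [← hM]; exact hτ1)
    (fun g F P hk K hK => by
      obtain ⟨S, hS, hv⟩ := hloc g F P hk
      exact le_trans (local_card F S hS hv K hK) htk) hdeg hyes hno
  rw [card_cls] at hcore
  have hl2 : k ≤ 2 * l := by
    have h1 : 16 * (k - l) ≤ 2 ^ (4 * r + 4) * (k - l) := by
      apply Nat.mul_le_mul_right
      calc 16 = 2 ^ 4 := by norm_num
        _ ≤ 2 ^ (4 * r + 4) := Nat.pow_le_pow_right (by norm_num) (by omega)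
    omega
  calc n ^ k ≤ B ^ ((4 * m + 3) * (6 * 2 ^ (4 * r + 5))) :=
        final_arith n k l s m r B (by omega) hkk hs1 hB hl2 hcore
    _ ≤ B ^ (2 ^ (14 * r + 20)) := Nat.pow_le_pow_right hB1 (num_bound r)

end Pool.H35.Rc
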