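import Mathlib

/-!
Definitions for `MP_ba3460_lc.ReadCircuits`: graphs given by their edge sets, cliques, circuits
whose inputs are local tests, formal individual degrees, and branching programs.
-/

namespace Pool.H35.Rc

/-- The possible edges of a graph on the vertex set `Fin n`: the two-element sets of vertices.
A graph on `Fin n` is given by its set of edges, a `Finset (Edge n)`. -/
abbrev Edge (n : ℕ) : Type := {e : Finset (Fin n) // e.card = 2}

/-- the graph with edge set `x` has a clique on `k` vertices. -/
def HasClique {n : ℕ} (k : ℕ) (x : Finset (Edge n)) : Prop :=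
  ∃ K : Finset (Fin n), K.card = k ∧ ∀ e : Edge n, e.1 ⊆ K → e ∈ x

/-- the graph of an edge set, as a Mathlib graph (only used in the check `hasClique_iff`). -/
def toGraph {n : ℕ} (x : Finset (Edge n)) : SimpleGraph (Fin n) where
  Adj u v := ∃ h : u ≠ v, (⟨{u, v}, Finset.card_pair h⟩ : Edge n) ∈ x
  symm := ⟨by
    rintro u v ⟨h, hx⟩
    refine ⟨h.symm, ?_⟩
    simpa [Finset.pair_comm v u] using hx⟩
  loopless := ⟨fun u h => h.1 rfl⟩

/-- check: `HasClique` agrees with Mathlib's notion of a clique. -/
theorem hasClique_iff {n : ℕ} (k : ℕ) (x : Finset (Edge n)) :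
    HasClique k x ↔ ¬ (toGraph x).CliqueFree k := by
  unfold SimpleGraph.CliqueFree HasClique
  push Not
  refine exists_congr fun K => ?_
  rw [SimpleGraph.isNClique_iff, and_comm]
  refine and_congr_left fun _ => ?_
  constructor
  · intro h u hu v hv huv
    exact ⟨huv, h _ (by intro w hw; simp at hw; rcases hw with rfl | rfl <;> simp_all)⟩
  · rintro h ⟨e, he⟩ heK
    obtain ⟨u, v, huv, rfl⟩ := Finset.card_eq_two.1 he
    obtain ⟨_, h2⟩ := h (heK (by simp) : u ∈ K) (heK (by simp) : v ∈ K) huv
    exact h2

/-- The possible kinds of a gate of a circuit with variable set `E` and set of gates `G`. -/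
inductive Kind (E G : Type) : Type
  /-- an input gate: a test `P` of the variables in `F`; the value is `P (x ∩ F)`. -/
  | leaf (F : Finset E) (P : Finset E → Prop)
  /-- a conjunction of two gates. -/
  | and (a b : G)
  /-- a disjunction of a finite set of gates. -/
  | or (S : Finset G)

/-- A circuit with variable set `E` and set of gates `G`; `out` is the output gate.
Its size is the number of gates, the cardinality of `G`. -/
structure Circuit (E G : Type) where
  /-- the kind of every gate -/
  kind : G → Kind E G
  /-- the output gate -/
  out : G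

/-- `C.Holds x g`: gate `g` has the value true on the input `x` (a set of variables, those that
are set to true). -/
inductive Circuit.Holds {E G : Type} [DecidableEq E] (C : Circuit E G) (x : Finset E) : G → Prop
  | leaf {g : G} {F : Finset E} {P : Finset E → Prop} (h : C.kind g = .leaf F P)
      (hP : P (x ∩ F)) : C.Holds x g
  | and {g a b : G} (h : C.kind g = .and a b) (ha : C.Holds x a) (hb : C.Holds x b) :
      C.Holds x g
  | or {g : G} {S : Finset G} {c : G} (h : C.kind g = .or S) (hc : c ∈ S) (hh : C.Holds x c) :
      C.Holds x g

/-- `d` bounds the formal individual degrees of the gates of `C`: `d g e` is at least the number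
of times the variable `e` is read in any proof tree with root `g`. -/
structure Circuit.DegBound {E G : Type} (C : Circuit E G) (d : G → E → ℕ) : Prop where
  leaf : ∀ g F P, C.kind g = .leaf F P → ∀ e ∈ F, 1 ≤ d g e
  and : ∀ g a b, C.kind g = .and a b → ∀ e, d a e + d b e ≤ d g e
  or : ∀ g S, C.kind g = .or S → ∀ c ∈ S, ∀ e, d c e ≤ d g e

/-- every input gate tests only edges that touch some set `S` of at most `t` vertices. -/
def Circuit.Local {n : ℕ} {G : Type} (C : Circuit (Edge n) G) (t : ℕ) : Prop :=
  ∀ g F P, C.kind g = .leaf F P → ∃ S : Finset (Fin n), S.card ≤ t ∧ ∀ e ∈ F, ∃ v ∈ S, v ∈ e.1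

/-- the formal individual degrees of the output gate add up to at most `r` times the number of
variables: in this sense `C` reads every variable at most `r` times on average. -/
def Circuit.AvgDegreeLE {n : ℕ} {G : Type} (C : Circuit (Edge n) G) (r : ℕ) : Prop :=
  ∃ d : G → Edge n → ℕ, C.DegBound d ∧ ∑ e, d C.out e ≤ r * n.choose 2

/-- A nondeterministic branching program with variable set `E`, set of nodes `V` and set of arcs
`A`.  The arc `a` leads from `src a` to `tgt a` and is passable on the input `x` if
`test a (x ∩ vars a)`; an arc with `vars a = ∅` and a true test is a free arc, an arc with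
`vars a = {e}` may be labelled by a literal of `e`. -/
structure BP (E V A : Type) where
  /-- tail of an arc -/
  src : A → V
  /-- head of an arc -/
  tgt : A → V
  /-- the variables tested at an arc -/
  vars : A → Finset E
  /-- the test at an arc -/
  test : A → Finset E → Prop
  /-- the start node -/
  source : V
  /-- the accepting node -/
  sink : V

/-- `B.Path v w p`: the list of arcs `p` is a path from `v` to `w`. -/
inductive BP.Path {E V A : Type} (B : BP E V A) : V → V → List A → Prop
  | nil (v : V) : B.Path v v []
  | cons (a : A) {w : V} {p : List A} (h : B.Path (B.tgt a) w p) : B.Path (B.src a) w (a :: p)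

/-- the input `x` is accepted: some path from the source to the sink is passable. -/
def BP.Accepts {E V A : Type} [DecidableEq E] (B : BP E V A) (x : Finset E) : Prop :=
  ∃ p, B.Path B.source B.sink p ∧ ∀ a ∈ p, B.test a (x ∩ B.vars a)

/-- on every path (consistent or not) the variable `e` is read at most `c e` times. -/
def BP.ReadBound {E V A : Type} [DecidableEq E] (B : BP E V A) (c : E → ℕ) : Prop :=
  ∀ v w p, B.Path v w p → ∀ e, p.countP (fun a => e ∈ B.vars a) ≤ c e

/-- every arc tests only edges that touch some set of at most `t` vertices. -/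
def BP.Local {n : ℕ} {V A : Type} (B : BP (Edge n) V A) (t : ℕ) : Prop :=
  ∀ a, ∃ S : Finset (Fin n), S.card ≤ t ∧ ∀ e ∈ B.vars a, ∃ v ∈ S, v ∈ e.1

end Pool.H35.Rc
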