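import Pool.Agent.H35.RcWeight
import Pool.Agent.H35.RcDefs

/-!
Counting of cliques (helper file for `MP_ba3460_lc`).
-/

namespace Pool.H35.Rc

open Finset

variable {n : ℕ}

/-- the edges inside `K`. -/
def inside (K : Finset (Fin n)) : Finset (Edge n) := univ.filter (fun e => e.1 ⊆ K)

lemma mem_inside {K : Finset (Fin n)} {e : Edge n} : e ∈ inside K ↔ e.1 ⊆ K := by
  simp [inside]

lemma inside_inter (K K' : Finset (Fin n)) : inside K ∩ inside K' = inside (K ∩ K') := by
  ext e
  rw [mem_inter, mem_inside, mem_inside, mem_inside, Finset.subset_inter_iff]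

lemma card_inside (K : Finset (Fin n)) : (inside K).card = K.card.choose 2 := by
  rw [← Finset.card_powersetCard]
  rw [← Finset.card_map (Function.Embedding.subtype _)]
  congr 1
  ext e
  simp only [mem_map, mem_inside, Function.Embedding.subtype_apply, mem_powersetCard]
  constructor
  · rintro ⟨a, ha, rfl⟩
    exact ⟨ha, a.2⟩
  · rintro ⟨h1, h2⟩
    exact ⟨⟨e, h2⟩, h1, rfl⟩

lemma inside_univ : inside (univ : Finset (Fin n)) = univ := by
  ext e; simp [mem_inside]

lemma card_edge : Fintype.card (Edge n) = n.choose 2 := by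
  rw [← Finset.card_univ, ← inside_univ, card_inside, Finset.card_univ, Fintype.card_fin]

/-- all `k`-sets of vertices -/
abbrev ksets (n k : ℕ) : Finset (Finset (Fin n)) := powersetCard k univ

lemma card_ksets (n k : ℕ) : (ksets n k).card = n.choose k := by
  rw [Finset.card_powersetCard, Finset.card_univ, Fintype.card_fin]

lemma pow_mul_choose_le (n k t : ℕ) (hk : k ≤ n) (ht : t ≤ k) :
    n ^ t * (n - t).choose (k - t) ≤ k ^ t * n.choose k := by
  induction t with
  | zero => simp
  | succ t ih =>
    have ih := ih (by omega)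
    have h1 : (n - t) * (n - (t+1)).choose (k - (t+1)) = (k - t) * (n - t).choose (k - t) := by
      have := Nat.add_one_mul_choose_eq (n - (t+1)) (k - (t+1))
      have e1 : (n - (t+1)) + 1 = n - t := by omega
      have e2 : (k - (t+1)) + 1 = k - t := by omega
      rw [e1, e2] at this
      rw [this, mul_comm]
    have h2 : n * (n - (t+1)).choose (k - (t+1)) ≤ k * (n - t).choose (k - t) := by
      have hnt : 0 < n - t := by omega
      apply Nat.le_of_mul_le_mul_left _ hnt
      calc (n - t) * (n * (n - (t+1)).choose (k - (t+1)))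
          = n * ((n - t) * (n - (t+1)).choose (k - (t+1))) := by ring
        _ = n * (k - t) * (n - t).choose (k - t) := by rw [h1]; ring
        _ ≤ ((n - t) * k) * (n - t).choose (k - t) := by
            apply Nat.mul_le_mul_right
            have h3 : k ≤ n := hk
            obtain ⟨a, rfl⟩ := Nat.exists_eq_add_of_le h3
            obtain ⟨b, rfl⟩ := Nat.exists_eq_add_of_le (show t ≤ k by omega)
            have e3 : t + b - t = b := by omega
            have e4 : t + b + a - t = b + a := by omega
            rw [e3, e4]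
            nlinarith
        _ = (n - t) * (k * (n - t).choose (k - t)) := by ring
    calc n ^ (t+1) * (n - (t+1)).choose (k - (t+1))
        = n ^ t * (n * (n - (t+1)).choose (k - (t+1))) := by rw [pow_succ]; ring
      _ ≤ n ^ t * (k * (n - t).choose (k - t)) := Nat.mul_le_mul_left _ h2
      _ = k * (n ^ t * (n - t).choose (k - t)) := by ring
      _ ≤ k * (k ^ t * n.choose k) := Nat.mul_le_mul_left _ ih
      _ = k ^ (t+1) * n.choose k := by rw [pow_succ]; ring

lemma sum_pow_inter_le (k : ℕ) (hk : k ≤ n) (K : Finset (Fin n)) (hK : K.card = k) :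
    ∑ K' ∈ ksets n k, n ^ (K ∩ K').card ≤ n.choose k * (k + 1) ^ k := by
  have h1 : ∀ K' ∈ ksets n k, n ^ (K ∩ K').card ≤
      ∑ t ∈ K.powerset, if t ⊆ K' then n ^ t.card else 0 := by
    intro K' _
    have : n ^ (K ∩ K').card = if K ∩ K' ⊆ K' then n ^ (K ∩ K').card else 0 := by
      rw [if_pos inter_subset_right]
    rw [this]
    exact Finset.single_le_sum (f := fun t : Finset (Fin n) => if t ⊆ K' then n ^ t.card else 0)
      (fun _ _ => Nat.zero_le _) (mem_powerset.2 inter_subset_left)
  calc ∑ K' ∈ ksets n k, n ^ (K ∩ K').card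
      ≤ ∑ K' ∈ ksets n k, ∑ t ∈ K.powerset, (if t ⊆ K' then n ^ t.card else 0) :=
        Finset.sum_le_sum h1
    _ = ∑ t ∈ K.powerset, ∑ K' ∈ ksets n k, (if t ⊆ K' then n ^ t.card else 0) :=
        Finset.sum_comm
    _ = ∑ t ∈ K.powerset, n ^ t.card * (n - t.card).choose (k - t.card) := by
        refine Finset.sum_congr rfl fun t ht => ?_
        rw [← Finset.sum_filter, Finset.sum_const, smul_eq_mul, mul_comm]
        congr 1
        have htk : t.card ≤ k := hK ▸ Finset.card_le_card (mem_powerset.1 ht)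
        rw [Finset.card_filter_powersetCard_subset t univ k (subset_univ _) htk,
          Finset.card_univ, Fintype.card_fin]
    _ ≤ ∑ t ∈ K.powerset, k ^ t.card * n.choose k := by
        refine Finset.sum_le_sum fun t ht => ?_
        have htk : t.card ≤ k := hK ▸ Finset.card_le_card (mem_powerset.1 ht)
        exact pow_mul_choose_le n k t.card hk htk
    _ = n.choose k * (k + 1) ^ k := by
        rw [← Finset.sum_mul, mul_comm]
        congr 1
        have := Finset.sum_pow_mul_eq_add_pow k 1 K
        simp only [one_pow, mul_one] at this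
        rw [this, hK]

/-- the second moment bound. -/
lemma second_moment {k : ℕ} (hk : k ≤ n) {p : ℝ} (𝒦 : Finset (Finset (Fin n)))
    (h𝒦 : 𝒦 ⊆ ksets n k) (F : Finset (Edge n)) (ρ : ℝ)
    (hF : ∀ K ∈ 𝒦, ρ * (k.choose 2 : ℝ) ≤ ((inside K ∩ F).card : ℝ))
    (hpt : ∀ t j : ℕ, t ≤ k → j ≤ t.choose 2 → (j : ℝ) ≤ (1 - ρ) * (k.choose 2 : ℝ) →
      (p⁻¹) ^ j ≤ (n : ℝ) ^ t) :
    ∑ K ∈ 𝒦, ∑ K' ∈ 𝒦, (p⁻¹) ^ ((inside K ∩ inside K') \ F).card
      ≤ (n.choose k : ℝ) ^ 2 * ((k : ℝ) + 1) ^ k := by
  have h1 : ∀ K ∈ 𝒦, ∑ K' ∈ 𝒦, (p⁻¹) ^ ((inside K ∩ inside K') \ F).card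
      ≤ (n.choose k : ℝ) * ((k : ℝ) + 1) ^ k := by
    intro K hK
    have hKc : K.card = k := by
      have := h𝒦 hK
      rw [mem_powersetCard] at this
      exact this.2
    calc ∑ K' ∈ 𝒦, (p⁻¹) ^ ((inside K ∩ inside K') \ F).card
        ≤ ∑ K' ∈ 𝒦, (n : ℝ) ^ (K ∩ K').card := by
          refine Finset.sum_le_sum fun K' _ => ?_
          apply hpt
          · rw [← hKc]; exact Finset.card_le_card inter_subset_left
          · rw [inside_inter, ← card_inside]
            exact Finset.card_le_card sdiff_subset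
          · have e1 : ((inside K ∩ inside K') \ F).card ≤ (inside K \ F).card :=
              Finset.card_le_card (Finset.sdiff_subset_sdiff inter_subset_left (le_refl _))
            have e2 : (inside K \ F).card + (inside K ∩ F).card = k.choose 2 := by
              rw [Finset.card_sdiff_add_card_inter, card_inside, hKc]
            have e3 := hF K hK
            have e4 : ((inside K \ F).card : ℝ) + ((inside K ∩ F).card : ℝ) = (k.choose 2 : ℝ) := by
              exact_mod_cast e2
            have e5 : (((inside K ∩ inside K') \ F).card : ℝ) ≤ ((inside K \ F).card : ℝ) := by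
              exact_mod_cast e1
            linarith
      _ ≤ ∑ K' ∈ ksets n k, (n : ℝ) ^ (K ∩ K').card :=
          Finset.sum_le_sum_of_subset_of_nonneg h𝒦 fun _ _ _ => by positivity
      _ = ((∑ K' ∈ ksets n k, n ^ (K ∩ K').card : ℕ) : ℝ) := by push_cast; rfl
      _ ≤ ((n.choose k * (k + 1) ^ k : ℕ) : ℝ) := by
          exact_mod_cast sum_pow_inter_le k hk K hKc
      _ = (n.choose k : ℝ) * ((k : ℝ) + 1) ^ k := by push_cast; rfl
  calc ∑ K ∈ 𝒦, ∑ K' ∈ 𝒦, (p⁻¹) ^ ((inside K ∩ inside K') \ F).card
      ≤ ∑ _K ∈ 𝒦, (n.choose k : ℝ) * ((k : ℝ) + 1) ^ k := Finset.sum_le_sum h1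
    _ = (𝒦.card : ℝ) * ((n.choose k : ℝ) * ((k : ℝ) + 1) ^ k) := by
        rw [Finset.sum_const, nsmul_eq_mul]
    _ ≤ (n.choose k : ℝ) * ((n.choose k : ℝ) * ((k : ℝ) + 1) ^ k) := by
        apply mul_le_mul_of_nonneg_right _ (by positivity)
        rw [← card_ksets]
        exact_mod_cast Finset.card_le_card h𝒦
    _ = _ := by ring

/-- the probability that the random graph has an `ℓ`-clique. -/
lemma null_le {p : ℝ} (hp0 : 0 ≤ p) (hp1 : p ≤ 1) (l : ℕ) (f : Finset (Edge n) → ℝ)
    (hf1 : ∀ x, f x ≤ 1) (hf0 : ∀ x, ¬ HasClique l x → f x ≤ 0) :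
    Ex p f ≤ (n : ℝ) ^ l * p ^ (l.choose 2) := by
  calc Ex p f ≤ Ex p (fun x => ∑ K ∈ ksets n l, if inside K ⊆ x then (1:ℝ) else 0) := by
        refine Ex_mono hp0 hp1 fun x => ?_
        by_cases h : HasClique l x
        · refine le_trans (hf1 x) ?_
          obtain ⟨K, hK, hKx⟩ := h
          have h1 : inside K ⊆ x := fun e he => hKx e (mem_inside.1 he)
          have hKm : K ∈ ksets n l := by
            rw [mem_powersetCard]; exact ⟨subset_univ _, hK⟩
          have h2 := Finset.single_le_sum (f := fun K : Finset (Fin n) =>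
            if inside K ⊆ x then (1:ℝ) else 0) (fun K _ => by split_ifs <;> norm_num) hKm
          simp only [if_pos h1] at h2
          exact h2
        · refine le_trans (hf0 x h) ?_
          exact Finset.sum_nonneg fun K _ => by split_ifs <;> norm_num
    _ = ∑ K ∈ ksets n l, p ^ (inside K).card := by
        rw [Ex_sum]
        refine Finset.sum_congr rfl fun K _ => ?_
        unfold Ex
        rw [sum_wt_superset]
    _ = (n.choose l : ℝ) * p ^ (l.choose 2) := by
        have : ∀ K ∈ ksets n l, p ^ (inside K).card = p ^ (l.choose 2) := by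
          intro K hK
          rw [mem_powersetCard] at hK
          rw [card_inside, hK.2]
        rw [Finset.sum_congr rfl this, Finset.sum_const, nsmul_eq_mul, card_ksets]
    _ ≤ (n : ℝ) ^ l * p ^ (l.choose 2) := by
        apply mul_le_mul_of_nonneg_right _ (by positivity)
        exact_mod_cast Nat.choose_le_pow n l

/-- most `k`-sets have small total degree. -/
lemma many_low (k r : ℕ) (hk2 : 2 ≤ k) (d : Edge n → ℕ)
    (hd : ∑ e, d e ≤ r * n.choose 2) :
    n.choose k ≤ 2 * ((ksets n k).filter
      (fun K => ∑ e ∈ inside K, d e ≤ 2 * r * k.choose 2)).card := by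
  have h1 : ∑ K ∈ ksets n k, ∑ e ∈ inside K, d e = (∑ e, d e) * (n - 2).choose (k - 2) := by
    have : ∀ K ∈ ksets n k, ∑ e ∈ inside K, d e = ∑ e : Edge n, if e.1 ⊆ K then d e else 0 := by
      intro K _
      rw [inside, Finset.sum_filter]
    rw [Finset.sum_congr rfl this, Finset.sum_comm, Finset.sum_mul]
    refine Finset.sum_congr rfl fun e _ => ?_
    rw [← Finset.sum_filter, Finset.sum_const, smul_eq_mul, mul_comm]
    congr 1
    rw [Finset.card_filter_powersetCard_subset e.1 univ k (subset_univ _) (by rw [e.2]; exact hk2),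
      Finset.card_univ, Fintype.card_fin, e.2]
  have h2 : ∑ K ∈ ksets n k, ∑ e ∈ inside K, d e ≤ r * (n.choose k * k.choose 2) := by
    rw [h1, Nat.choose_mul hk2]
    calc (∑ e, d e) * (n - 2).choose (k - 2) ≤ (r * n.choose 2) * (n - 2).choose (k - 2) :=
          Nat.mul_le_mul_right _ hd
      _ = _ := by ring
  have hN : 0 < k.choose 2 := Nat.choose_pos hk2
  set Bad := (ksets n k).filter (fun K => ¬ ∑ e ∈ inside K, d e ≤ 2 * r * k.choose 2) with hBad
  have h3 : Bad.card * (2 * r * k.choose 2 + 1) ≤ ∑ K ∈ ksets n k, ∑ e ∈ inside K, d e := by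
    calc Bad.card * (2 * r * k.choose 2 + 1) = ∑ _K ∈ Bad, (2 * r * k.choose 2 + 1) := by
          rw [Finset.sum_const, smul_eq_mul]
      _ ≤ ∑ K ∈ Bad, ∑ e ∈ inside K, d e := by
          refine Finset.sum_le_sum fun K hK => ?_
          rw [hBad, mem_filter] at hK
          omega
      _ ≤ _ := Finset.sum_le_sum_of_subset (filter_subset _ _)
  have h4 := Finset.card_filter_add_card_filter_not (s := ksets n k)
    (fun K => ∑ e ∈ inside K, d e ≤ 2 * r * k.choose 2)
  rw [card_ksets, ← hBad] at h4
  have h5 : 2 * Bad.card ≤ n.choose k := by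
    by_contra hcon
    push Not at hcon
    have h6 : Bad.card * (2 * r * k.choose 2 + 1) ≤ r * (n.choose k * k.choose 2) :=
      le_trans h3 h2
    have h7 : 2 * (Bad.card * (2 * r * k.choose 2 + 1)) ≤ 2 * (r * (n.choose k * k.choose 2)) :=
      Nat.mul_le_mul_left _ h6
    have h8 : 2 * (Bad.card * (2 * r * k.choose 2 + 1))
        = (2 * Bad.card) * (2 * r * k.choose 2) + 2 * Bad.card := by ring
    have h9 : 2 * (r * (n.choose k * k.choose 2)) = n.choose k * (2 * r * k.choose 2) := by ring
    have h10 : n.choose k * (2 * r * k.choose 2) ≤ (2 * Bad.card) * (2 * r * k.choose 2) :=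
      Nat.mul_le_mul_right _ hcon.le
    omega
  omega

end Pool.H35.Rc
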