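import Pool.Agent.H35.RcWeight

/-!
Random red/blue colouring of the pieces: second moment (helper file for `MP_ba3460_lc`).
-/

namespace Pool.H35.Rc

open Finset

section half

variable {J : Type} [Fintype J] [DecidableEq J]

lemma wt_half_compl (x : Finset J) : wt (1/2) xᶜ = wt (1/2) x := by
  unfold wt
  refine Finset.prod_congr rfl fun e _ => ?_
  by_cases h : e ∈ x <;> simp [h] <;> norm_num

lemma Ex_half_compl (f : Finset J → ℝ) : Ex (1/2) (fun x => f xᶜ) = Ex (1/2) f := by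
  unfold Ex
  rw [← Equiv.sum_comp (Equiv.ofBijective (compl : Finset J → Finset J) compl_bijective)
    (fun x => wt (1/2) x * f x)]
  refine Finset.sum_congr rfl fun x _ => ?_
  simp only [Equiv.ofBijective_apply]
  rw [wt_half_compl]

variable {E : Type} [DecidableEq E]

/-- number of elements of `T` all of whose pieces are in `x`. -/
noncomputable def cnt (I : E → Finset J) (T : Finset E) (x : Finset J) : ℝ :=
  ∑ e ∈ T, if I e ⊆ x then (1:ℝ) else 0

lemma Ex_cnt (I : E → Finset J) (T : Finset E) :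
    Ex (1/2) (cnt I T) = ∑ e ∈ T, (1/2 : ℝ) ^ (I e).card := by
  unfold cnt
  rw [Ex_sum]
  refine Finset.sum_congr rfl fun e _ => ?_
  unfold Ex
  rw [sum_wt_superset]

lemma Ex_cnt_sq (I : E → Finset J) (T : Finset E) :
    Ex (1/2) (fun x => cnt I T x ^ 2)
      = ∑ e ∈ T, ∑ e' ∈ T, (1/2 : ℝ) ^ (I e ∪ I e').card := by
  have h : ∀ x, cnt I T x ^ 2 = ∑ e ∈ T, ∑ e' ∈ T, if I e ∪ I e' ⊆ x then (1:ℝ) else 0 := by
    intro x
    unfold cnt
    rw [sq, Finset.sum_mul_sum]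
    refine Finset.sum_congr rfl fun e _ => Finset.sum_congr rfl fun e' _ => ?_
    by_cases h1 : I e ⊆ x
    · by_cases h2 : I e' ⊆ x
      · rw [if_pos h1, if_pos h2, if_pos (Finset.union_subset h1 h2)]; ring
      · rw [if_neg h2, if_neg (fun h => h2 (Finset.union_subset_right h))]; ring
    · rw [if_neg h1, if_neg (fun h => h1 (Finset.union_subset_left h))]; ring
  rw [Ex_congr h, Ex_sum]
  refine Finset.sum_congr rfl fun e _ => ?_
  rw [Ex_sum]
  refine Finset.sum_congr rfl fun e' _ => ?_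
  unfold Ex
  rw [sum_wt_superset]

lemma var_le (I : E → Finset J) (T : Finset E) (w : ℝ)
    (hw : ((T ×ˢ T).filter (fun z => ¬ Disjoint (I z.1) (I z.2))).card ≤ w) :
    Ex (1/2) (fun x => (cnt I T x - Ex (1/2) (cnt I T)) ^ 2) ≤ w := by
  set μ := Ex (1/2) (cnt I T) with hμ
  have h1 : Ex (1/2) (fun x => (cnt I T x - μ) ^ 2)
      = Ex (1/2) (fun x => cnt I T x ^ 2) - μ ^ 2 := by
    have : ∀ x, (cnt I T x - μ) ^ 2 = cnt I T x ^ 2 + ((-2 * μ) * cnt I T x + μ ^ 2) := by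
      intro x; ring
    rw [Ex_congr this, Ex_add, Ex_add, Ex_mul_left, Ex_const, ← hμ]
    ring
  rw [h1, Ex_cnt_sq]
  have h2 : μ ^ 2 = ∑ e ∈ T, ∑ e' ∈ T, (1/2 : ℝ) ^ (I e).card * (1/2 : ℝ) ^ (I e').card := by
    rw [hμ, Ex_cnt, sq, Finset.sum_mul_sum]
  rw [h2, ← Finset.sum_sub_distrib]
  simp_rw [← Finset.sum_sub_distrib]
  refine le_trans ?_ hw
  rw [Finset.card_filter, Finset.sum_product]
  push_cast
  refine Finset.sum_le_sum fun e _ => Finset.sum_le_sum fun e' _ => ?_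
  by_cases hd : Disjoint (I e) (I e')
  · rw [Finset.card_union_of_disjoint hd, pow_add]
    simp [hd]
  · rw [if_pos hd]
    have h3 : (1/2 : ℝ) ^ (I e ∪ I e').card ≤ 1 := pow_le_one₀ (by norm_num) (by norm_num)
    have h4 : (0:ℝ) ≤ (1/2 : ℝ) ^ (I e).card * (1/2 : ℝ) ^ (I e').card := by positivity
    linarith

lemma exists_good (I : E → Finset J) (T : Finset E) (w μ₀ : ℝ)
    (hw : ((T ×ˢ T).filter (fun z => ¬ Disjoint (I z.1) (I z.2))).card ≤ w)
    (h0 : 0 ≤ μ₀) (hμ : μ₀ ≤ ∑ e ∈ T, (1/2 : ℝ) ^ (I e).card) (h8 : 8 * w < μ₀ ^ 2) :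
    ∃ x : Finset J, μ₀ / 2 ≤ cnt I T x ∧ μ₀ / 2 ≤ cnt I T xᶜ := by
  by_contra hcon
  push Not at hcon
  set μ := Ex (1/2) (cnt I T) with hμd
  have hμ' : μ₀ ≤ μ := by rw [hμd, Ex_cnt]; exact hμ
  have hvar := var_le I T w hw
  rw [← hμd] at hvar
  have hvar2 : Ex (1/2) (fun x => (cnt I T xᶜ - μ) ^ 2) ≤ w := by
    have := Ex_half_compl (fun x => (cnt I T x - μ) ^ 2)
    rw [this]; exact hvar
  have hlow : ∀ x, μ ^ 2 / 4 ≤ (cnt I T x - μ) ^ 2 + (cnt I T xᶜ - μ) ^ 2 := by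
    intro x
    by_cases hx : μ₀ / 2 ≤ cnt I T x
    · have h2 := hcon x hx
      have h3 : cnt I T xᶜ < μ / 2 := by linarith
      have h4 : 0 < μ - cnt I T xᶜ := by linarith
      have : μ ^ 2 / 4 ≤ (cnt I T xᶜ - μ) ^ 2 := by nlinarith
      nlinarith [sq_nonneg (cnt I T x - μ)]
    · have h3 : cnt I T x < μ / 2 := by linarith
      have h4 : 0 < μ - cnt I T x := by linarith
      have : μ ^ 2 / 4 ≤ (cnt I T x - μ) ^ 2 := by nlinarith
      nlinarith [sq_nonneg (cnt I T xᶜ - μ)]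
  have h5 : μ ^ 2 / 4 ≤ w + w := by
    calc μ ^ 2 / 4 = Ex (E := J) (1/2) (fun _ => μ ^ 2 / 4) := (Ex_const _ _).symm
      _ ≤ Ex (1/2) (fun x => (cnt I T x - μ) ^ 2 + (cnt I T xᶜ - μ) ^ 2) :=
          Ex_mono (by norm_num) (by norm_num) hlow
      _ = _ := Ex_add _ _ _
      _ ≤ w + w := add_le_add hvar hvar2
  nlinarith

end half

/-- The colouring lemma.  `W j` is the set of elements of the piece `j`.  Every element of `T`
is in at most `q` pieces, every piece has at most `τ` elements of `T`, and the total number of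
incidences is at most `D`. -/
lemma exists_coloring {J E : Type} [Fintype J] [DecidableEq J] [DecidableEq E]
    (W : J → Finset E) (T : Finset E) (q : ℕ)
    (hq : ∀ e ∈ T, (univ.filter (fun j => e ∈ W j)).card ≤ q)
    (τ D : ℝ) (hτ0 : 0 ≤ τ) (hτ : ∀ j, ((W j ∩ T).card : ℝ) ≤ τ)
    (hD : ((∑ j, (W j ∩ T).card : ℕ) : ℝ) ≤ D)
    (h8 : 8 * (τ * D) < ((T.card : ℝ) / 2 ^ q) ^ 2) :
    ∃ c : Finset J, ∃ T₁ T₂ : Finset E, T₁ ⊆ T ∧ T₂ ⊆ T ∧
      (T.card : ℝ) / 2 ^ q / 2 ≤ T₁.card ∧ (T.card : ℝ) / 2 ^ q / 2 ≤ T₂.card ∧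
      (∀ e ∈ T₁, ∀ j, e ∈ W j → j ∈ c) ∧ (∀ e ∈ T₂, ∀ j, e ∈ W j → j ∉ c) := by
  set I : E → Finset J := fun e => univ.filter (fun j => e ∈ W j) with hI
  have hw : (((T ×ˢ T).filter (fun z => ¬ Disjoint (I z.1) (I z.2))).card : ℝ) ≤ τ * D := by
    have h1 : (T ×ˢ T).filter (fun z => ¬ Disjoint (I z.1) (I z.2))
        ⊆ (univ : Finset J).biUnion (fun j => (W j ∩ T) ×ˢ (W j ∩ T)) := by
      intro z hz
      rw [mem_filter, mem_product] at hz
      obtain ⟨⟨hz1, hz2⟩, hd⟩ := hz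
      rw [Finset.not_disjoint_iff] at hd
      obtain ⟨j, hj1, hj2⟩ := hd
      simp only [hI, mem_filter, mem_univ, true_and] at hj1 hj2
      rw [mem_biUnion]
      exact ⟨j, mem_univ _, by simp [hj1, hj2, hz1, hz2]⟩
    have h2 : ((T ×ˢ T).filter (fun z => ¬ Disjoint (I z.1) (I z.2))).card
        ≤ ∑ j, (W j ∩ T).card * (W j ∩ T).card := by
      refine le_trans (Finset.card_le_card h1) (le_trans Finset.card_biUnion_le ?_)
      exact Finset.sum_le_sum fun j _ => by rw [card_product]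
    calc (((T ×ˢ T).filter (fun z => ¬ Disjoint (I z.1) (I z.2))).card : ℝ)
        ≤ ((∑ j, (W j ∩ T).card * (W j ∩ T).card : ℕ) : ℝ) := by exact_mod_cast h2
      _ = ∑ j, ((W j ∩ T).card : ℝ) * ((W j ∩ T).card : ℝ) := by push_cast; rfl
      _ ≤ ∑ j, τ * ((W j ∩ T).card : ℝ) := by
          refine Finset.sum_le_sum fun j _ => ?_
          exact mul_le_mul_of_nonneg_right (hτ j) (by positivity)
      _ = τ * ((∑ j, (W j ∩ T).card : ℕ) : ℝ) := by rw [← Finset.mul_sum]; push_cast; rfl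
      _ ≤ τ * D := mul_le_mul_of_nonneg_left hD hτ0
  have hμ : (T.card : ℝ) / 2 ^ q ≤ ∑ e ∈ T, (1/2 : ℝ) ^ (I e).card := by
    calc (T.card : ℝ) / 2 ^ q = ∑ _e ∈ T, (1/2 : ℝ) ^ q := by
          rw [Finset.sum_const, nsmul_eq_mul, one_div, inv_pow, div_eq_mul_inv]
      _ ≤ _ := by
          refine Finset.sum_le_sum fun e he => ?_
          exact pow_le_pow_of_le_one (by norm_num) (by norm_num) (hq e he)
  obtain ⟨x, hx1, hx2⟩ := exists_good I T (τ * D) ((T.card : ℝ) / 2 ^ q) hw (by positivity) hμ h8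
  have hc : ∀ y : Finset J, cnt I T y = (T.filter (fun e => ∀ j, e ∈ W j → j ∈ y)).card := by
    intro y
    unfold cnt
    rw [Finset.card_filter]
    push_cast
    refine Finset.sum_congr rfl fun e _ => ?_
    have : I e ⊆ y ↔ ∀ j, e ∈ W j → j ∈ y := by
      simp only [hI, Finset.subset_iff, mem_filter, mem_univ, true_and]
    simp only [this]
  refine ⟨x, T.filter (fun e => ∀ j, e ∈ W j → j ∈ x), T.filter (fun e => ∀ j, e ∈ W j → j ∈ xᶜ),
    filter_subset _ _, filter_subset _ _, ?_, ?_, ?_, ?_⟩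
  · rw [← hc]; exact hx1
  · rw [← hc]; exact hx2
  · intro e he
    exact (mem_filter.1 he).2
  · intro e he j hj
    have := (mem_filter.1 he).2 j hj
    exact mem_compl.1 this

end Pool.H35.Rc
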