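import Pool.Agent.H35.RcWeight
import Pool.Agent.H35.RcDefs

/-!
Decomposition of proof trees into few pieces (helper file for `MP_ba3460_lc`).
-/

namespace Pool.H35.Rc

open Finset

variable {E G : Type} [DecidableEq E]

/-- there is a partial proof tree from `g` with one open leaf `u`. -/
inductive Hole (C : Circuit E G) (x : Finset E) (u : G) : G → Prop
  | refl : Hole C x u u
  | or {g : G} {S : Finset G} {c : G} (h : C.kind g = .or S) (hc : c ∈ S) (hh : Hole C x u c) :
      Hole C x u g
  | left {g a b : G} (h : C.kind g = .and a b) (ha : Hole C x u a) (hb : C.Holds x b) :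
      Hole C x u g
  | right {g a b : G} (h : C.kind g = .and a b) (ha : C.Holds x a) (hb : Hole C x u b) :
      Hole C x u g

/-- truth with bounded height. -/
def HoldsH (C : Circuit E G) (x : Finset E) : ℕ → G → Prop
  | 0, _ => False
  | h + 1, g => match C.kind g with
    | .leaf F P => P (x ∩ F)
    | .and a b => HoldsH C x h a ∧ HoldsH C x h b
    | .or S => ∃ c ∈ S, HoldsH C x h c

lemma HoldsH.succ {C : Circuit E G} {x : Finset E} : ∀ {h : ℕ} {g : G}, HoldsH C x h g →
    HoldsH C x (h + 1) g := by
  intro h
  induction h with
  | zero => intro g hg; exact absurd hg (by simp [HoldsH])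
  | succ h ih =>
    intro g hg
    rw [HoldsH] at hg ⊢
    cases hk : C.kind g with
    | leaf F P => simp only [hk] at hg ⊢; exact hg
    | and a b => simp only [hk] at hg ⊢; exact ⟨ih hg.1, ih hg.2⟩
    | or S =>
      simp only [hk] at hg ⊢
      obtain ⟨c, hc, hh⟩ := hg
      exact ⟨c, hc, ih hh⟩

lemma HoldsH.mono {C : Circuit E G} {x : Finset E} {h h' : ℕ} (hh : h ≤ h') {g : G}
    (hg : HoldsH C x h g) : HoldsH C x h' g := by
  induction hh with
  | refl => exact hg
  | step _ ih => exact ih.succ

lemma HoldsH.holds {C : Circuit E G} {x : Finset E} : ∀ {h : ℕ} {g : G}, HoldsH C x h g →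
    C.Holds x g := by
  intro h
  induction h with
  | zero => intro g hg; exact absurd hg (by simp [HoldsH])
  | succ h ih =>
    intro g hg
    rw [HoldsH] at hg
    cases hk : C.kind g with
    | leaf F P => simp only [hk] at hg; exact .leaf hk hg
    | and a b => simp only [hk] at hg; exact .and hk (ih hg.1) (ih hg.2)
    | or S =>
      simp only [hk] at hg
      obtain ⟨c, hc, hh⟩ := hg
      exact .or hk hc (ih hh)

lemma exists_holdsH {C : Circuit E G} {x : Finset E} {g : G} (hg : C.Holds x g) :
    ∃ h, HoldsH C x h g := by
  induction hg with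
  | leaf h hP => exact ⟨1, by rw [HoldsH]; simp only [h]; exact hP⟩
  | and h ha hb iha ihb =>
    obtain ⟨i, hi⟩ := iha
    obtain ⟨j, hj⟩ := ihb
    refine ⟨max i j + 1, ?_⟩
    rw [HoldsH]; simp only [h]
    exact ⟨hi.mono (le_max_left _ _), hj.mono (le_max_right _ _)⟩
  | or h hc hh ih =>
    obtain ⟨i, hi⟩ := ih
    refine ⟨i + 1, ?_⟩
    rw [HoldsH]; simp only [h]
    exact ⟨_, hc, hi⟩

lemma Hole.sound {C : Circuit E G} {x : Finset E} {u g : G} (h : Hole C x u g)
    (hu : C.Holds x u) : C.Holds x g := by
  induction h with
  | refl => exact hu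
  | or h hc _ ih => exact .or h hc ih
  | left h _ hb ih => exact .and h ih hb
  | right h ha _ ih => exact .and h ha ih

lemma Hole.trans {C : Circuit E G} {x : Finset E} {u v g : G} (h : Hole C x u g)
    (hu : Hole C x v u) : Hole C x v g := by
  induction h with
  | refl => exact hu
  | or h hc _ ih => exact .or h hc ih
  | left h _ hb ih => exact .left h ih hb
  | right h ha _ ih => exact .right h ha ih

lemma Hole.deg_le {C : Circuit E G} {x : Finset E} {d : G → E → ℕ} (hd : C.DegBound d)
    {u g : G} (h : Hole C x u g) (e : E) : d u e ≤ d g e := by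
  induction h with
  | refl => exact le_refl _
  | or h hc _ ih => exact le_trans ih (hd.or _ _ h _ hc e)
  | left h _ _ ih => have := hd.and _ _ _ h e; omega
  | right h _ _ ih => have := hd.and _ _ _ h e; omega

/-- the value of a gate depends only on the variables of positive degree. -/
lemma holds_congr {C : Circuit E G} {d : G → E → ℕ} (hd : C.DegBound d) {x y : Finset E} {g : G}
    (h : C.Holds x g) (hxy : ∀ e, 0 < d g e → (e ∈ x ↔ e ∈ y)) : C.Holds y g := by
  induction h with
  | @leaf g F P h hP =>
    refine .leaf h ?_
    have : y ∩ F = x ∩ F := by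
      ext e
      rw [mem_inter, mem_inter]
      constructor
      · rintro ⟨h1, h2⟩
        exact ⟨(hxy e (hd.leaf _ _ _ h e h2)).2 h1, h2⟩
      · rintro ⟨h1, h2⟩
        exact ⟨(hxy e (hd.leaf _ _ _ h e h2)).1 h1, h2⟩
    rw [this]; exact hP
  | and h _ _ iha ihb =>
    have hand := hd.and _ _ _ h
    exact .and h (iha fun e he => hxy e (by have := hand e; omega))
      (ihb fun e he => hxy e (by have := hand e; omega))
  | or h hc _ ih =>
    exact .or h hc (ih fun e he => hxy e (lt_of_lt_of_le he (hd.or _ _ h _ hc e)))

lemma Hole.congr {C : Circuit E G} {d : G → E → ℕ} (hd : C.DegBound d) {x y : Finset E}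
    {u g : G} (h : Hole C x u g) (hxy : ∀ e, d u e < d g e → (e ∈ x ↔ e ∈ y)) :
    Hole C y u g := by
  induction h with
  | refl => exact .refl
  | or h hc _ ih =>
    exact .or h hc (ih fun e he => hxy e (lt_of_lt_of_le he (hd.or _ _ h _ hc e)))
  | left h ha hb ih =>
    have hand := hd.and _ _ _ h
    have hle := ha.deg_le hd
    refine .left h (ih fun e he => hxy e (by have := hand e; omega)) ?_
    exact holds_congr hd hb fun e he => hxy e (by have := hand e; have := hle e; omega)
  | right h ha hb ih =>
    have hand := hd.and _ _ _ h
    have hle := hb.deg_le hd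
    refine .right h ?_ (ih fun e he => hxy e (by have := hand e; omega))
    exact holds_congr hd ha fun e he => hxy e (by have := hand e; have := hle e; omega)

/-- A piece: a pair of a gate and possibly an open leaf. -/
abbrev Piece (G : Type) : Type := G × Option G

/-- the piece holds on `x`. -/
def PHolds (C : Circuit E G) (x : Finset E) : Piece G → Prop
  | (g, none) => C.Holds x g
  | (g, some u) => Hole C x u g

variable [Fintype E]

/-- the variables of a piece -/
def pvar (C : Circuit E G) (d : G → E → ℕ) : Piece G → Finset E
  | (g, none) => match C.kind g with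
    | .leaf F _ => F
    | _ => univ.filter (fun e => 0 < d g e)
  | (g, some u) => univ.filter (fun e => d u e < d g e)

lemma pholds_congr {C : Circuit E G} {d : G → E → ℕ} (hd : C.DegBound d) {x y : Finset E}
    {π : Piece G} (h : PHolds C x π) (hxy : ∀ e ∈ pvar C d π, (e ∈ x ↔ e ∈ y)) :
    PHolds C y π := by
  obtain ⟨g, _ | u⟩ := π
  · unfold PHolds at h ⊢
    unfold pvar at hxy
    cases hk : C.kind g with
    | leaf F P =>
      simp only [hk] at hxy
      refine .leaf hk ?_
      have hP : P (x ∩ F) := by
        cases h with
        | leaf h' hP =>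
          rw [hk] at h'
          cases h'
          exact hP
        | and h' _ _ => rw [hk] at h'; cases h'
        | or h' _ _ => rw [hk] at h'; cases h'
      have : y ∩ F = x ∩ F := by
        ext e
        rw [mem_inter, mem_inter]
        constructor
        · rintro ⟨h1, h2⟩
          exact ⟨(hxy e h2).2 h1, h2⟩
        · rintro ⟨h1, h2⟩
          exact ⟨(hxy e h2).1 h1, h2⟩
      rw [this]; exact hP
    | and a b =>
      simp only [hk] at hxy
      exact holds_congr hd h fun e he => hxy e (by simp [he])
    | or S =>
      simp only [hk] at hxy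
      exact holds_congr hd h fun e he => hxy e (by simp [he])
  · unfold PHolds at h ⊢
    unfold pvar at hxy
    exact h.congr hd fun e he => hxy e (by simp [he])

/-- The decomposition: `L` is a list of pieces for the gate `g`. -/
structure Good (C : Circuit E G) (d : G → E → ℕ) (T : Finset E) (τ : ℕ) (x : Finset E) (g : G)
    (L : List (Piece G)) : Prop where
  holds : ∀ π ∈ L, PHolds C x π
  sound : ∀ y, (∀ π ∈ L, PHolds C y π) → C.Holds y g
  mult : ∀ e, (L.map (fun π => if e ∈ pvar C d π then 1 else 0)).sum ≤ d g e
  small : ∀ π ∈ L, (pvar C d π ∩ T).card ≤ τ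
  len : (∑ e ∈ T, d g e ≤ τ ∧ L.length ≤ 1) ∨
    (τ < ∑ e ∈ T, d g e ∧ (L.length + 1) * τ ≤ 4 * ∑ e ∈ T, d g e)

lemma card_filter_le_sum (T : Finset E) (f : E → ℕ) :
    (univ.filter (fun e => 0 < f e) ∩ T).card ≤ ∑ e ∈ T, f e := by
  calc (univ.filter (fun e => 0 < f e) ∩ T).card = ∑ _e ∈ univ.filter (fun e => 0 < f e) ∩ T, 1 := by
        rw [Finset.sum_const, smul_eq_mul, mul_one]
    _ ≤ ∑ e ∈ univ.filter (fun e => 0 < f e) ∩ T, f e := by
        refine Finset.sum_le_sum fun e he => ?_
        rw [mem_inter, mem_filter] at he
        exact he.1.2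
    _ ≤ _ := Finset.sum_le_sum_of_subset inter_subset_right

lemma exists_good_list {C : Circuit E G} {d : G → E → ℕ} (hd : C.DegBound d) (T : Finset E)
    (τ : ℕ) (hleaf : ∀ g F P, C.kind g = .leaf F P → (F ∩ T).card ≤ τ) (x : Finset E) :
    ∀ (h : ℕ) (g : G), HoldsH C x h g → ∃ L, Good C d T τ x g L := by
  intro h
  induction h using Nat.strong_induction_on with
  | _ h ih =>
  intro g hg
  set D : G → ℕ := fun g => ∑ e ∈ T, d g e with hD
  by_cases hsmall : D g ≤ τ
  · -- one piece
    refine ⟨[(g, none)], ?_, ?_, ?_, ?_, ?_⟩
    · intro π hπ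
      rw [List.mem_singleton] at hπ
      rw [hπ]
      exact hg.holds
    · intro y hy
      exact hy (g, none) (List.mem_singleton.2 rfl)
    · intro e
      simp only [List.map_cons, List.map_nil, List.sum_cons, List.sum_nil, add_zero]
      split_ifs with he
      · unfold pvar at he
        cases hk : C.kind g with
        | leaf F P => simp only [hk] at he; exact hd.leaf _ _ _ hk e he
        | and a b => simp only [hk] at he; exact (by simpa using he : 0 < d g e)
        | or S => simp only [hk] at he; exact (by simpa using he : 0 < d g e)
      · exact Nat.zero_le _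
    · intro π hπ
      rw [List.mem_singleton] at hπ
      rw [hπ]
      unfold pvar
      cases hk : C.kind g with
      | leaf F P => simp only [hk]; exact hleaf _ _ _ hk
      | and a b => simp only [hk]; exact le_trans (card_filter_le_sum T (d g)) hsmall
      | or S => simp only [hk]; exact le_trans (card_filter_le_sum T (d g)) hsmall
    · left
      exact ⟨hsmall, by simp⟩
  · -- choose the open leaf `u` of minimal height
    push Not at hsmall
    have hex : ∃ j, ∃ u, Hole C x u g ∧ HoldsH C x j u ∧ D g ≤ D u + τ :=
      ⟨h, g, .refl, hg, Nat.le_add_right _ _⟩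
    classical
    set j := Nat.find hex with hj
    obtain ⟨u, hu1, hu2, hu3⟩ := Nat.find_spec hex
    have hmin : ∀ i < j, ∀ c, Hole C x c g → HoldsH C x i c → D c + τ < D g := by
      intro i hi c h1 h2
      by_contra hcon
      push Not at hcon
      exact Nat.find_min hex hi ⟨c, h1, h2, hcon⟩
    have hjh : j ≤ h := Nat.find_min' hex ⟨g, .refl, hg, Nat.le_add_right _ _⟩
    rw [← hj] at hu2
    have hpiece : (pvar C d (g, some u) ∩ T).card ≤ τ := by
      unfold pvar
      have h1 : (univ.filter (fun e => d u e < d g e) ∩ T)
          = (univ.filter (fun e => 0 < (fun e => d g e - d u e) e) ∩ T) := by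
        ext e; simp
      rw [h1]
      refine le_trans (card_filter_le_sum T _) ?_
      have h2 : ∑ e ∈ T, (d g e - d u e) + D u = D g := by
        rw [hD]
        simp only
        rw [← Finset.sum_add_distrib]
        refine Finset.sum_congr rfl fun e _ => ?_
        have := hu1.deg_le hd e
        omega
      have h3 : D g ≤ D u + τ := hu3
      omega
    have hcount : ∀ e, (if e ∈ pvar C d (g, some u) then 1 else 0) + d u e ≤ d g e := by
      intro e
      have := hu1.deg_le hd e
      unfold pvar
      split_ifs with he
      · simp at he; omega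
      · omega
    have hDu : D u ≤ D g := Finset.sum_le_sum fun e _ => hu1.deg_le hd e
    obtain ⟨j', hj'⟩ : ∃ j', j = j' + 1 := by
      cases hjj : j with
      | zero => rw [hjj] at hu2; exact absurd hu2 (by simp [HoldsH])
      | succ j' => exact ⟨j', rfl⟩
    rw [hj', HoldsH] at hu2
    cases hk : C.kind u with
    | leaf F P =>
      simp only [hk] at hu2
      refine ⟨[(g, some u), (u, none)], ?_, ?_, ?_, ?_, ?_⟩
      · intro π hπ
        rw [List.mem_cons, List.mem_singleton] at hπ
        rcases hπ with rfl | rfl
        · exact hu1
        · exact Circuit.Holds.leaf hk hu2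
      · intro y hy
        have h1 : Hole C y u g := hy (g, some u) (by simp)
        have h2 : C.Holds y u := hy (u, none) (by simp)
        exact h1.sound h2
      · intro e
        simp only [List.map_cons, List.map_nil, List.sum_cons, List.sum_nil, add_zero]
        have h1 := hcount e
        have h2 : (if e ∈ pvar C d (u, none) then 1 else 0) ≤ d u e := by
          split_ifs with he
          · unfold pvar at he
            simp only [hk] at he
            exact hd.leaf _ _ _ hk e he
          · exact Nat.zero_le _
        omega
      · intro π hπ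
        rw [List.mem_cons, List.mem_singleton] at hπ
        rcases hπ with rfl | rfl
        · exact hpiece
        · unfold pvar
          simp only [hk]
          exact hleaf _ _ _ hk
      · right
        refine ⟨hsmall, ?_⟩
        simp only [List.length_cons, List.length_nil]
        have : D g = ∑ e ∈ T, d g e := rfl
        omega
    | or S =>
      simp only [hk] at hu2
      obtain ⟨c, hc, hch⟩ := hu2
      obtain ⟨L, hL⟩ := ih j' (by omega) c hch
      have hcg : Hole C x c g := hu1.trans (.or hk hc .refl)
      have hDc : D c + τ < D g := hmin j' (by omega) c hcg hch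
      refine ⟨(g, some u) :: L, ?_, ?_, ?_, ?_, ?_⟩
      · intro π hπ
        rw [List.mem_cons] at hπ
        rcases hπ with rfl | hπ
        · exact hu1
        · exact hL.holds π hπ
      · intro y hy
        have h1 : Hole C y u g := hy (g, some u) (by simp)
        have h2 : C.Holds y c := hL.sound y fun π hπ => hy π (List.mem_cons_of_mem _ hπ)
        exact h1.sound (.or hk hc h2)
      · intro e
        simp only [List.map_cons, List.sum_cons]
        have h1 := hcount e
        have h2 := hL.mult e
        have h3 := hd.or _ _ hk _ hc e
        omega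
      · intro π hπ
        rw [List.mem_cons] at hπ
        rcases hπ with rfl | hπ
        · exact hpiece
        · exact hL.small π hπ
      · right
        refine ⟨hsmall, ?_⟩
        simp only [List.length_cons]
        have e1 : D g = ∑ e ∈ T, d g e := rfl
        have e2 : D c = ∑ e ∈ T, d c e := rfl
        rw [← e1]
        rcases hL.len with ⟨h1, h2⟩ | ⟨h1, h2⟩
        · rw [← e2] at h1
          have : (L.length + 1 + 1) * τ ≤ 3 * τ := Nat.mul_le_mul_right _ (by omega)
          omega
        · rw [← e2] at h2
          have : (L.length + 1 + 1) * τ = (L.length + 1) * τ + τ := by ring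
          omega
    | and a b =>
      simp only [hk] at hu2
      obtain ⟨hah, hbh⟩ := hu2
      obtain ⟨La, hLa⟩ := ih j' (by omega) a hah
      obtain ⟨Lb, hLb⟩ := ih j' (by omega) b hbh
      have hag : Hole C x a g := hu1.trans (.left hk .refl hbh.holds)
      have hbg : Hole C x b g := hu1.trans (.right hk hah.holds .refl)
      have hDa : D a + τ < D g := hmin j' (by omega) a hag hah
      have hDb : D b + τ < D g := hmin j' (by omega) b hbg hbh
      have hDab : D a + D b ≤ D u := by
        rw [hD]
        simp only
        rw [← Finset.sum_add_distrib]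
        exact Finset.sum_le_sum fun e _ => hd.and _ _ _ hk e
      refine ⟨(g, some u) :: (La ++ Lb), ?_, ?_, ?_, ?_, ?_⟩
      · intro π hπ
        rw [List.mem_cons, List.mem_append] at hπ
        rcases hπ with rfl | hπ | hπ
        · exact hu1
        · exact hLa.holds π hπ
        · exact hLb.holds π hπ
      · intro y hy
        have h1 : Hole C y u g := hy (g, some u) (by simp)
        have h2 : C.Holds y a := hLa.sound y fun π hπ =>
          hy π (List.mem_cons_of_mem _ (List.mem_append_left _ hπ))
        have h3 : C.Holds y b := hLb.sound y fun π hπ =>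
          hy π (List.mem_cons_of_mem _ (List.mem_append_right _ hπ))
        exact h1.sound (.and hk h2 h3)
      · intro e
        simp only [List.map_cons, List.sum_cons, List.map_append, List.sum_append]
        have h1 := hcount e
        have h2 := hLa.mult e
        have h3 := hLb.mult e
        have h4 := hd.and _ _ _ hk e
        omega
      · intro π hπ
        rw [List.mem_cons, List.mem_append] at hπ
        rcases hπ with rfl | hπ | hπ
        · exact hpiece
        · exact hLa.small π hπ
        · exact hLb.small π hπ
      · right
        refine ⟨hsmall, ?_⟩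
        simp only [List.length_cons, List.length_append]
        have e1 : D g = ∑ e ∈ T, d g e := rfl
        have e2 : D a = ∑ e ∈ T, d a e := rfl
        have e3 : D b = ∑ e ∈ T, d b e := rfl
        rw [← e1]
        rcases hLa.len with ⟨h1, h2⟩ | ⟨h1, h2⟩
        · rcases hLb.len with ⟨h3, h4⟩ | ⟨h3, h4⟩
          · have : (La.length + Lb.length + 1 + 1) * τ ≤ 4 * τ := Nat.mul_le_mul_right _ (by omega)
            omega
          · rw [← e3] at h4
            have : (La.length + Lb.length + 1 + 1) * τ ≤ (1 + Lb.length + 1 + 1) * τ :=
              Nat.mul_le_mul_right _ (by omega)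
            have h5 : (1 + Lb.length + 1 + 1) * τ = (Lb.length + 1) * τ + 2 * τ := by ring
            omega
        · rcases hLb.len with ⟨h3, h4⟩ | ⟨h3, h4⟩
          · rw [← e2] at h2
            have : (La.length + Lb.length + 1 + 1) * τ ≤ (La.length + 1 + 1 + 1) * τ :=
              Nat.mul_le_mul_right _ (by omega)
            have h5 : (La.length + 1 + 1 + 1) * τ = (La.length + 1) * τ + 2 * τ := by ring
            omega
          · rw [← e2] at h2
            rw [← e3] at h4
            have h5 : (La.length + Lb.length + 1 + 1) * τ
                = (La.length + 1) * τ + (Lb.length + 1) * τ := by ring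
            omega

end Pool.H35.Rc
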