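import Pool.Agent.H35.RcMain

/-!
The lower bound for circuits (helper file for `MP_ba3460_lc`).
-/

namespace Pool.H35.Rc

open Finset

lemma exponent_le {k l t j : ℕ} {ρ ε : ℝ} (hk : 2 ≤ k) (hl : 2 ≤ l)
    (hρ1 : ρ ≤ 1) (hε0 : 0 ≤ ε) (htk : t ≤ k) (hj : j ≤ t.choose 2)
    (hj2 : (j : ℝ) ≤ (1 - ρ) * (k.choose 2 : ℝ))
    (hgap : (1 + ε) ^ 2 * (1 - ρ) * ((k : ℝ) - 1) ^ 2 ≤ ((l : ℝ) - 1) ^ 2) :
    (2 * (1 + ε) / ((l : ℝ) - 1)) * j ≤ t := by
  have hl1 : (0:ℝ) < (l : ℝ) - 1 := by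
    have : (2:ℝ) ≤ l := by exact_mod_cast hl
    linarith
  have hk1 : (0:ℝ) < (k : ℝ) - 1 := by
    have : (2:ℝ) ≤ k := by exact_mod_cast hk
    linarith
  have hj1 : (j : ℝ) ≤ (t : ℝ) * ((t : ℝ) - 1) / 2 := by
    rw [← Nat.cast_choose_two]
    exact_mod_cast hj
  rw [Nat.cast_choose_two] at hj2
  have hj0 : (0:ℝ) ≤ j := by positivity
  have htk' : (t : ℝ) ≤ k := by exact_mod_cast htk
  have ht0 : (0:ℝ) ≤ t := by positivity
  have htt : (0:ℝ) ≤ (t : ℝ) * ((t : ℝ) - 1) / 2 := le_trans hj0 hj1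
  have h1ρ : 0 ≤ 1 - ρ := by linarith
  have hsq : (j : ℝ) ^ 2 ≤ ((t : ℝ) * ((t : ℝ) - 1) / 2) * ((1 - ρ) * ((k : ℝ) * ((k : ℝ) - 1) / 2)) := by
    rw [sq]
    exact mul_le_mul hj1 hj2 hj0 htt
  rw [div_mul_eq_mul_div, div_le_iff₀ hl1]
  apply le_of_sq_le_sq _ (by positivity)
  -- `(2 (1+ε) j)^2 ≤ (t (l-1))^2`
  have h2 : (2 * (1 + ε) * (j : ℝ)) ^ 2 ≤
      (1 + ε) ^ 2 * (1 - ρ) * ((t : ℝ) * ((t : ℝ) - 1)) * ((k : ℝ) * ((k : ℝ) - 1)) := by
    calc (2 * (1 + ε) * (j : ℝ)) ^ 2 = 4 * (1 + ε) ^ 2 * (j : ℝ) ^ 2 := by ring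
      _ ≤ 4 * (1 + ε) ^ 2 * (((t : ℝ) * ((t : ℝ) - 1) / 2) *
            ((1 - ρ) * ((k : ℝ) * ((k : ℝ) - 1) / 2))) := by
          apply mul_le_mul_of_nonneg_left hsq (by positivity)
      _ = _ := by ring
  refine le_trans h2 ?_
  have h3 : ((1 + ε) ^ 2 * (1 - ρ) * ((t : ℝ) * ((t : ℝ) - 1)) * ((k : ℝ) * ((k : ℝ) - 1)))
      * ((k : ℝ) - 1) ≤ ((t : ℝ) * ((l : ℝ) - 1)) ^ 2 * ((k : ℝ) - 1) := by
    have htt2 : (0:ℝ) ≤ (t : ℝ) * ((t : ℝ) - 1) := by linarith
    calc ((1 + ε) ^ 2 * (1 - ρ) * ((t : ℝ) * ((t : ℝ) - 1)) * ((k : ℝ) * ((k : ℝ) - 1)))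
        * ((k : ℝ) - 1)
        = ((1 + ε) ^ 2 * (1 - ρ) * ((k : ℝ) - 1) ^ 2) * ((t : ℝ) * ((t : ℝ) - 1) * k) := by ring
      _ ≤ ((l : ℝ) - 1) ^ 2 * ((t : ℝ) * ((t : ℝ) - 1) * k) :=
          mul_le_mul_of_nonneg_right hgap (by positivity)
      _ ≤ ((l : ℝ) - 1) ^ 2 * ((t : ℝ) * t * ((k : ℝ) - 1)) := by
          apply mul_le_mul_of_nonneg_left _ (by positivity)
          nlinarith
      _ = _ := by ring
  exact le_of_mul_le_mul_right h3 hk1

lemma gap_ineq {k l r : ℕ} (hl : 2 ≤ l) (hlk : l ≤ k)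
    (hgap : 2 ^ (4 * r + 4) * (k - l) ≤ k - 1) :
    (1 + (1 / 2 ^ (4 * r + 5) : ℝ)) ^ 2 * (1 - (1 / 2 ^ (4 * r + 2) : ℝ)) * ((k : ℝ) - 1) ^ 2
      ≤ ((l : ℝ) - 1) ^ 2 := by
  set ρ : ℝ := 1 / 2 ^ (4 * r + 2) with hρ
  have hρ0 : 0 < ρ := by positivity
  have hρ1 : ρ ≤ 1 := by
    rw [hρ, div_le_one (by positivity)]
    exact one_le_pow₀ (by norm_num)
  have h5 : (1 / 2 ^ (4 * r + 5) : ℝ) = ρ / 8 := by
    rw [hρ, show 4 * r + 5 = (4 * r + 2) + 3 by ring, pow_add]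
    field_simp
    norm_num
  have h4 : (1 / 2 ^ (4 * r + 4) : ℝ) = ρ / 4 := by
    rw [hρ, show 4 * r + 4 = (4 * r + 2) + 2 by ring, pow_add]
    field_simp
    norm_num
  rw [h5]
  have hk1 : (0:ℝ) ≤ (k : ℝ) - 1 := by
    have : (2:ℝ) ≤ k := by exact_mod_cast le_trans hl hlk
    linarith
  have hg : (k : ℝ) - l ≤ (ρ / 4) * ((k : ℝ) - 1) := by
    have h1 : ((2 ^ (4 * r + 4) * (k - l) : ℕ) : ℝ) ≤ ((k - 1 : ℕ) : ℝ) := by exact_mod_cast hgap
    rw [Nat.cast_mul, Nat.cast_sub hlk, Nat.cast_sub (by omega : 1 ≤ k)] at h1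
    push_cast at h1
    rw [← h4, one_div, ← div_eq_inv_mul, le_div_iff₀ (by positivity)]
    linarith
  have hl' : (1 - ρ / 4) * ((k : ℝ) - 1) ≤ (l : ℝ) - 1 := by linarith
  have h6 : (1 + ρ / 8) ^ 2 * (1 - ρ) ≤ (1 - ρ / 4) ^ 2 := by nlinarith [sq_nonneg ρ]
  calc (1 + ρ / 8) ^ 2 * (1 - ρ) * ((k : ℝ) - 1) ^ 2
      ≤ (1 - ρ / 4) ^ 2 * ((k : ℝ) - 1) ^ 2 := mul_le_mul_of_nonneg_right h6 (by positivity)
    _ = ((1 - ρ / 4) * ((k : ℝ) - 1)) ^ 2 := by ring
    _ ≤ ((l : ℝ) - 1) ^ 2 := by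
        apply pow_le_pow_left₀ _ hl'
        apply mul_nonneg _ hk1
        linarith

/-- the core inequality. -/
lemma core {n : ℕ} {G : Type} [Fintype G] (C : Circuit (Edge n) G) (d : G → Edge n → ℕ)
    (hd : C.DegBound d) (k l r τ m : ℕ) (hr : 1 ≤ r) (hl : 2 ≤ l) (hlk : l ≤ k) (hkn : k ≤ n)
    (hgap : 2 ^ (4 * r + 4) * (k - l) ≤ k - 1)
    (hτ0 : 0 < τ) (hm : 1 ≤ m)
    (hmτ : 8 * r * k.choose 2 ≤ (m + 1) * τ) (hτ : r * 2 ^ (8 * r + 6) * τ < k.choose 2)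
    (hleaf : ∀ g F P, C.kind g = .leaf F P → ∀ K : Finset (Fin n), K.card = k →
      (F ∩ inside K).card ≤ τ)
    (hdeg : ∑ e, d C.out e ≤ r * n.choose 2)
    (hyes : ∀ x, HasClique k x → C.Holds x C.out)
    (hno : ∀ x, C.Holds x C.out → HasClique l x) :
    (n : ℝ) ^ ((1 / 2 ^ (4 * r + 5) : ℝ) * l / 3) ≤
      36 * (Fintype.card (Cls G m) : ℝ) ^ 2 * ((k : ℝ) + 1) ^ k := by
  classical
  set ρ : ℝ := 1 / 2 ^ (4 * r + 2) with hρ
  set ε : ℝ := 1 / 2 ^ (4 * r + 5) with hε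
  have hk2 : 2 ≤ k := le_trans hl hlk
  have hn1 : 1 ≤ n := by omega
  have hn1' : (1:ℝ) ≤ n := by exact_mod_cast hn1
  have hn0 : (0:ℝ) < n := by linarith
  have hρ0 : 0 < ρ := by positivity
  have hε0 : 0 < ε := by positivity
  have hρ1 : ρ ≤ 1 := by
    rw [hρ, div_le_one (by positivity)]
    exact one_le_pow₀ (by norm_num)
  have hl1 : (0:ℝ) < (l : ℝ) - 1 := by
    have : (2:ℝ) ≤ l := by exact_mod_cast hl
    linarith
  have hg := gap_ineq (r := r) hl hlk hgap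
  rw [← hρ, ← hε] at hg
  set γ : ℝ := 2 * (1 + ε) / ((l : ℝ) - 1) with hγ
  have hγ0 : 0 < γ := by positivity
  set p : ℝ := (n : ℝ) ^ (-γ) with hp
  have hp0 : 0 < p := Real.rpow_pos_of_pos hn0 _
  have hp1 : p ≤ 1 := Real.rpow_le_one_of_one_le_of_nonpos hn1' (by linarith)
  set θ : ℝ := (n : ℝ) ^ (-(ε * l / 3)) with hθ
  have hθ0 : 0 < θ := Real.rpow_pos_of_pos hn0 _
  set Cc : ℝ := (n.choose k : ℝ) with hCc
  have hCc0 : 0 < Cc := by
    rw [hCc]; exact_mod_cast Nat.choose_pos hkn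
  set Q : ℝ := Cc ^ 2 * ((k : ℝ) + 1) ^ k with hQ
  have hQ0 : 0 < Q := by positivity
  -- the condition of the second moment lemma
  have hpt : ∀ t j : ℕ, t ≤ k → j ≤ t.choose 2 → (j : ℝ) ≤ (1 - ρ) * (k.choose 2 : ℝ) →
      (p⁻¹) ^ j ≤ (n : ℝ) ^ t := by
    intro t j htk hj hj2
    have h1 := exponent_le hk2 hl hρ1 hε0.le htk hj hj2 hg
    rw [← hγ] at h1
    have h2 : (p⁻¹) ^ j = (n : ℝ) ^ (γ * j) := by
      rw [hp, ← Real.rpow_neg hn0.le, neg_neg, ← Real.rpow_natCast, ← Real.rpow_mul hn0.le]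
    rw [h2, ← Real.rpow_natCast (n : ℝ) t]
    exact Real.rpow_le_rpow_of_exponent_le hn1' h1
  -- the null probability
  have hnull : (n : ℝ) ^ l * p ^ (l.choose 2) = θ ^ 3 := by
    have e1 : (n : ℝ) ^ l = (n : ℝ) ^ (l : ℝ) := (Real.rpow_natCast _ _).symm
    have e2 : p ^ (l.choose 2) = (n : ℝ) ^ (-γ * (l.choose 2 : ℕ)) := by
      rw [hp, ← Real.rpow_natCast, ← Real.rpow_mul hn0.le]
    have e3 : θ ^ 3 = (n : ℝ) ^ (-(ε * l / 3) * (3 : ℕ)) := by
      rw [hθ, ← Real.rpow_natCast, ← Real.rpow_mul hn0.le]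
    rw [e1, e2, e3, ← Real.rpow_add hn0]
    congr 1
    rw [Nat.cast_choose_two, hγ]
    push_cast
    field_simp
    ring
  set Kl := (ksets n k).filter (fun K => ∑ e ∈ inside K, d C.out e ≤ 2 * r * k.choose 2) with hKl
  have hlow : Cc ≤ 2 * (Kl.card : ℝ) := by
    rw [hCc, hKl]
    exact_mod_cast many_low k r hk2 (d C.out) hdeg
  set N : ℝ := (k.choose 2 : ℝ) with hN
  -- the families of a class
  set Kσ : Cls G m → Finset (Finset (Fin n)) := fun σ => (ksets n k).filter (fun K =>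
    ρ * N ≤ ((inside K ∩ avoid C d σ true).card : ℝ) ∧
    ρ * N ≤ ((inside K ∩ avoid C d σ false).card : ℝ)) with hKσ
  set V : Cls G m → Prop := fun σ =>
    ∀ y, SideHolds C σ true y → SideHolds C σ false y → C.Holds y C.out with hV
  set fr : Cls G m → Finset (Edge n) → ℝ := fun σ x =>
    if SideHolds C σ true x then 1 else 0 with hfr
  set fb : Cls G m → Finset (Edge n) → ℝ := fun σ x =>
    if SideHolds C σ false x then 1 else 0 with hfb
  have hbound : ∀ σ, V σ →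
      ∑ K ∈ Kσ σ, Ex p (fun x => fr σ (x ∪ inside K) * fb σ (x ∪ inside K))
        ≤ 3 * Real.sqrt (θ * Q) := by
    intro σ hσ
    have hδ : Ex p (fun x => fr σ x * fb σ x) ≤ θ ^ 3 := by
      rw [← hnull]
      refine null_le hp0.le hp1 l _ ?_ ?_
      · intro x
        simp only [hfr, hfb]
        split_ifs <;> norm_num
      · intro x hx
        simp only [hfr, hfb]
        split_ifs with h1 h2
        · exact absurd (hno x (hσ x h1 h2)) hx
        all_goals norm_num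
    have h1 := rect_le hp0 hp1 (Kσ σ) (inside (n := n)) (avoid C d σ false) (avoid C d σ true)
      (fr σ) (fb σ)
      (fun x => by simp only [hfr]; split_ifs <;> simp)
      (fun x => by simp only [hfb]; split_ifs <;> simp)
      (by
        intro x y hxy
        simp only [hfr]
        have : SideHolds C σ true x ↔ SideHolds C σ true y :=
          ⟨fun h => sideHolds_congr hd h hxy, fun h => sideHolds_congr hd h fun e he => (hxy e he).symm⟩
        simp only [this])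
      (by
        intro x y hxy
        simp only [hfb]
        have : SideHolds C σ false x ↔ SideHolds C σ false y :=
          ⟨fun h => sideHolds_congr hd h hxy, fun h => sideHolds_congr hd h fun e he => (hxy e he).symm⟩
        simp only [this])
      Q (θ ^ 3) θ hθ0 hQ0.le hδ
      (second_moment hkn (Kσ σ) (filter_subset _ _) (avoid C d σ true) ρ
        (fun K hK => (mem_filter.1 hK).2.1) hpt)
      (second_moment hkn (Kσ σ) (filter_subset _ _) (avoid C d σ false) ρ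
        (fun K hK => (mem_filter.1 hK).2.2) hpt)
    have h2 : θ ^ 3 / θ ^ 2 = θ := by
      field_simp
    rw [h2] at h1
    linarith
  have hmain : (Kl.card : ℝ) ≤ (Fintype.card (Cls G m) : ℝ) * (3 * Real.sqrt (θ * Q)) := by
    have hterm0 : ∀ σ K, 0 ≤ Ex p (fun x => fr σ (x ∪ inside K) * fb σ (x ∪ inside K)) := by
      intro σ K
      refine Ex_nonneg hp0.le hp1 fun x => ?_
      simp only [hfr, hfb]
      split_ifs <;> norm_num
    calc (Kl.card : ℝ) = ∑ K ∈ Kl, Ex (E := Edge n) p (fun _ => (1:ℝ)) := by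
          simp_rw [Ex_const]
          rw [Finset.sum_const, nsmul_eq_mul, mul_one]
      _ ≤ ∑ K ∈ Kl, Ex p (fun x => ∑ σ : Cls G m, (if V σ ∧ K ∈ Kσ σ then
            fr σ (x ∪ inside K) * fb σ (x ∪ inside K) else 0)) := by
          refine Finset.sum_le_sum fun K hK => Ex_mono hp0.le hp1 fun x => ?_
          have hKk : K ∈ ksets n k := (mem_filter.1 hK).1
          have hKc : K.card = k := (mem_powersetCard.1 hKk).2
          have hKl' := (mem_filter.1 hK).2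
          have hacc : C.Holds (x ∪ inside K) C.out :=
            hyes _ ⟨K, hKc, fun e he => mem_union_right _ (mem_inside.2 he)⟩
          obtain ⟨σ, h1, h2, h3, h4, h5⟩ := exists_class C d hd k r τ m hr hτ0 hm hmτ hτ K hKc
            (fun g F P h => hleaf g F P h K hKc) hKl' (x ∪ inside K) hacc
          have hσ : V σ ∧ K ∈ Kσ σ := ⟨h3, by
            rw [hKσ]
            exact mem_filter.2 ⟨hKk, h4, h5⟩⟩
          have h6 := Finset.single_le_sum (f := fun σ : Cls G m => (if V σ ∧ K ∈ Kσ σ then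
            fr σ (x ∪ inside K) * fb σ (x ∪ inside K) else 0)) (fun σ _ => by
              simp only [hfr, hfb]
              split_ifs <;> norm_num) (mem_univ σ)
          refine le_trans ?_ h6
          simp only [if_pos hσ, hfr, hfb, if_pos h1, if_pos h2]
          norm_num
      _ = ∑ K ∈ Kl, ∑ σ : Cls G m, (if V σ ∧ K ∈ Kσ σ then
            Ex p (fun x => fr σ (x ∪ inside K) * fb σ (x ∪ inside K)) else 0) := by
          refine Finset.sum_congr rfl fun K _ => ?_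
          rw [Ex_sum]
          refine Finset.sum_congr rfl fun σ _ => ?_
          split_ifs
          · rfl
          · exact Ex_const p 0
      _ = ∑ σ : Cls G m, ∑ K ∈ Kl, (if V σ ∧ K ∈ Kσ σ then
            Ex p (fun x => fr σ (x ∪ inside K) * fb σ (x ∪ inside K)) else 0) := Finset.sum_comm
      _ ≤ ∑ _σ : Cls G m, 3 * Real.sqrt (θ * Q) := by
          refine Finset.sum_le_sum fun σ _ => ?_
          by_cases hσ : V σ
          · refine le_trans ?_ (hbound σ hσ)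
            calc ∑ K ∈ Kl, (if V σ ∧ K ∈ Kσ σ then
                Ex p (fun x => fr σ (x ∪ inside K) * fb σ (x ∪ inside K)) else 0)
                ≤ ∑ K ∈ ksets n k, (if V σ ∧ K ∈ Kσ σ then
                Ex p (fun x => fr σ (x ∪ inside K) * fb σ (x ∪ inside K)) else 0) := by
                  refine Finset.sum_le_sum_of_subset_of_nonneg (filter_subset _ _) fun K _ _ => ?_
                  split_ifs
                  · exact hterm0 σ K
                  · exact le_refl _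
              _ = ∑ K ∈ ksets n k, (if K ∈ Kσ σ then
                Ex p (fun x => fr σ (x ∪ inside K) * fb σ (x ∪ inside K)) else 0) := by
                  refine Finset.sum_congr rfl fun K _ => ?_
                  simp only [hσ, true_and]
              _ = ∑ K ∈ Kσ σ, Ex p (fun x => fr σ (x ∪ inside K) * fb σ (x ∪ inside K)) := by
                  rw [← Finset.sum_filter]
                  congr 1
                  ext K
                  rw [mem_filter]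
                  constructor
                  · exact fun h => h.2
                  · exact fun h => ⟨(mem_filter.1 h).1, h⟩
              _ ≤ _ := le_refl _
          · have : ∀ K ∈ Kl, (if V σ ∧ K ∈ Kσ σ then
                Ex p (fun x => fr σ (x ∪ inside K) * fb σ (x ∪ inside K)) else 0) = 0 := by
              intro K _
              rw [if_neg (fun h => hσ h.1)]
            rw [Finset.sum_eq_zero this]
            positivity
      _ = _ := by
          rw [Finset.sum_const, nsmul_eq_mul, Finset.card_univ]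
  -- conclude
  set S : ℝ := (Fintype.card (Cls G m) : ℝ) with hS
  have hS0 : 0 ≤ S := by positivity
  have h1 : Cc ≤ 6 * S * Real.sqrt (θ * Q) := by
    calc Cc ≤ 2 * (Kl.card : ℝ) := hlow
      _ ≤ 2 * (S * (3 * Real.sqrt (θ * Q))) := by linarith
      _ = _ := by ring
  have h2 : Cc ^ 2 ≤ 36 * S ^ 2 * (θ * Q) := by
    have h3 : Cc ^ 2 ≤ (6 * S * Real.sqrt (θ * Q)) ^ 2 := pow_le_pow_left₀ hCc0.le h1 2
    have h4 : (6 * S * Real.sqrt (θ * Q)) ^ 2 = 36 * S ^ 2 * (Real.sqrt (θ * Q)) ^ 2 := by ring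
    rw [h4, Real.sq_sqrt (by positivity)] at h3
    exact h3
  have h3 : Cc ^ 2 * 1 ≤ Cc ^ 2 * (36 * S ^ 2 * ((k : ℝ) + 1) ^ k * θ) := by
    calc Cc ^ 2 * 1 ≤ 36 * S ^ 2 * (θ * Q) := by rw [mul_one]; exact h2
      _ = _ := by rw [hQ]; ring
  have h4 : 1 ≤ 36 * S ^ 2 * ((k : ℝ) + 1) ^ k * θ :=
    le_of_mul_le_mul_left h3 (by positivity)
  have h5 : (n : ℝ) ^ (ε * l / 3) * θ = 1 := by
    rw [hθ, ← Real.rpow_add hn0, add_neg_cancel, Real.rpow_zero]
  calc (n : ℝ) ^ (ε * l / 3) = (n : ℝ) ^ (ε * l / 3) * 1 := (mul_one _).symm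
    _ ≤ (n : ℝ) ^ (ε * l / 3) * (36 * S ^ 2 * ((k : ℝ) + 1) ^ k * θ) := by
        apply mul_le_mul_of_nonneg_left h4 (by positivity)
    _ = (36 * S ^ 2 * ((k : ℝ) + 1) ^ k) * ((n : ℝ) ^ (ε * l / 3) * θ) := by ring
    _ = _ := by rw [h5, mul_one]

end Pool.H35.Rc
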