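import Pool.Agent.H35.RcWeight
import Pool.Agent.H35.RcColor
import Pool.Agent.H35.RcClique
import Pool.Agent.H35.RcDecomp

/-!
Assembly of the lower bound (helper file for `MP_ba3460_lc`).
-/

namespace Pool.H35.Rc

open Finset

/-- a coloured family of at most `m` pieces -/
abbrev Cls (G : Type) (m : ℕ) : Type := Fin m → Option (Piece G × Bool)

/-- all pieces of colour `b` hold -/
def SideHolds {E G : Type} [DecidableEq E] (C : Circuit E G) {m : ℕ} (σ : Cls G m) (b : Bool)
    (x : Finset E) : Prop :=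
  ∀ j π, σ j = some (π, b) → PHolds C x π

open Classical in
/-- the variables that are in no piece of colour `b` -/
noncomputable def avoid {E G : Type} [Fintype E] [DecidableEq E] (C : Circuit E G)
    (d : G → E → ℕ) {m : ℕ} (σ : Cls G m) (b : Bool) : Finset E :=
  univ.filter (fun e => ∀ j π, σ j = some (π, b) → e ∉ pvar C d π)

lemma mem_avoid {E G : Type} [Fintype E] [DecidableEq E] {C : Circuit E G}
    {d : G → E → ℕ} {m : ℕ} {σ : Cls G m} {b : Bool} {e : E} :
    e ∈ avoid C d σ b ↔ ∀ j π, σ j = some (π, b) → e ∉ pvar C d π := by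
  simp [avoid]

lemma sum_getElem? {α : Type*} (f : α → ℕ) : ∀ (L : List α) (m : ℕ), L.length ≤ m →
    ∑ j : Fin m, ((L[(j:ℕ)]?).elim 0 f) = (L.map f).sum := by
  intro L
  induction L with
  | nil => intro m _; simp
  | cons a L ih =>
    intro m hm
    obtain ⟨m', rfl⟩ : ∃ m', m = m' + 1 := ⟨m - 1, by simp at hm; omega⟩
    rw [Fin.sum_univ_succ]
    simp only [Fin.val_zero, List.getElem?_cons_zero, Option.elim_some, Fin.val_succ,
      List.getElem?_cons_succ, List.map_cons, List.sum_cons]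
    rw [ih m' (by simp at hm; omega)]

lemma sideHolds_congr {E G : Type} [Fintype E] [DecidableEq E] {C : Circuit E G}
    {d : G → E → ℕ} (hd : C.DegBound d) {m : ℕ} {σ : Cls G m} {b : Bool} {x y : Finset E}
    (h : SideHolds C σ b x) (hxy : ∀ e, e ∉ avoid C d σ b → (e ∈ x ↔ e ∈ y)) :
    SideHolds C σ b y := by
  intro j π hπ
  refine pholds_congr hd (h j π hπ) fun e he => hxy e ?_
  intro hav
  rw [mem_avoid] at hav
  exact hav j π hπ he

/-- every accepted input with a planted clique belongs to a good class. -/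
lemma exists_class {n : ℕ} {G : Type} (C : Circuit (Edge n) G) (d : G → Edge n → ℕ)
    (hd : C.DegBound d) (k r τ m : ℕ) (hr : 1 ≤ r) (hτ0 : 0 < τ) (hm : 1 ≤ m)
    (hmτ : 8 * r * k.choose 2 ≤ (m + 1) * τ) (hτ : r * 2 ^ (8 * r + 6) * τ < k.choose 2)
    (K : Finset (Fin n)) (hK : K.card = k)
    (hleaf : ∀ g F P, C.kind g = .leaf F P → (F ∩ inside K).card ≤ τ)
    (hlow : ∑ e ∈ inside K, d C.out e ≤ 2 * r * k.choose 2)
    (x : Finset (Edge n)) (hx : C.Holds x C.out) :
    ∃ σ : Cls G m, SideHolds C σ true x ∧ SideHolds C σ false x ∧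
      (∀ y, SideHolds C σ true y → SideHolds C σ false y → C.Holds y C.out) ∧
      (1 / 2 ^ (4 * r + 2) : ℝ) * (k.choose 2 : ℝ) ≤ ((inside K ∩ avoid C d σ true).card : ℝ) ∧
      (1 / 2 ^ (4 * r + 2) : ℝ) * (k.choose 2 : ℝ) ≤ ((inside K ∩ avoid C d σ false).card : ℝ) := by
  classical
  obtain ⟨h, hh⟩ := exists_holdsH hx
  obtain ⟨L, hL⟩ := exists_good_list hd (inside K) τ hleaf x h C.out hh
  have hlen : L.length ≤ m := by
    rcases hL.len with ⟨_, h2⟩ | ⟨_, h2⟩
    · omega
    · have h3 : (L.length + 1) * τ ≤ (m + 1) * τ := by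
        calc (L.length + 1) * τ ≤ 4 * ∑ e ∈ inside K, d C.out e := h2
          _ ≤ 4 * (2 * r * k.choose 2) := Nat.mul_le_mul_left _ hlow
          _ = 8 * r * k.choose 2 := by ring
          _ ≤ _ := hmτ
      have := Nat.le_of_mul_le_mul_right h3 hτ0
      omega
  set N := k.choose 2 with hN
  set W : Fin m → Finset (Edge n) := fun j => (L[(j:ℕ)]?).elim ∅ (pvar C d) with hW
  set T' := (inside K).filter (fun e => d C.out e ≤ 4 * r) with hT'
  have hcardT : (inside K).card = N := by rw [card_inside, hK]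
  -- at least half of the edges have small degree
  have hT'card : N ≤ 2 * T'.card := by
    have h1 := Finset.card_filter_add_card_filter_not (s := inside K)
      (fun e => d C.out e ≤ 4 * r)
    rw [hcardT, ← hT'] at h1
    have h2 : ((inside K).filter (fun e => ¬ d C.out e ≤ 4 * r)).card * (4 * r + 1)
        ≤ ∑ e ∈ inside K, d C.out e := by
      calc ((inside K).filter (fun e => ¬ d C.out e ≤ 4 * r)).card * (4 * r + 1)
          = ∑ _e ∈ (inside K).filter (fun e => ¬ d C.out e ≤ 4 * r), (4 * r + 1) := by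
            rw [Finset.sum_const, smul_eq_mul]
        _ ≤ ∑ e ∈ (inside K).filter (fun e => ¬ d C.out e ≤ 4 * r), d C.out e := by
            refine Finset.sum_le_sum fun e he => ?_
            rw [mem_filter] at he
            omega
        _ ≤ _ := Finset.sum_le_sum_of_subset (filter_subset _ _)
    by_contra hcon
    push Not at hcon
    have h3 : N < 2 * ((inside K).filter (fun e => ¬ d C.out e ≤ 4 * r)).card := by omega
    have h4 : (2 * r) * N < (2 * r) * (2 * ((inside K).filter (fun e => ¬ d C.out e ≤ 4 * r)).card) :=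
      Nat.mul_lt_mul_of_pos_left h3 (by omega)
    have h5 : ((inside K).filter (fun e => ¬ d C.out e ≤ 4 * r)).card * (4 * r + 1)
        = (2 * r) * (2 * ((inside K).filter (fun e => ¬ d C.out e ≤ 4 * r)).card)
          + ((inside K).filter (fun e => ¬ d C.out e ≤ 4 * r)).card := by ring
    omega
  have hcnt : ∀ e, (univ.filter (fun j => e ∈ W j)).card ≤ d C.out e := by
    intro e
    refine le_trans (le_of_eq ?_) (hL.mult e)
    rw [← sum_getElem? (fun π => if e ∈ pvar C d π then 1 else 0) L m hlen, Finset.card_filter]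
    refine Finset.sum_congr rfl fun j _ => ?_
    rw [hW]
    cases hj : L[(j:ℕ)]? with
    | none => simp [hj]
    | some π => simp [hj]
  have hq : ∀ e ∈ T', (univ.filter (fun j => e ∈ W j)).card ≤ 4 * r := by
    intro e he
    rw [hT', mem_filter] at he
    exact le_trans (hcnt e) he.2
  have hτW : ∀ j, ((W j ∩ T').card : ℝ) ≤ (τ : ℝ) := by
    intro j
    have : (W j ∩ T').card ≤ τ := by
      have h1 : (W j ∩ T').card ≤ (W j ∩ inside K).card :=
        Finset.card_le_card (Finset.inter_subset_inter (le_refl _) (filter_subset _ _))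
      refine le_trans h1 ?_
      rw [hW]
      cases hj : L[(j:ℕ)]? with
      | none => simp [hj]
      | some π =>
        simp only [hj, Option.elim_some]
        exact hL.small π (List.mem_of_getElem? hj)
    exact_mod_cast this
  have hDsum : ((∑ j, (W j ∩ T').card : ℕ) : ℝ) ≤ ((2 * r * N : ℕ) : ℝ) := by
    have : ∑ j, (W j ∩ T').card ≤ 2 * r * N := by
      have h1 : ∑ j, (W j ∩ T').card = ∑ e ∈ T', (univ.filter (fun j => e ∈ W j)).card := by
        have h2 : ∀ j, (W j ∩ T').card = ∑ e ∈ T', if e ∈ W j then 1 else 0 := by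
          intro j
          rw [← Finset.card_filter]
          congr 1
          ext e; simp [and_comm]
        simp_rw [h2]
        rw [Finset.sum_comm]
        refine Finset.sum_congr rfl fun e _ => ?_
        rw [Finset.card_filter]
      rw [h1]
      calc ∑ e ∈ T', (univ.filter (fun j => e ∈ W j)).card ≤ ∑ e ∈ T', d C.out e :=
            Finset.sum_le_sum fun e _ => hcnt e
        _ ≤ ∑ e ∈ inside K, d C.out e := Finset.sum_le_sum_of_subset (filter_subset _ _)
        _ ≤ _ := hlow
    exact_mod_cast this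
  have hTr : (N : ℝ) / 2 ≤ (T'.card : ℝ) := by
    have : (N : ℝ) ≤ 2 * (T'.card : ℝ) := by exact_mod_cast hT'card
    linarith
  have hNpos : (0:ℝ) < N := by
    have : 0 < N := lt_of_le_of_lt (Nat.zero_le _) hτ
    exact_mod_cast this
  have h8 : 8 * ((τ : ℝ) * ((2 * r * N : ℕ) : ℝ)) < ((T'.card : ℝ) / 2 ^ (4 * r)) ^ 2 := by
    have h1 : (r : ℝ) * 2 ^ (8 * r + 6) * τ < N := by exact_mod_cast hτ
    have h2 : ((N : ℝ) / 2 / 2 ^ (4 * r)) ^ 2 ≤ ((T'.card : ℝ) / 2 ^ (4 * r)) ^ 2 := by
      apply pow_le_pow_left₀ (by positivity)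
      exact div_le_div_of_nonneg_right hTr (by positivity)
    refine lt_of_lt_of_le ?_ h2
    have h3 : ((N : ℝ) / 2 / 2 ^ (4 * r)) ^ 2 = N * N / (4 * 2 ^ (8 * r)) := by
      rw [div_div, div_pow, mul_pow, ← pow_mul]
      have : 4 * r * 2 = 8 * r := by ring
      rw [this]
      ring
    rw [h3, lt_div_iff₀ (by positivity)]
    push_cast
    have h4 : (2:ℝ) ^ (8 * r + 6) = 2 ^ (8 * r) * 64 := by rw [pow_add]; norm_num
    rw [h4] at h1
    calc 8 * ((τ:ℝ) * (2 * r * N)) * (4 * 2 ^ (8 * r)) = (r * (2 ^ (8 * r) * 64) * τ) * N := by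
          ring
      _ < N * N := mul_lt_mul_of_pos_right h1 hNpos
  obtain ⟨c, T₁, T₂, hT₁, hT₂, hc1, hc2, hr₁, hr₂⟩ := exists_coloring W T' (4 * r) hq (τ : ℝ) ((2 * r * N : ℕ) : ℝ)
    (by positivity) hτW hDsum h8
  have hbound : (1 / 2 ^ (4 * r + 2) : ℝ) * (N : ℝ) ≤ (T'.card : ℝ) / 2 ^ (4 * r) / 2 := by
    have : (1 / 2 ^ (4 * r + 2) : ℝ) * (N : ℝ) = (N : ℝ) / 2 / 2 ^ (4 * r) / 2 := by
      rw [pow_add]
      field_simp
    rw [this]
    exact div_le_div_of_nonneg_right (div_le_div_of_nonneg_right hTr (by positivity)) (by norm_num)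
  refine ⟨fun j => (L[(j:ℕ)]?).map (fun π => (π, decide (j ∈ c))), ?_, ?_, ?_, ?_, ?_⟩
  · intro j π hπ
    rw [Option.map_eq_some_iff] at hπ
    obtain ⟨π', h1, h2⟩ := hπ
    have : π' = π := (Prod.mk.inj h2).1
    subst this
    exact hL.holds _ (List.mem_of_getElem? h1)
  · intro j π hπ
    rw [Option.map_eq_some_iff] at hπ
    obtain ⟨π', h1, h2⟩ := hπ
    have : π' = π := (Prod.mk.inj h2).1
    subst this
    exact hL.holds _ (List.mem_of_getElem? h1)
  · intro y hy1 hy2
    refine hL.sound y fun π hπ => ?_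
    obtain ⟨i, hi⟩ := List.mem_iff_getElem?.1 hπ
    have hilt : i < L.length := (List.getElem?_eq_some_iff.1 hi).1
    set j : Fin m := ⟨i, by omega⟩ with hj
    by_cases hjc : j ∈ c
    · refine hy1 j π ?_
      rw [Option.map_eq_some_iff]
      exact ⟨π, hi, by simp [hjc]⟩
    · refine hy2 j π ?_
      rw [Option.map_eq_some_iff]
      exact ⟨π, hi, by simp [hjc]⟩
  · -- edges in no red piece: all their pieces are blue
    refine le_trans hbound (le_trans hc2 ?_)
    rw [Nat.cast_le]
    apply Finset.card_le_card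
    intro e he
    rw [mem_inter]
    refine ⟨(mem_filter.1 (hT₂ he)).1, ?_⟩
    rw [mem_avoid]
    intro j π hπ hep
    rw [Option.map_eq_some_iff] at hπ
    obtain ⟨π', h1, h2⟩ := hπ
    obtain ⟨rfl, h3⟩ := Prod.mk.inj h2
    have hWj : e ∈ W j := by
      rw [hW]; simp only [h1, Option.elim_some]; exact hep
    exact hr₂ e he j hWj (by simpa using h3)
  · refine le_trans hbound (le_trans hc1 ?_)
    rw [Nat.cast_le]
    apply Finset.card_le_card
    intro e he
    rw [mem_inter]
    refine ⟨(mem_filter.1 (hT₁ he)).1, ?_⟩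
    rw [mem_avoid]
    intro j π hπ hep
    rw [Option.map_eq_some_iff] at hπ
    obtain ⟨π', h1, h2⟩ := hπ
    obtain ⟨rfl, h3⟩ := Prod.mk.inj h2
    have hWj : e ∈ W j := by
      rw [hW]; simp only [h1, Option.elim_some]; exact hep
    have := hr₁ e he j hWj
    simp [this] at h3

end Pool.H35.Rc
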