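import Mathlib

/-!
Product measures on `Finset E`, resampling, and the corruption bound for rectangles
(helper file for `MP_ba3460_lc`).
-/

namespace Pool.H35.Rc

open Finset

variable {E : Type} [Fintype E] [DecidableEq E]

/-- the product weight: every element is present independently with probability `p`. -/
noncomputable def wt (p : ℝ) (x : Finset E) : ℝ := ∏ e : E, if e ∈ x then p else 1 - p

/-- expectation under the product weight. -/
noncomputable def Ex (p : ℝ) (f : Finset E → ℝ) : ℝ := ∑ x : Finset E, wt p x * f x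

/-- `y` on `R`, `x` off `R`. -/
def mix (R x y : Finset E) : Finset E := (y ∩ R) ∪ (x \ R)

/-- `f` does not depend on the elements of `F`. -/
def Indep {α : Type*} (F : Finset E) (f : Finset E → α) : Prop :=
  ∀ x y : Finset E, (∀ e, e ∉ F → (e ∈ x ↔ e ∈ y)) → f x = f y

omit [Fintype E] in
lemma mem_mix {R x y : Finset E} {e : E} :
    e ∈ mix R x y ↔ (e ∈ R ∧ e ∈ y) ∨ (e ∉ R ∧ e ∈ x) := by
  unfold mix
  simp only [mem_union, mem_inter, mem_sdiff]
  tauto

lemma sum_prod_ite (a b : E → ℝ) :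
    ∑ x : Finset E, ∏ e : E, (if e ∈ x then a e else b e) = ∏ e : E, (a e + b e) := by
  rw [Finset.prod_add]
  rw [Finset.powerset_univ]
  refine Finset.sum_congr rfl fun x _ => ?_
  rw [Finset.prod_ite]
  congr 1
  · refine Finset.prod_congr ?_ fun _ _ => rfl
    ext e; simp
  · refine Finset.prod_congr ?_ fun _ _ => rfl
    ext e; simp

lemma wt_nonneg {p : ℝ} (hp0 : 0 ≤ p) (hp1 : p ≤ 1) (x : Finset E) : 0 ≤ wt p x := by
  unfold wt
  refine Finset.prod_nonneg fun e _ => ?_
  split_ifs <;> linarith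

lemma sum_wt (p : ℝ) : ∑ x : Finset E, wt p x = 1 := by
  unfold wt
  rw [sum_prod_ite]
  simp

lemma sum_wt_superset (p : ℝ) (T : Finset E) :
    ∑ x : Finset E, wt p x * (if T ⊆ x then 1 else 0) = p ^ T.card := by
  have h : ∀ x : Finset E, wt p x * (if T ⊆ x then 1 else 0)
      = ∏ e : E, (if e ∈ x then p else if e ∈ T then 0 else 1 - p) := by
    intro x
    unfold wt
    by_cases hT : T ⊆ x
    · rw [if_pos hT, mul_one]
      refine Finset.prod_congr rfl fun e _ => ?_
      by_cases hx : e ∈ x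
      · simp [hx]
      · have : e ∉ T := fun h => hx (hT h)
        simp [hx, this]
    · rw [if_neg hT, mul_zero]
      obtain ⟨e, heT, hex⟩ := Finset.not_subset.1 hT
      symm
      apply Finset.prod_eq_zero (Finset.mem_univ e)
      simp [hex, heT]
  simp_rw [h]
  rw [sum_prod_ite (fun _ => p) (fun e => if e ∈ T then 0 else 1 - p)]
  have : ∀ e : E, (p + if e ∈ T then 0 else 1 - p) = if e ∈ T then p else 1 := by
    intro e; split_ifs <;> ring
  simp_rw [this]
  rw [Finset.prod_ite]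
  simp

lemma wt_mix (p : ℝ) (R x y : Finset E) :
    wt p (mix R x y) * wt p (mix R y x) = wt p x * wt p y := by
  unfold wt
  rw [← Finset.prod_mul_distrib, ← Finset.prod_mul_distrib]
  refine Finset.prod_congr rfl fun e _ => ?_
  simp only [mem_mix]
  by_cases hR : e ∈ R <;> by_cases hx : e ∈ x <;> by_cases hy : e ∈ y <;> simp [hR, hx, hy]
  all_goals ring

omit [Fintype E] in
lemma mix_mix (R x y : Finset E) : mix R (mix R x y) (mix R y x) = x := by
  ext e
  simp only [mem_mix]
  tauto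

/-- resampling the coordinates in `R` does not change the distribution. -/
lemma Ex_resample (p : ℝ) (R : Finset E) (f : Finset E → ℝ) :
    ∑ x : Finset E, ∑ y : Finset E, wt p x * wt p y * f (mix R x y) = Ex p f := by
  have h1 : ∑ x : Finset E, ∑ y : Finset E, wt p x * wt p y * f (mix R x y)
      = ∑ z : Finset E × Finset E, wt p z.1 * wt p z.2 * f (mix R z.1 z.2) := by
    rw [← Finset.univ_product_univ, Finset.sum_product]
  have hinv : Function.Involutive
      (fun z : Finset E × Finset E => (mix R z.1 z.2, mix R z.2 z.1)) := by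
    intro z
    ext1
    · exact mix_mix R z.1 z.2
    · exact mix_mix R z.2 z.1
  have h2 : ∑ z : Finset E × Finset E, wt p z.1 * wt p z.2 * f (mix R z.1 z.2)
      = ∑ z : Finset E × Finset E, wt p z.1 * wt p z.2 * f z.1 := by
    rw [← Equiv.sum_comp hinv.toPerm (fun z : Finset E × Finset E =>
      wt p z.1 * wt p z.2 * f z.1)]
    refine Finset.sum_congr rfl fun z _ => ?_
    simp only [Function.Involutive.coe_toPerm]
    rw [wt_mix]
  rw [h1, h2, ← Finset.univ_product_univ, Finset.sum_product]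
  unfold Ex
  refine Finset.sum_congr rfl fun x _ => ?_
  have : ∀ y : Finset E, wt p x * wt p y * f x = (wt p x * f x) * wt p y := fun y => by ring
  simp_rw [this]
  rw [← Finset.mul_sum, sum_wt, mul_one]

lemma Ex_congr {p : ℝ} {f g : Finset E → ℝ} (h : ∀ x, f x = g x) : Ex p f = Ex p g := by
  unfold Ex
  exact Finset.sum_congr rfl fun x _ => by rw [h x]

lemma Ex_mono {p : ℝ} (hp0 : 0 ≤ p) (hp1 : p ≤ 1) {f g : Finset E → ℝ} (h : ∀ x, f x ≤ g x) :
    Ex p f ≤ Ex p g := by
  unfold Ex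
  exact Finset.sum_le_sum fun x _ => mul_le_mul_of_nonneg_left (h x) (wt_nonneg hp0 hp1 x)

lemma Ex_nonneg {p : ℝ} (hp0 : 0 ≤ p) (hp1 : p ≤ 1) {f : Finset E → ℝ} (h : ∀ x, 0 ≤ f x) :
    0 ≤ Ex p f := by
  unfold Ex
  exact Finset.sum_nonneg fun x _ => mul_nonneg (wt_nonneg hp0 hp1 x) (h x)

lemma Ex_const (p c : ℝ) : Ex (E := E) p (fun _ => c) = c := by
  unfold Ex
  rw [← Finset.sum_mul, sum_wt, one_mul]

lemma Ex_add (p : ℝ) (f g : Finset E → ℝ) : Ex p (fun x => f x + g x) = Ex p f + Ex p g := by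
  unfold Ex
  rw [← Finset.sum_add_distrib]
  exact Finset.sum_congr rfl fun x _ => by ring

lemma Ex_mul_left (p c : ℝ) (f : Finset E → ℝ) : Ex p (fun x => c * f x) = c * Ex p f := by
  unfold Ex
  rw [Finset.mul_sum]
  exact Finset.sum_congr rfl fun x _ => by ring

lemma Ex_sum {ι : Type*} (s : Finset ι) (p : ℝ) (f : ι → Finset E → ℝ) :
    Ex p (fun x => ∑ i ∈ s, f i x) = ∑ i ∈ s, Ex p (f i) := by
  unfold Ex
  simp_rw [Finset.mul_sum]
  rw [Finset.sum_comm]

/-- change of measure. -/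
lemma Ex_union (p : ℝ) (T : Finset E) (g : Finset E → ℝ) :
    p ^ T.card * Ex p (fun x => g (x ∪ T)) = Ex p (fun x => g x * (if T ⊆ x then 1 else 0)) := by
  rw [← Ex_resample p T (fun x => g x * (if T ⊆ x then 1 else 0))]
  have h : ∀ x y : Finset E, g (mix T x y) * (if T ⊆ mix T x y then (1:ℝ) else 0)
      = g (x ∪ T) * (if T ⊆ y then 1 else 0) := by
    intro x y
    by_cases hy : T ⊆ y
    · have h1 : mix T x y = x ∪ T := by
        ext e
        rw [mem_mix, mem_union]
        constructor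
        · rintro (⟨h, _⟩ | ⟨_, h⟩)
          · exact Or.inr h
          · exact Or.inl h
        · rintro (h | h)
          · by_cases hT : e ∈ T
            · exact Or.inl ⟨hT, hy hT⟩
            · exact Or.inr ⟨hT, h⟩
          · exact Or.inl ⟨h, hy h⟩
      rw [h1, if_pos hy, if_pos Finset.subset_union_right]
    · have h1 : ¬ T ⊆ mix T x y := by
        intro hsub
        apply hy
        intro e he
        have := hsub he
        rw [mem_mix] at this
        rcases this with ⟨_, h⟩ | ⟨h, _⟩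
        · exact h
        · exact absurd he h
      rw [if_neg hy, if_neg h1]
      ring
  simp_rw [h]
  have h2 : ∀ x : Finset E, ∑ y : Finset E, wt p x * wt p y * (g (x ∪ T) * (if T ⊆ y then 1 else 0))
      = (wt p x * g (x ∪ T)) * p ^ T.card := by
    intro x
    rw [← sum_wt_superset p T, Finset.mul_sum]
    exact Finset.sum_congr rfl fun y _ => by ring
  simp_rw [h2]
  rw [← Finset.sum_mul, mul_comm]
  rfl

/-- The planted mass of an event that does not depend on `F`. -/
lemma planted_le {p : ℝ} (hp0 : 0 < p) (hp1 : p ≤ 1) {ι : Type*} (s : Finset ι)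
    (T : ι → Finset E) (F : Finset E) (a : Finset E → ℝ) (ha0 : ∀ x, 0 ≤ a x)
    (ha1 : ∀ x, a x ≤ 1) (hF : Indep F a) (Q : ℝ)
    (hQ : ∑ i ∈ s, ∑ j ∈ s, (p⁻¹) ^ ((T i ∩ T j) \ F).card ≤ Q) :
    ∑ i ∈ s, Ex p (fun x => a (x ∪ T i)) ≤ Real.sqrt (Ex p a * Q) := by
  set Z : Finset E → ℝ := fun x => ∑ i ∈ s, (p⁻¹) ^ (T i \ F).card *
    (if (T i \ F) ⊆ x then 1 else 0) with hZ
  have h1 : ∑ i ∈ s, Ex p (fun x => a (x ∪ T i)) = Ex p (fun x => a x * Z x) := by
    have : ∀ i ∈ s, Ex p (fun x => a (x ∪ T i))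
        = Ex p (fun x => a x * ((p⁻¹) ^ (T i \ F).card * (if (T i \ F) ⊆ x then 1 else 0))) := by
      intro i _
      have e1 : Ex p (fun x => a (x ∪ T i)) = Ex p (fun x => a (x ∪ (T i \ F))) := by
        refine Ex_congr fun x => hF _ _ fun e he => ?_
        simp only [mem_union, mem_sdiff]
        tauto
      have e2 := Ex_union p (T i \ F) a
      have hpc : p ^ (T i \ F).card ≠ 0 := pow_ne_zero _ hp0.ne'
      have e3 : Ex p (fun x => a x * ((p⁻¹) ^ (T i \ F).card * (if (T i \ F) ⊆ x then 1 else 0)))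
          = (p⁻¹) ^ (T i \ F).card * Ex p (fun x => a x * (if (T i \ F) ⊆ x then 1 else 0)) := by
        rw [← Ex_mul_left]
        exact Ex_congr fun x => by ring
      rw [e1, e3, ← e2, inv_pow, ← mul_assoc, inv_mul_cancel₀ hpc, one_mul]
    rw [Finset.sum_congr rfl this, ← Ex_sum]
    exact Ex_congr fun x => by rw [hZ, Finset.mul_sum]
  rw [h1]
  have hw := fun x : Finset E => wt_nonneg hp0.le hp1 x
  -- Cauchy-Schwarz
  have hCS : (Ex p (fun x => a x * Z x)) ^ 2 ≤ Ex p (fun x => a x ^ 2) * Ex p (fun x => Z x ^ 2) := by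
    have := Finset.sum_mul_sq_le_sq_mul_sq (Finset.univ : Finset (Finset E))
      (fun x => Real.sqrt (wt p x) * a x) (fun x => Real.sqrt (wt p x) * Z x)
    unfold Ex
    calc (∑ x, wt p x * (a x * Z x)) ^ 2
        = (∑ x, Real.sqrt (wt p x) * a x * (Real.sqrt (wt p x) * Z x)) ^ 2 := by
          congr 1
          refine Finset.sum_congr rfl fun x _ => ?_
          have := Real.mul_self_sqrt (hw x)
          calc wt p x * (a x * Z x) = (Real.sqrt (wt p x) * Real.sqrt (wt p x)) * (a x * Z x) := by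
                rw [this]
            _ = _ := by ring
      _ ≤ _ := this
      _ = _ := by
          congr 1
          · refine Finset.sum_congr rfl fun x _ => ?_
            rw [mul_pow, Real.sq_sqrt (hw x)]
          · refine Finset.sum_congr rfl fun x _ => ?_
            rw [mul_pow, Real.sq_sqrt (hw x)]
  have ha2 : Ex p (fun x => a x ^ 2) ≤ Ex p a := by
    refine Ex_mono hp0.le hp1 fun x => ?_
    have := ha0 x
    have := ha1 x
    nlinarith
  have hZ2 : Ex p (fun x => Z x ^ 2) ≤ Q := by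
    refine le_trans (le_of_eq ?_) hQ
    have e1 : ∀ x, Z x ^ 2 = ∑ i ∈ s, ∑ j ∈ s, (p⁻¹) ^ ((T i \ F).card + (T j \ F).card) *
        (if (T i \ F) ∪ (T j \ F) ⊆ x then 1 else 0) := by
      intro x
      rw [hZ, sq, Finset.sum_mul_sum]
      refine Finset.sum_congr rfl fun i _ => Finset.sum_congr rfl fun j _ => ?_
      rw [pow_add]
      by_cases h1 : (T i \ F) ⊆ x
      · by_cases h2 : (T j \ F) ⊆ x
        · rw [if_pos h1, if_pos h2, if_pos (Finset.union_subset h1 h2)]; ring
        · rw [if_neg h2, if_neg (fun h => h2 (Finset.union_subset_right h))]; ring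
      · rw [if_neg h1, if_neg (fun h => h1 (Finset.union_subset_left h))]; ring
    rw [Ex_congr e1, Ex_sum]
    refine Finset.sum_congr rfl fun i _ => ?_
    rw [Ex_sum]
    refine Finset.sum_congr rfl fun j _ => ?_
    rw [Ex_mul_left]
    unfold Ex
    rw [sum_wt_superset]
    have hc : ((T i \ F) ∪ (T j \ F)).card + ((T i ∩ T j) \ F).card
        = (T i \ F).card + (T j \ F).card := by
      rw [← Finset.card_union_add_card_inter (T i \ F) (T j \ F)]
      congr 2
      ext e
      simp only [mem_sdiff, mem_inter]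
      tauto
    rw [← hc, pow_add, mul_assoc, mul_comm, mul_assoc, ← mul_pow, mul_inv_cancel₀ hp0.ne',
      one_pow, mul_one]
  have hZ0 : 0 ≤ Ex p (fun x => Z x ^ 2) := Ex_nonneg hp0.le hp1 fun x => sq_nonneg _
  have ha00 : 0 ≤ Ex p a := Ex_nonneg hp0.le hp1 ha0
  apply Real.le_sqrt_of_sq_le
  calc (Ex p (fun x => a x * Z x)) ^ 2 ≤ Ex p (fun x => a x ^ 2) * Ex p (fun x => Z x ^ 2) := hCS
    _ ≤ Ex p a * Q := mul_le_mul ha2 hZ2 hZ0 ha00


omit [Fintype E] in
lemma mix_eq_of_indep {α : Type*} {R : Finset E} {f : Finset E → α} (h : Indep R f)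
    (x y : Finset E) : f (mix R x y) = f x := by
  refine h _ _ fun e he => ?_
  rw [mem_mix]
  tauto

/-- conditional expectation: average over the coordinates in `R`. -/
noncomputable def avg (p : ℝ) (R : Finset E) (f : Finset E → ℝ) (x : Finset E) : ℝ :=
  ∑ y : Finset E, wt p y * f (mix R x y)

lemma avg_nonneg {p : ℝ} (hp0 : 0 ≤ p) (hp1 : p ≤ 1) {R : Finset E} {f : Finset E → ℝ}
    (h : ∀ x, 0 ≤ f x) (x : Finset E) : 0 ≤ avg p R f x :=
  Finset.sum_nonneg fun _ _ => mul_nonneg (wt_nonneg hp0 hp1 _) (h _)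

lemma avg_indep_self (p : ℝ) (R : Finset E) (f : Finset E → ℝ) : Indep R (avg p R f) := by
  intro x x' h
  unfold avg
  refine Finset.sum_congr rfl fun y _ => ?_
  congr 2
  ext e
  rw [mem_mix, mem_mix]
  by_cases he : e ∈ R
  · simp [he]
  · simp [he, h e he]

lemma avg_indep_of (p : ℝ) (R B : Finset E) {f : Finset E → ℝ} (hf : Indep B f) :
    Indep B (avg p R f) := by
  intro x x' h
  unfold avg
  refine Finset.sum_congr rfl fun y _ => ?_
  congr 1
  refine hf _ _ fun e he => ?_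
  rw [mem_mix, mem_mix]
  rw [h e he]

/-- tower property. -/
lemma Ex_mul_avg (p : ℝ) (R : Finset E) (f g : Finset E → ℝ) (hg : Indep R g) :
    Ex p (fun x => f x * g x) = Ex p (fun x => avg p R f x * g x) := by
  rw [← Ex_resample p R (fun x => f x * g x)]
  unfold Ex
  refine Finset.sum_congr rfl fun x _ => ?_
  unfold avg
  show _ = wt p x * ((∑ y, wt p y * f (mix R x y)) * g x)
  rw [Finset.sum_mul, Finset.mul_sum]
  refine Finset.sum_congr rfl fun y _ => ?_
  rw [mix_eq_of_indep hg]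
  ring

/-- The corruption bound for rectangles: if `ρ` does not depend on `B`, `β` does not depend on
`R`, and `ρ * β` has small expectation, then the planted mass of `ρ * β` is small. -/
lemma rect_le {p : ℝ} (hp0 : 0 < p) (hp1 : p ≤ 1) {ι : Type*} (s : Finset ι)
    (T : ι → Finset E) (R B : Finset E) (ρ β : Finset E → ℝ)
    (hρ01 : ∀ x, ρ x = 0 ∨ ρ x = 1) (hβ01 : ∀ x, β x = 0 ∨ β x = 1)
    (hρ : Indep B ρ) (hβ : Indep R β) (Q δ θ : ℝ) (hθ : 0 < θ)
    (hQ0 : 0 ≤ Q) (hδ : Ex p (fun x => ρ x * β x) ≤ δ)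
    (hQB : ∑ i ∈ s, ∑ j ∈ s, (p⁻¹) ^ ((T i ∩ T j) \ B).card ≤ Q)
    (hQR : ∑ i ∈ s, ∑ j ∈ s, (p⁻¹) ^ ((T i ∩ T j) \ R).card ≤ Q) :
    ∑ i ∈ s, Ex p (fun x => ρ (x ∪ T i) * β (x ∪ T i)) ≤
      2 * Real.sqrt (θ * Q) + Real.sqrt (δ / θ ^ 2 * Q) := by
  classical
  have hρ0 : ∀ x, 0 ≤ ρ x := fun x => by rcases hρ01 x with h | h <;> rw [h] <;> norm_num
  have hβ0 : ∀ x, 0 ≤ β x := fun x => by rcases hβ01 x with h | h <;> rw [h] <;> norm_num
  have hρ1 : ∀ x, ρ x ≤ 1 := fun x => by rcases hρ01 x with h | h <;> rw [h] <;> norm_num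
  have hβ1 : ∀ x, β x ≤ 1 := fun x => by rcases hβ01 x with h | h <;> rw [h] <;> norm_num
  set u : Finset E → ℝ := avg p R ρ with hu
  set v : Finset E → ℝ := avg p B β with hv
  have hu0 : ∀ x, 0 ≤ u x := avg_nonneg hp0.le hp1 hρ0
  have hv0 : ∀ x, 0 ≤ v x := avg_nonneg hp0.le hp1 hβ0
  have huR : Indep R u := avg_indep_self p R ρ
  have huB : Indep B u := avg_indep_of p R B hρ
  have hvB : Indep B v := avg_indep_self p B β
  have hvR : Indep R v := avg_indep_of p B R hβ
  -- the three events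
  set a₁ : Finset E → ℝ := fun x => ρ x * (if u x ≤ θ then 1 else 0) with ha₁
  set a₂ : Finset E → ℝ := fun x => β x * (if v x ≤ θ then 1 else 0) with ha₂
  set a₃ : Finset E → ℝ := fun x => if θ < u x ∧ θ < v x then 1 else 0 with ha₃
  have hle : ∀ x, ρ x * β x ≤ a₁ x + a₂ x + a₃ x := by
    intro x
    simp only [ha₁, ha₂, ha₃]
    have h0 := hρ0 x
    have h1 := hβ0 x
    have h2 := hρ1 x
    have h3 := hβ1 x
    have h4 : ρ x * β x ≤ ρ x := by nlinarith
    have h5 : ρ x * β x ≤ β x := by nlinarith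
    by_cases c1 : u x ≤ θ
    · rw [if_pos c1]
      split_ifs <;> nlinarith
    · by_cases c2 : v x ≤ θ
      · rw [if_pos c2]
        split_ifs <;> nlinarith
      · rw [if_neg c1, if_neg c2, if_pos ⟨lt_of_not_ge c1, lt_of_not_ge c2⟩]
        nlinarith
  have i₁ : Indep R (fun x => if u x ≤ θ then (1:ℝ) else 0) := by
    intro x y h
    simp only [huR x y h]
  have i₂ : Indep B (fun x => if v x ≤ θ then (1:ℝ) else 0) := by
    intro x y h
    simp only [hvB x y h]
  have i₁' : Indep B a₁ := by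
    intro x y h
    simp only [ha₁, hρ x y h, huB x y h]
  have i₂' : Indep R a₂ := by
    intro x y h
    simp only [ha₂, hβ x y h, hvR x y h]
  have i₃ : Indep B a₃ := by
    intro x y h
    simp only [ha₃, huB x y h, hvB x y h]
  have m₁ : Ex p a₁ ≤ θ := by
    rw [ha₁, Ex_mul_avg p R ρ _ i₁]
    calc Ex p (fun x => avg p R ρ x * (if u x ≤ θ then 1 else 0)) ≤ Ex p (fun _ => θ) := by
          refine Ex_mono hp0.le hp1 fun x => ?_
          split_ifs with h
          · rw [mul_one]; exact h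
          · rw [mul_zero]; exact hθ.le
      _ = θ := Ex_const p θ
  have m₂ : Ex p a₂ ≤ θ := by
    rw [ha₂, Ex_mul_avg p B β _ i₂]
    calc Ex p (fun x => avg p B β x * (if v x ≤ θ then 1 else 0)) ≤ Ex p (fun _ => θ) := by
          refine Ex_mono hp0.le hp1 fun x => ?_
          split_ifs with h
          · rw [mul_one]; exact h
          · rw [mul_zero]; exact hθ.le
      _ = θ := Ex_const p θ
  have m₃ : Ex p a₃ ≤ δ / θ ^ 2 := by
    have e : Ex p (fun x => ρ x * β x) = Ex p (fun x => u x * v x) := by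
      rw [Ex_mul_avg p R ρ β hβ]
      have e2 : Ex p (fun x => avg p R ρ x * β x) = Ex p (fun x => β x * u x) :=
        Ex_congr fun x => by rw [mul_comm]
      rw [e2, Ex_mul_avg p B β u huB]
      exact Ex_congr fun x => by rw [mul_comm]
    have e3 : θ ^ 2 * Ex p a₃ ≤ Ex p (fun x => u x * v x) := by
      rw [← Ex_mul_left]
      refine Ex_mono hp0.le hp1 fun x => ?_
      simp only [ha₃]
      split_ifs with h
      · have := h.1
        have := h.2
        nlinarith
      · rw [mul_zero]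
        exact mul_nonneg (hu0 x) (hv0 x)
    rw [le_div_iff₀ (by positivity)]
    rw [mul_comm]
    linarith
  have b₁ := planted_le hp0 hp1 s T B a₁
    (fun x => by simp only [ha₁]; split_ifs <;> nlinarith [hρ0 x])
    (fun x => by simp only [ha₁]; split_ifs <;> nlinarith [hρ1 x]) i₁' Q hQB
  have b₂ := planted_le hp0 hp1 s T R a₂
    (fun x => by simp only [ha₂]; split_ifs <;> nlinarith [hβ0 x])
    (fun x => by simp only [ha₂]; split_ifs <;> nlinarith [hβ1 x]) i₂' Q hQR
  have b₃ := planted_le hp0 hp1 s T B a₃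
    (fun x => by simp only [ha₃]; split_ifs <;> norm_num)
    (fun x => by simp only [ha₃]; split_ifs <;> norm_num) i₃ Q hQB
  have s₁ : Real.sqrt (Ex p a₁ * Q) ≤ Real.sqrt (θ * Q) :=
    Real.sqrt_le_sqrt (mul_le_mul_of_nonneg_right m₁ hQ0)
  have s₂ : Real.sqrt (Ex p a₂ * Q) ≤ Real.sqrt (θ * Q) :=
    Real.sqrt_le_sqrt (mul_le_mul_of_nonneg_right m₂ hQ0)
  have s₃ : Real.sqrt (Ex p a₃ * Q) ≤ Real.sqrt (δ / θ ^ 2 * Q) :=
    Real.sqrt_le_sqrt (mul_le_mul_of_nonneg_right m₃ hQ0)
  calc ∑ i ∈ s, Ex p (fun x => ρ (x ∪ T i) * β (x ∪ T i))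
      ≤ ∑ i ∈ s, (Ex p (fun x => a₁ (x ∪ T i)) + Ex p (fun x => a₂ (x ∪ T i))
          + Ex p (fun x => a₃ (x ∪ T i))) := by
        refine Finset.sum_le_sum fun i _ => ?_
        rw [← Ex_add, ← Ex_add]
        exact Ex_mono hp0.le hp1 fun x => hle _
    _ = ∑ i ∈ s, Ex p (fun x => a₁ (x ∪ T i)) + ∑ i ∈ s, Ex p (fun x => a₂ (x ∪ T i))
          + ∑ i ∈ s, Ex p (fun x => a₃ (x ∪ T i)) := by
        rw [Finset.sum_add_distrib, Finset.sum_add_distrib]
    _ ≤ _ := by linarith

end Pool.H35.Rc
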